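import Pool.Agent.NegLim.Defs

/-!
# Circuits whose gates are all real functions of two variables which are monotone (increasing or
decreasing) in each variable, and their interval arithmetic: definitions
-/

set_option autoImplicit false

namespace Pool.Agent.RC

open Pool.Agent.NegLim

/-- A gate: a real function of the values of two wires, increasing or decreasing in each of them;
that is, `φ (± x, ± y)` for an increasing function `φ` and two signs (`true` is the sign `+`). -/
structure IGate (V : Type) : Type where
  /-- the increasing function -/
  φ : ℝ × ℝ →o ℝ
  /-- the sign of the first variable -/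
  σ : Bool
  /-- the sign of the second variable -/
  τ : Bool
  /-- the first wire -/
  a : Wire V
  /-- the second wire -/
  b : Wire V

/-- A circuit is a list of gates; gates are numbered `0, 1, 2, ...` in the order of the list. -/
abbrev ICircuit (V : Type) : Type := List (IGate V)

/-- The size of a circuit: its number of gates. -/
def ICircuit.size {V : Type} (C : ICircuit V) : ℕ := C.length

/-- The number with a sign. -/
noncomputable def sgn (σ : Bool) (x : ℝ) : ℝ := if σ then x else -x

/-- The value of a wire at the input `x`, if `vals` lists the values of the gates computed so
far. -/
noncomputable def wireR {V : Type} (x : V → Bool) (vals : List ℝ) : Wire V → ℝ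
  | .var v => if x v then 1 else 0
  | .const b => if b then 1 else 0
  | .gate i => vals.getD i 0

/-- The value of a gate. -/
noncomputable def IGate.val {V : Type} (x : V → Bool) (vals : List ℝ) (g : IGate V) : ℝ :=
  g.φ (sgn g.σ (wireR x vals g.a), sgn g.τ (wireR x vals g.b))

/-- The values of the gates of a circuit at the input `x`, given the list `vals` of the values of
gates computed before. -/
noncomputable def valsR {V : Type} (x : V → Bool) : ICircuit V → List ℝ → List ℝ
  | [], vals => vals
  | g :: C, vals => valsR x C (vals ++ [g.val x vals])

/-- The value of the wire `a` of the circuit `C` at the input `x`. -/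
noncomputable def ICircuit.val {V : Type} (C : ICircuit V) (x : V → Bool) (a : Wire V) : ℝ :=
  wireR x (valsR x C []) a

/-- The interval (its two ends) with a sign. -/
noncomputable def sgnI (σ : Bool) (I : ℝ × ℝ) : ℝ × ℝ := if σ then I else (-I.2, -I.1)

/-- The interval of a wire at the partly hidden input `p` (`none`: the bit is hidden), if `vals`
lists the intervals of the gates computed so far. -/
noncomputable def wireI {V : Type} (p : V → Option Bool) (vals : List (ℝ × ℝ)) : Wire V → ℝ × ℝ
  | .var v => match p v with
    | some b => (if b then 1 else 0, if b then 1 else 0)
    | none => (0, 1)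
  | .const b => (if b then 1 else 0, if b then 1 else 0)
  | .gate i => vals.getD i (0, 0)

/-- The interval of a gate. -/
noncomputable def IGate.range {V : Type} (p : V → Option Bool) (vals : List (ℝ × ℝ))
    (g : IGate V) : ℝ × ℝ :=
  (g.φ ((sgnI g.σ (wireI p vals g.a)).1, (sgnI g.τ (wireI p vals g.b)).1),
    g.φ ((sgnI g.σ (wireI p vals g.a)).2, (sgnI g.τ (wireI p vals g.b)).2))

/-- The intervals of the gates of a circuit at the partly hidden input `p`, given the list `vals` of
the intervals of gates computed before. -/
noncomputable def valsI {V : Type} (p : V → Option Bool) :
    ICircuit V → List (ℝ × ℝ) → List (ℝ × ℝ)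
  | [], vals => vals
  | g :: C, vals => valsI p C (vals ++ [g.range p vals])

/-- **Interval arithmetic**: the interval (its two ends) computed for the wire `a` of the circuit `C`
at the partly hidden input `p`. -/
noncomputable def ICircuit.range {V : Type} (C : ICircuit V) (p : V → Option Bool) (a : Wire V) :
    ℝ × ℝ :=
  wireI p (valsI p C []) a

end Pool.Agent.RC
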