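import Pool.Agent.RC.Event
import Pool.Agent.LocE.Glue

/-!
# The class of the functions decided by monotone real circuits
-/

set_option autoImplicit false

namespace Pool.Agent.RC

open Pool.Agent.NegLim Pool.Agent.NTR Pool.Agent.NTN Finset
open scoped BigOperators

variable {V W : Type}

/-- Substitution in a gate. -/
def RGate.subst (σ : V → Lit W) : RGate V → RGate W
  | .mono φ a b => .mono φ (a.subst σ) (b.subst σ)
  | .not ψ a => .not ψ (a.subst σ)

theorem wval_subst (σ : V → Lit W) (x : W → Bool) (l : List ℝ) (a : Wire V) :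
    wval x l (a.subst σ) = wval (fun v => (σ v).val x) l a := by
  cases a with
  | var v =>
    show wval x l (σ v).wire = if (σ v).val x then 1 else 0
    cases σ v <;> rfl
  | const b => rfl
  | gate i => rfl

theorem rgate_subst_val (σ : V → Lit W) (x : W → Bool) (l : List ℝ) (g : RGate V) :
    (g.subst σ).val x l = g.val (fun v => (σ v).val x) l := by
  cases g with
  | mono φ a b =>
    show φ (wval x l (a.subst σ), wval x l (b.subst σ)) = _
    rw [wval_subst, wval_subst]
    rfl
  | not ψ a =>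
    show (if ψ (wval x l (a.subst σ)) then (0 : ℝ) else 1) = _
    rw [wval_subst]
    rfl

theorem rvals_subst (σ : V → Lit W) (x : W → Bool) (C : RCircuit V) (l : List ℝ) :
    rvals x (C.map (RGate.subst σ)) l = rvals (fun v => (σ v).val x) C l := by
  induction C generalizing l with
  | nil => rfl
  | cons g C ih =>
    simp only [List.map_cons, rvals]
    rw [rgate_subst_val, ih]

theorem rsubst_isNot (σ : V → Lit W) (g : RGate V) : (g.subst σ).isNot = g.isNot := by
  cases g <;> rfl

theorem rsubst_negs (σ : V → Lit W) (C : RCircuit V) :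
    RCircuit.negs (C.map (RGate.subst σ)) = RCircuit.negs C := by
  unfold RCircuit.negs
  rw [List.countP_map]
  congr 1
  funext g
  exact rsubst_isNot σ g

theorem notVals_of_negs (C : RCircuit V) (h : C.negs = 0) (x : V → Bool) :
    C.notVals x = [] := by
  unfold RCircuit.notVals
  rw [List.map_eq_nil_iff, List.filter_eq_nil_iff]
  intro p hp
  have h1 : p.1 ∈ C := (List.of_mem_zip hp).1
  exact (List.countP_eq_zero.mp h) p.1 h1

/-- A function decided by a monotone real circuit. -/
theorem rfun_of_circuit {S : ℕ} {F : (V → Bool) → Bool} (C : RCircuit V) (out : Wire V)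
    (ψ : ℝ →o Bool) (h0 : C.negs = 0) (hS : C.size ≤ S) (hF : ∀ x, F x = ψ (C.val x out)) :
    RFun S F := by
  obtain ⟨s, D, fs, G, hs, hD, hfs, -, -, hnot, hval⟩ := rlocal C fun _ => false
  have hbot : ∀ z : V → Bool, (fun _ => false) ≤ z := fun z v => Bool.false_le _
  have hG : ∀ z, G z ≠ 1 := fun z h => (hnot z (hbot z)).1 h
    ((notVals_of_negs C h0 z).trans (notVals_of_negs C h0 _).symm)
  refine ⟨s, hs.trans hS, D, hD, wfun fs out, wfun_mem hD hfs out, ψ, fun z => ?_⟩
  rw [hF z]
  unfold RCircuit.val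
  rw [hval z (hbot z) (hG z), wval_wfun]

/-- **The functions decided by monotone real circuits** with at most `S` gates: the output is read
through a monotone function of a real number with the values `0, 1`. -/
def realClass (S : ℕ) : Gen.MonoClass where
  mem ι F := ∃ (C : RCircuit ι) (out : Wire ι) (ψ : ℝ →o Bool), C.negs = 0 ∧ C.size ≤ S ∧
    ∀ x, F x = ψ (C.val x out)
  mono := by
    rintro ι F ⟨C, out, ψ, h0, hS, hF⟩
    exact (rfun_of_circuit C out ψ h0 hS hF).monotone
  subst := by
    rintro ι κ F φ ⟨C, out, ψ, h0, hS, hF⟩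
    have hσ : ∀ y : κ → Bool, (fun v => (LocE.subLit (φ v)).val y)
        = fun v => Sum.elim y id (φ v) := fun y => funext fun v => LocE.subLit_val y (φ v)
    refine ⟨C.map (RGate.subst fun v => LocE.subLit (φ v)),
      out.subst fun v => LocE.subLit (φ v), ψ, ?_, ?_, fun y => ?_⟩
    · rw [rsubst_negs, h0]
    · refine le_trans (le_of_eq ?_) hS
      unfold RCircuit.size
      rw [List.length_map]
    · show F (fun i => Sum.elim y id (φ i)) = _
      rw [hF]
      unfold RCircuit.val
      rw [rvals_subst, wval_subst, hσ y]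

/-- The disjunction of several decided functions. -/
theorem or_list {S : ℕ} (Gs : List ((V → Bool) → Bool)) (h : ∀ G ∈ Gs, RFun S G) :
    ∃ (s : ℕ) (D : Set ((V → Bool) → ℝ)) (F : (V → Bool) → ℝ), s ≤ Gs.length * (S + 1) ∧
      RComp s D ∧ F ∈ D ∧ (∀ z, F z = 0 ∨ F z = 1) ∧
      ∀ z, F z = 1 ↔ ∃ G ∈ Gs, G z = true := by
  induction Gs with
  | nil =>
    exact ⟨0, _, fun _ => 0, by simp, RComp.base, Or.inr ⟨0, rfl⟩, fun z => Or.inl rfl,
      fun z => by simp⟩
  | cons G Gs ih =>
    obtain ⟨s, D, F, h1, h2, h3, h4, h5⟩ := ih fun G hG => h G (List.mem_cons_of_mem _ hG)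
    obtain ⟨s', hs', D', hD', f, hf, ψ, hψ⟩ := h G List.mem_cons_self
    obtain ⟨E, hE, hDE, hDE'⟩ := h2.append hD'
    refine ⟨s + s' + 1, insert (fun z => orGate ψ (F z, f z)) E, fun z => orGate ψ (F z, f z), ?_,
      RComp.gate (orGate ψ) hE (hDE h3) (hDE' hf), Or.inl rfl,
      fun z => (orGate_val ψ (h4 z)).1, fun z => ?_⟩
    · rw [List.length_cons, Nat.succ_mul]
      omega
    · rw [(orGate_val ψ (h4 z)).2, h5 z]
      constructor
      · rintro (⟨G', hG', h6⟩ | h6)
        · exact ⟨G', List.mem_cons_of_mem _ hG', h6⟩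
        · exact ⟨G, List.mem_cons_self, (hψ z).trans h6⟩
      · rintro ⟨G', hG', h6⟩
        rcases List.mem_cons.mp hG' with rfl | hG'
        · exact Or.inr ((hψ z).symm.trans h6)
        · exact Or.inl ⟨G', hG', h6⟩

theorem rfun_orSet {S q : ℕ} {H : (V → Bool) → Bool} (hH : H ∈ orSet (realClass S) V q) :
    RFun (q * (S + 1)) H := by
  obtain ⟨Gs, hq, hGs, hH⟩ := hH
  obtain ⟨s, D, F, h1, h2, h3, h4, h5⟩ := or_list (S := S) Gs fun G hG => by
    obtain ⟨C, out, ψ, h0, hS, hF⟩ := hGs G hG
    exact rfun_of_circuit C out ψ h0 hS hF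
  refine ⟨s, h1.trans (Nat.mul_le_mul_right _ hq), D, h2, F, h3, thr 1, fun z => ?_⟩
  have h6 : thr 1 (F z) = true ↔ H z = true := by
    rw [thr_iff, hH z, ← h5 z]
    rcases h4 z with h | h <;> rw [h] <;> norm_num
  exact (Bool.eq_iff_iff.mpr h6).symm

end Pool.Agent.RC
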