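import Pool.Agent.RC.Event

/-!
# The event that the values of the NOT gates or of several outputs of a real circuit change
-/

set_option autoImplicit false

namespace Pool.Agent.RC

open Pool.Agent.NegLim Pool.Agent.NTR Pool.Agent.NTN Finset
open scoped BigOperators

variable {V : Type}

/-- The disjunction with several decided values. -/
theorem or_many {s : ℕ} {D : Set ((V → Bool) → ℝ)} (hD : RComp s D) {F : (V → Bool) → ℝ}
    (hF : F ∈ D) (h01 : ∀ z, F z = 0 ∨ F z = 1) {κ : Type} (f : κ → (V → Bool) → ℝ)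
    (hf : ∀ i, f i ∈ D) (ψ : κ → ℝ →o Bool) (J : Finset κ) :
    ∃ (D' : Set ((V → Bool) → ℝ)) (G : (V → Bool) → ℝ), RComp (s + J.card) D' ∧ D ⊆ D' ∧
      G ∈ D' ∧ (∀ z, G z = 0 ∨ G z = 1) ∧
      ∀ z, G z = 1 ↔ F z = 1 ∨ ∃ i ∈ J, ψ i (f i z) = true := by
  classical
  induction J using Finset.induction_on with
  | empty => exact ⟨D, F, hD, Set.Subset.refl _, hF, h01, fun z => by simp⟩
  | insert a J ha ih =>
    obtain ⟨D', G, h1, h2, h3, h4, h5⟩ := ih
    refine ⟨insert (fun z => orGate (ψ a) (G z, f a z)) D', fun z => orGate (ψ a) (G z, f a z),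
      ?_, ?_, Or.inl rfl, fun z => (orGate_val (ψ a) (h4 z)).1, fun z => ?_⟩
    · rw [Finset.card_insert_of_notMem ha]
      exact RComp.gate (orGate (ψ a)) h1 h3 (h2 (hf a))
    · exact h2.trans (Set.subset_insert _ _)
    · rw [(orGate_val (ψ a) (h4 z)).2, h5 z]
      constructor
      · rintro ((h | ⟨i, hi, h⟩) | h)
        · exact Or.inl h
        · exact Or.inr ⟨i, Finset.mem_insert_of_mem hi, h⟩
        · exact Or.inr ⟨a, Finset.mem_insert_self a J, h⟩
      · rintro (h | ⟨i, hi, h⟩)
        · exact Or.inl (Or.inl h)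
        · rcases Finset.mem_insert.mp hi with rfl | hi
          · exact Or.inr h
          · exact Or.inl (Or.inr ⟨i, hi, h⟩)

/-- The event that the values of the NOT gates or the outputs change. -/
theorem rlocal_outs (C : RCircuit V) (x : V → Bool) {T : ℕ} (out : Fin T → Wire V)
    (ψ : Fin T → ℝ →o Bool) :
    ∃ H : (V → Bool) → Bool, RFun (C.size + T) H ∧ ∀ z, x ≤ z → (H z = true ↔
      (C.notVals z, fun i => ψ i (C.val z (out i)))
        ≠ (C.notVals x, fun i => ψ i (C.val x (out i)))) := by
  classical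
  obtain ⟨s, D, fs, F, hs, hD, hfs, hF, h01, hnot, hval⟩ := rlocal C x
  have hxF : F x ≠ 1 := fun h => (hnot x le_rfl).1 h rfl
  have hmono : ∀ i, Monotone (wfun fs (out i)) :=
    fun i => hD.monotone _ (wfun_mem hD hfs (out i))
  have hv : ∀ i z, x ≤ z → F z ≠ 1 → C.val z (out i) = wfun fs (out i) z := by
    intro i z hz hzF
    unfold RCircuit.val
    rw [hval z hz hzF, wval_wfun]
  have hle : ∀ {a : ℝ}, (a = 0 ∨ a = 1) → (thr 1 a = true ↔ a = 1) := by
    intro a ha
    rw [thr_iff]
    rcases ha with rfl | rfl <;> norm_num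
  have hnotC : ∀ z, x ≤ z → F z ≠ 1 → C.notVals z = C.notVals x := by
    intro z hz hzF
    by_contra h
    exact hzF ((hnot z hz).2 h)
  set J : Finset (Fin T) := Finset.univ.filter fun i => ψ i (C.val x (out i)) = false with hJdef
  obtain ⟨D', G, g1, -, g3, g4, g5⟩ := or_many hD hF h01 (fun i => wfun fs (out i))
    (fun i => wfun_mem hD hfs (out i)) ψ J
  have hJ : J.card ≤ T := (Finset.card_le_univ J).trans (by simp)
  refine ⟨fun z => thr 1 (G z), ⟨s + J.card, by omega, D', g1, G, g3, thr 1, fun z => rfl⟩,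
    fun z hz => ?_⟩
  rw [hle (g4 z), g5 z]
  constructor
  · rintro (h | ⟨i, hi, h⟩) h2
    · exact (hnot z hz).1 h (Prod.ext_iff.mp h2).1
    · have h3 := Prod.ext_iff.mp h2
      have hzF : F z ≠ 1 := fun h4 => (hnot z hz).1 h4 h3.1
      have h4 : ψ i (C.val z (out i)) = ψ i (C.val x (out i)) := congrFun h3.2 i
      have h5 : ψ i (C.val x (out i)) = false := (Finset.mem_filter.mp hi).2
      rw [hv i z hz hzF, h, h5] at h4
      exact absurd h4 (by simp)
  · intro h
    by_contra hcon
    rw [not_or] at hcon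
    apply h
    refine Prod.ext (hnotC z hz hcon.1) (funext fun i => ?_)
    show ψ i (C.val z (out i)) = ψ i (C.val x (out i))
    by_cases h6 : ψ i (C.val x (out i)) = true
    · have h7 : C.val x (out i) ≤ C.val z (out i) := by
        rw [hv i z hz hcon.1, hv i x le_rfl hxF]
        exact hmono i hz
      have h8 := (ψ i).monotone h7
      rw [h6] at h8
      rw [h6]
      exact Bool.eq_true_of_true_le h8
    · rw [Bool.not_eq_true] at h6
      by_contra h7
      rw [h6, Bool.not_eq_false] at h7
      exact hcon.2 ⟨i, Finset.mem_filter.mpr ⟨Finset.mem_univ i, h6⟩, by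
        rw [← hv i z hz hcon.1]
        exact h7⟩

open Classical in
/-- **The event that the state changes inside a block**, several outputs. -/
theorem revents {ι β : Type} {r : ℕ} (C : RCircuit ι) {T : ℕ} (out : Fin T → Wire ι)
    (ψ : Fin T → ℝ →o Bool) (φ : ι → (Fin r × β) ⊕ Bool) (i : Fin r) (X : Fin r × β → Bool)
    (hX : ∀ e, X (i, e) = false) :
    ∃ H : (β → Bool) → Bool, RFun (C.size + T) H ∧ ∀ u, H u = true ↔
      (C.notVals (fun v => Sum.elim (put X i u) id (φ v)),
        fun j => ψ j (C.val (fun v => Sum.elim (put X i u) id (φ v)) (out j)))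
      ≠ (C.notVals (fun v => Sum.elim X id (φ v)),
        fun j => ψ j (C.val (fun v => Sum.elim X id (φ v)) (out j))) := by
  obtain ⟨H, hH, h1⟩ := rlocal_outs C (fun v => Sum.elim X id (φ v)) out ψ
  let σ : ι → Lit β := fun v => match φ v with
    | .inl (j, b) => if j = i then .var b else .const (X (j, b))
    | .inr c => .const c
  have hσ : ∀ (u : β → Bool) (v : ι), (σ v).val u = Sum.elim (put X i u) id (φ v) := by
    intro u v
    show (match φ v with
      | .inl (j, b) => if j = i then Lit.var b else Lit.const (X (j, b))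
      | .inr c => Lit.const c : Lit β).val u = _
    rcases φ v with ⟨j, b⟩ | c
    · show (if j = i then Lit.var b else Lit.const (X (j, b)) : Lit β).val u = put X i u (j, b)
      unfold put
      by_cases hj : j = i
      · rw [if_pos hj, if_pos hj]
        rfl
      · rw [if_neg hj, if_neg hj]
        rfl
    · rfl
  refine ⟨_, hH.subst σ, fun u => ?_⟩
  have e : (fun v => (σ v).val u) = fun v => Sum.elim (put X i u) id (φ v) :=
    funext fun v => hσ u v
  rw [e]
  refine h1 _ fun v => ?_
  show Sum.elim X id (φ v) ≤ Sum.elim (put X i u) id (φ v)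
  rcases φ v with ⟨j, b⟩ | c
  · show X (j, b) ≤ put X i u (j, b)
    unfold put
    by_cases hj : j = i
    · subst hj
      rw [hX b]
      exact Bool.false_le _
    · rw [if_neg (by exact hj)]
  · exact le_refl _

open Classical in
/-- **Real circuits on `U` with several outputs, from the model-free transfer.** -/
theorem rcircuitsT_of_core {ι β : Type} [Fintype ι] [DecidableEq ι] [Fintype β] {U : Finset ι}
    {r : ℕ} (f : (ι → Bool) → Prop) (φ : ι → (Fin r × β) ⊕ Bool)
    (D₀ D₁ : (β → Bool) → ℝ) (μ : (ι → Bool) → ℝ)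
    (m4 : ∀ (α : Type) (st : (ι → Bool) → α) (A : (ι → Bool) → Prop) (b : ℕ) (δ : ℝ),
        (∀ x y, (∀ v, v ∉ U → x v = y v) → st x = st y → (A x ↔ A y)) →
        ChangesOn U st b →
        (∀ (i : Fin r) (X : Fin r × β → Bool), (∀ e, X (i, e) = false) →
          ∑ u with st (fun v => Sum.elim (put X i u) id (φ v)) ≠
              st (fun v => Sum.elim X id (φ v)), D₁ u
            ≤ ∑ u with st (fun v => Sum.elim (put X i u) id (φ v)) ≠
              st (fun v => Sum.elim X id (φ v)), D₀ u + δ) →
        ∑ x with (A x ↔ f x), μ x ≤ 1 / 2 + δ / 2 + b / (2 * r))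
    (T b Z : ℕ) (δ : ℝ)
    (hδ : ∀ H : (β → Bool) → Bool, RFun Z H →
      ∑ u with H u = true, D₁ u ≤ ∑ u with H u = true, D₀ u + δ)
    (C : RCircuit ι) (out : Fin T → Wire ι) (ψ : Fin T → ℝ →o Bool)
    (h : (Fin T → Bool) → Bool)
    (hC : C.size + T ≤ Z) (hb : ChangesOn U (fun x => C.notVals x) b) :
    ∑ x with (h (fun i => ψ i (C.val x (out i))) = true ↔ f x), μ x
      ≤ 1 / 2 + δ / 2 + (T + 1) * b / (2 * r) := by
  have hpair : ChangesOn U (fun x => (C.notVals x, fun i : Fin T => ψ i (C.val x (out i))))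
      ((T + 1) * b) :=
    changesOn_pair hb fun x y hxy _ hw i =>
      (ψ i).monotone (rval_le_of_notVals C hxy hw.symm (out i))
  have h2 := m4 (List ℝ × (Fin T → Bool))
    (fun x => (C.notVals x, fun i => ψ i (C.val x (out i))))
    (fun x => h (fun i => ψ i (C.val x (out i))) = true) ((T + 1) * b) δ
    (by
      intro x y _ hst
      have e5 := congrArg Prod.snd hst
      simp only at e5
      rw [e5])
    hpair
    (by
      intro i X hX
      obtain ⟨H, hH, hHu⟩ := revents C out ψ φ i X hX
      have h3 := hδ H (hH.mono hC)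
      exact (le_of_eq (sum_filter_iff' D₁ _ _ _ _ fun u => (hHu u).symm)).trans
        (h3.trans (le_of_eq (congrArg (· + δ) (sum_filter_iff' D₀ _ _ _ _ hHu)))))
  refine (le_of_eq (sum_filter_iff' μ _ _ _ _ fun x => Iff.rfl)).trans (h2.trans (le_of_eq ?_))
  push_cast
  ring

end Pool.Agent.RC
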