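import Pool.Agent.RC.BlockR
import Pool.Agent.RC.EventT
import Pool.Agent.RC.ClassR
import Pool.Agent.NTN.AvgBoth
import Pool.Agent.LocE.Main

/-!
# Real circuits whose NOT gates rarely change on a set of variables
-/

set_option autoImplicit false

namespace Pool.Agent.RC

open Finset Pool.Agent.NegLim Pool.Agent.NegLim.Lang Pool.Agent.NegLim.NPL Pool.Agent.NTR
  Pool.Agent.NTN Pool.Agent.PolyTime Pool.Agent.LocE
open scoped BigOperators

open Classical in
/-- The transfer for real circuits with several outputs, for a type of block variables with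
decidable equality. -/
theorem glueR {ι β : Type} [Fintype ι] [DecidableEq ι] [Fintype β] [dβ : DecidableEq β]
    {U : Finset ι} {r : ℕ}
    (hr : 1 ≤ r) (g : (β → Bool) → Bool) (hg : Monotone g) (f : (ι → Bool) → Bool)
    (φ : ι → (Fin r × β) ⊕ Bool) (hφ : ∀ v, v ∉ U → ∃ c, φ v = .inr c)
    (hf : ∀ y : Fin r × β → Bool, f (fun v => Sum.elim y id (φ v)) = true ↔ OrCopies g y)
    (D₀ D₁ : (β → Bool) → ℝ) (h0 : ∀ u, 0 ≤ D₀ u) (h0s : ∑ u, D₀ u = 1)
    (h0z : ∀ u, D₀ u ≠ 0 → g u = false) (h1 : ∀ u, 0 ≤ D₁ u) (h1s : ∑ u, D₁ u = 1)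
    (h1z : ∀ u, D₁ u ≠ 0 → g u = true) (s₀ : ℕ) (δ : ℝ)
    (hD : ∀ H : (β → Bool) → Bool, RFun s₀ H →
          ∑ u with H u = true, D₁ u ≤ ∑ u with H u = true, D₀ u + δ) :
    ∃ (ρ : ι → Bool) (μ : (ι → Bool) → ℝ), (∀ x, 0 ≤ μ x) ∧ ∑ x, μ x = 1 ∧
      (∀ x, μ x ≠ 0 → ∀ v, v ∉ U → x v = ρ v) ∧
      (∀ (T b : ℕ) (C : RCircuit ι) (out : Fin T → Wire ι) (ψ : Fin T → ℝ →o Bool)
        (h : (Fin T → Bool) → Bool),
          C.size + T ≤ s₀ → ChangesOn U (fun x => C.notVals x) b →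
          ∑ x with h (fun i => ψ i (C.val x (out i))) = f x, μ x
            ≤ 1 / 2 + δ / 2 + (T + 1) * b / (2 * r)) ∧
      ∀ (S : ℕ) (ts : List ℕ) (T b : ℕ) (A : (ι → Bool) → Bool),
        (ts.sum + T) * (S + 1) ≤ s₀ → Tries (realClass S) U ts T b A →
        ∑ x with A x = f x, μ x ≤ 1 / 2 + δ / 2 + (T + 1) * b / (2 * r) := by
  have h : dβ = fun a b => Classical.propDecidable (a = b) := Subsingleton.elim _ _
  subst h
  obtain ⟨μ, m1, m2, m3, m4⟩ := push_core (U := U) hr g hg (fun x => f x = true) φ hφ hf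
    D₀ D₁ h0 h0s h0z h1 h1s h1z
  refine ⟨fun v => Sum.elim (fun _ => false) id (φ v), μ, m1, m2, fun x hx v hv => ?_,
    fun T b C out ψ h hC hb => ?_, fun S ts T b A hS hA => ?_⟩
  · obtain ⟨c, hc⟩ := hφ v hv
    show x v = Sum.elim (fun _ => false) id (φ v)
    rw [m3 x hx v c hc, hc]
    rfl
  · refine le_trans (le_of_eq ?_)
      (rcircuitsT_of_core (fun x => f x = true) φ D₀ D₁ μ m4 T b s₀ δ hD C out ψ h hC hb)
    exact sum_filter_iff' μ _ _ _ _ fun x => Bool.eq_iff_iff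
  · refine le_trans (le_of_eq ?_)
      (queries_of_core (fun x => f x = true) φ hφ D₀ D₁ μ m4 (realClass S) ts T b A δ
        (fun H hH => hD H ((rfun_orSet hH).mono hS)) hA)
    exact sum_filter_iff' μ _ _ _ _ fun x => Bool.eq_iff_iff

open Classical in
/-- One length and one set `U`. -/
theorem one_lengthR (a B d n q M k L r' s₀ : ℕ) [Fact q.Prime] (hq : q = pq a B n)
    (hw : 1 ≤ rt B n ^ a) (h2w : 2 * rt B n ^ a ≤ rt B n ^ (a + 1))
    (hNq : rt B n ^ (a + 1) ≤ q) (hM : 256 * (M + 1) ≤ q) (hL : 2 * rt B n ^ a < 2 ^ L)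
    (hk : (rt B n ^ (a + 1) * q + 1) ^ (2 * rt B n ^ a) * 4 ^ (rt B n ^ a) ≤ 4 ^ k)
    (hLk : 2 * (L * k) ≤ M + 1) (hS : q ^ (2 * rt B n ^ a + 1) ≤ 2 ^ (n / d))
    (hl2 : 2 ^ (lgc n - 1) ≤ n + 1) (hnl : n ≤ 2 ^ lgc n) (hl : 2 ≤ lgc n)
    (U : Finset (Fin n)) (hr1 : 1 ≤ r')
    (hr : r' * (4 * (rt B n ^ (a + 1) * q) * lgc n) ≤ U.card) :
    ∃ (ρ : Fin n → Bool) (μ : (Fin n → Bool) → ℝ), (∀ x, 0 ≤ μ x) ∧ ∑ x, μ x = 1 ∧
      (∀ x, μ x ≠ 0 → ∀ v, v ∉ U → x v = ρ v) ∧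
      (∀ (T b : ℕ) (C : RCircuit (Fin n)) (out : Fin T → Wire (Fin n)) (ψ : Fin T → ℝ →o Bool)
        (g : (Fin T → Bool) → Bool), C.size + T ≤ s₀ → ChangesOn U (fun x => C.notVals x) b →
        ∑ x with g (fun i => ψ i (C.val x (out i))) = langL a B d (List.ofFn x), μ x
          ≤ 1 / 2 + ((s₀ : ℝ) * (2 * (1 / 4) ^ (rt B n ^ a))
            + (q : ℝ) ^ (2 * rt B n ^ a) * (1 / 2) ^ (rt B n ^ (a + 1))) / 2
            + (T + 1) * b / (2 * r')) ∧
      ∀ (S : ℕ) (ts : List ℕ) (T b : ℕ) (A : (Fin n → Bool) → Bool),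
        (ts.sum + T) * (S + 1) ≤ s₀ → Tries (realClass S) U ts T b A →
        ∑ x with A x = langL a B d (List.ofFn x), μ x
          ≤ 1 / 2 + ((s₀ : ℝ) * (2 * (1 / 4) ^ (rt B n ^ a))
            + (q : ℝ) ^ (2 * rt B n ^ a) * (1 / 2) ^ (rt B n ^ (a + 1))) / 2
            + (T + 1) * b / (2 * r') := by
  have hN : 1 ≤ rt B n ^ (a + 1) := by omega
  obtain ⟨φ, hφ, hφf⟩ := exists_restriction a B d n q hq hS hl2 hl hnl hN U r' hr
  obtain ⟨D₀, D₁, h0, h0s, h0z, h1, h1s, h1z, hD⟩ :=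
    poly_blockR (rt B n ^ (a + 1)) (rt B n ^ a) M L k q s₀ hw h2w hNq hM hL hk hLk
  exact glueR hr1 (polyFn q (rt B n ^ a) (rt B n ^ (a + 1)))
    (polyFn_mono q _ _) (fun x => langL a B d (List.ofFn x)) φ hφ hφf D₀ D₁ h0 h0s h0z h1 h1s h1z
    s₀ _ hD

lemma exists_prob' (n : ℕ) : ∃ (ρ : Fin n → Bool) (μ : (Fin n → Bool) → ℝ), (∀ x, 0 ≤ μ x) ∧
    ∑ x, μ x = 1 ∧ ∀ x, μ x ≠ 0 → x = ρ := by
  refine ⟨fun _ => true, fun x => if x = fun _ => true then 1 else 0, fun x => ?_, ?_,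
    fun x hx => ?_⟩
  · show (0 : ℝ) ≤ if x = fun _ => true then 1 else 0
    by_cases h : x = fun _ => true
    · rw [if_pos h]; norm_num
    · rw [if_neg h]
  · rw [sum_ite_eq']
    rw [if_pos (mem_univ _)]
  · by_contra h
    exact hx (if_neg h)

open Classical in
/-- **Few changes on a set of variables, real gates, average case.** -/
theorem mainR (δ ε : ℝ) (hδ : 0 < δ) (hε : 0 < ε) :
    ∃ L : List Bool → Bool, (∃ c : ℕ, DecidableInTime L (fun n => c * 2 ^ n)) ∧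
      (∀ n : ℕ, Monotone fun x : Fin n → Bool => L (List.ofFn x)) ∧
      ∃ n₀ : ℕ, ∀ n ≥ n₀, ∀ U : Finset (Fin n), U.Nonempty →
        ∃ (ρ : Fin n → Bool) (μ : (Fin n → Bool) → ℝ), (∀ x, 0 ≤ μ x) ∧ ∑ x, μ x = 1 ∧
          (∀ x, μ x ≠ 0 → ∀ v, v ∉ U → x v = ρ v) ∧
          (∀ (T b : ℕ) (C : RCircuit (Fin n)) (out : Fin T → Wire (Fin n))
            (ψ : Fin T → ℝ →o Bool) (g : (Fin T → Bool) → Bool),
            (C.size : ℝ) ≤ 2 ^ ((n : ℝ) ^ δ) → ChangesOn U (fun x => C.notVals x) b →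
            ∑ x with g (fun i => ψ i (C.val x (out i))) = L (List.ofFn x), μ x
              ≤ 1 / 2 + (T + 1) * b * (n : ℝ) ^ (2 * δ + ε) / U.card) ∧
          ∀ (S : ℕ) (ts : List ℕ) (T b : ℕ) (A : (Fin n → Bool) → Bool),
            ((ts.sum + T : ℕ) : ℝ) * (S + 1) ≤ 2 ^ ((n : ℝ) ^ δ) →
            Tries (realClass S) U ts T b A →
            ∑ x with A x = L (List.ofFn x), μ x
              ≤ 1 / 2 + (T + 1) * b * (n : ℝ) ^ (2 * δ + ε) / U.card := by
  -- a constant sequence already has fewer than `b` changes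
  have hb1 : ∀ {n b : ℕ} {U : Finset (Fin n)} {W : Type} {w : (Fin n → Bool) → W},
      ChangesOn U w b → 1 ≤ b := by
    intro n b U W w h
    have h1 := h (fun _ _ => false) (fun _ _ _ => le_rfl) (fun _ _ _ => rfl) 0
    omega
  -- if the bound is at least `1` there is nothing to do
  have htriv : ∀ (n : ℕ) (L : List Bool → Bool) (U : Finset (Fin n)), U.Nonempty →
      (U.card : ℝ) ≤ (n : ℝ) ^ (2 * δ + ε) →
      ∃ (ρ : Fin n → Bool) (μ : (Fin n → Bool) → ℝ), (∀ x, 0 ≤ μ x) ∧ ∑ x, μ x = 1 ∧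
          (∀ x, μ x ≠ 0 → ∀ v, v ∉ U → x v = ρ v) ∧
          (∀ (T b : ℕ) (C : RCircuit (Fin n)) (out : Fin T → Wire (Fin n))
            (ψ : Fin T → ℝ →o Bool) (g : (Fin T → Bool) → Bool),
            (C.size : ℝ) ≤ 2 ^ ((n : ℝ) ^ δ) → ChangesOn U (fun x => C.notVals x) b →
            ∑ x with g (fun i => ψ i (C.val x (out i))) = L (List.ofFn x), μ x
              ≤ 1 / 2 + (T + 1) * b * (n : ℝ) ^ (2 * δ + ε) / U.card) ∧
          ∀ (S : ℕ) (ts : List ℕ) (T b : ℕ) (A : (Fin n → Bool) → Bool),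
            ((ts.sum + T : ℕ) : ℝ) * (S + 1) ≤ 2 ^ ((n : ℝ) ^ δ) →
            Tries (realClass S) U ts T b A →
            ∑ x with A x = L (List.ofFn x), μ x
              ≤ 1 / 2 + (T + 1) * b * (n : ℝ) ^ (2 * δ + ε) / U.card := by
    intro n L U hU hUn
    obtain ⟨ρ, μ, hμ0, hμ1, hρ⟩ := exists_prob' n
    have hu : (0 : ℝ) < U.card := by exact_mod_cast hU.card_pos
    have h1 : (1 : ℝ) ≤ (n : ℝ) ^ (2 * δ + ε) / U.card := by rwa [le_div_iff₀ hu, one_mul]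
    have key : ∀ T b : ℕ, 1 ≤ b →
        (1 : ℝ) ≤ 1 / 2 + (T + 1) * b * (n : ℝ) ^ (2 * δ + ε) / U.card := by
      intro T b hb
      have h2 : (1 : ℝ) ≤ ((T : ℝ) + 1) * b := by
        have h3 : (0 : ℝ) ≤ T := Nat.cast_nonneg T
        have h4 : (1 : ℝ) ≤ b := by exact_mod_cast hb
        nlinarith
      have h3 : (1 : ℝ) ≤ ((T : ℝ) + 1) * b * ((n : ℝ) ^ (2 * δ + ε) / U.card) :=
        one_le_mul_of_one_le_of_one_le h2 h1
      rw [mul_div_assoc]
      linarith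
    refine ⟨ρ, μ, hμ0, hμ1, fun x hx v _ => congrFun (hρ x hx) v,
      fun T b C out ψ g _ hC => ?_, fun S ts T b A _ hA => ?_⟩
    · exact (LocE.sum_filter_le_one μ hμ0 hμ1 _).trans (key T b (hb1 hC))
    · obtain ⟨Q, P, h, -, -, -, hch, -⟩ := hA
      exact (LocE.sum_filter_le_one μ hμ0 hμ1 _).trans (key T b (hb1 hch))
  rcases le_or_gt 1 (2 * δ + ε) with hcase | hcase
  · obtain ⟨d, hd1, c, hc⟩ := langL_time 1 1
    refine ⟨_, ⟨c, hc⟩, langL_mono 1 1 d, 1, fun n hn U hU => htriv n _ U hU ?_⟩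
    have h1 : (U.card : ℝ) ≤ n := by
      exact_mod_cast (Finset.card_le_univ U).trans (by simp)
    refine h1.trans ?_
    calc (n : ℝ) = (n : ℝ) ^ (1 : ℝ) := (Real.rpow_one _).symm
      _ ≤ (n : ℝ) ^ (2 * δ + ε) :=
          Real.rpow_le_rpow_of_exponent_le (by exact_mod_cast hn) hcase
  · obtain ⟨a, B, hnum⟩ := locE_numbers δ ε hδ hε hcase
    obtain ⟨d, hd1, c, hc⟩ := langL_time a B
    obtain ⟨n₀, hn₀⟩ := hnum d hd1
    refine ⟨_, ⟨c, hc⟩, langL_mono a B d, n₀, fun n hn U hU => ?_⟩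
    obtain ⟨M, k, L, hqp, hw, h2w, hNq, hM, hL, hk, hLk, hS, hl2, hnl, hl, hadv, herr⟩ := hn₀ n hn
    have : Fact (pq a B n).Prime := ⟨hqp⟩
    have hu : (0 : ℝ) < U.card := by exact_mod_cast hU.card_pos
    set N := rt B n ^ (a + 1) with hN
    set q := pq a B n with hq
    set D := 4 * (N * q) * lgc n with hD
    have hadv' : (2 : ℝ) * D ≤ (n : ℝ) ^ (2 * δ + ε) := by
      refine le_trans (le_of_eq ?_) hadv
      rw [hD, hN]
      push_cast
      ring
    have hN1 : 1 ≤ N := by omega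
    have hDpos : 0 < D := by
      rw [hD]
      have := hqp.pos
      positivity
    rcases lt_or_ge U.card D with hUD | hUD
    · refine htriv n _ U hU ?_
      have h1 : (U.card : ℝ) ≤ D := by exact_mod_cast hUD.le
      have h2 : (0 : ℝ) ≤ D := Nat.cast_nonneg D
      linarith
    · set r' := U.card / D with hr'
      have hr1 : 1 ≤ r' := (Nat.one_le_div_iff hDpos).mpr hUD
      have hrU : r' * D ≤ U.card := Nat.div_mul_le_self _ _
      have hrn : r' ≤ n := by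
        have h1 : U.card ≤ n := (Finset.card_le_univ U).trans (by simp)
        exact (Nat.div_le_self _ _).trans h1
      have hUr : U.card ≤ r' * (2 * D) := by
        have h1 : U.card < D * (U.card / D + 1) := Nat.lt_mul_div_succ _ hDpos
        have h2 : D * (U.card / D + 1) ≤ D * (2 * r') := Nat.mul_le_mul_left _ (by omega)
        calc U.card ≤ D * (2 * r') := (h1.trans_le h2).le
          _ = r' * (2 * D) := by ring
      have hr0 : (0 : ℝ) < r' := by exact_mod_cast hr1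
      have hinv : (1 : ℝ) / r' ≤ (n : ℝ) ^ (2 * δ + ε) / U.card := by
        rw [div_le_div_iff₀ hr0 hu]
        have h1 : (U.card : ℝ) ≤ r' * (2 * D) := by exact_mod_cast hUr
        have h2 : (r' : ℝ) * (2 * D) ≤ r' * (n : ℝ) ^ (2 * δ + ε) :=
          mul_le_mul_of_nonneg_left hadv' hr0.le
        linarith
      set s₁ := ⌊(2 : ℝ) ^ ((n : ℝ) ^ δ)⌋₊ with hs₁
      obtain ⟨ρ, μ, hμ0, hμ1, hρ, hμ, hμQ⟩ := one_lengthR a B d n q M k L r' (s₁ + n) hq hw h2w
        hNq hM hL hk hLk hS hl2 hnl.le hl U hr1 hrU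
      have hs₁' : (s₁ : ℝ) ≤ 2 ^ ((n : ℝ) ^ δ) := Nat.floor_le (by positivity)
      have he := herr s₁ n n hs₁' le_rfl le_rfl
      set e : ℝ := ((s₁ + n : ℕ) : ℝ) * (2 * (1 / 4) ^ (rt B n ^ a))
          + (q : ℝ) ^ (2 * rt B n ^ a) * (1 / 2) ^ N with hedef
      have he0 : 0 ≤ e := by positivity
      have he' : e ≤ 1 / r' := by
        rw [le_div_iff₀ hr0]
        have h1 : (r' : ℝ) ≤ n := by exact_mod_cast hrn
        nlinarith
      have key : ∀ T b : ℕ, 1 ≤ b → 1 / 2 + e / 2 + (T + 1) * b / (2 * r')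
          ≤ 1 / 2 + (T + 1) * b * (n : ℝ) ^ (2 * δ + ε) / U.card := by
        intro T b hb
        have hT0 : (0 : ℝ) ≤ T := Nat.cast_nonneg T
        have hb0 : (1 : ℝ) ≤ b := by exact_mod_cast hb
        have hP : (1 : ℝ) ≤ ((T : ℝ) + 1) * b := by nlinarith
        have hfin : ((T : ℝ) + 1) * b * (1 / r') ≤
            (T + 1) * b * (n : ℝ) ^ (2 * δ + ε) / U.card := by
          rw [mul_div_assoc]
          exact mul_le_mul_of_nonneg_left hinv (by positivity)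
        have h1 : ((T : ℝ) + 1) * b / (2 * r') = ((T : ℝ) + 1) * b * (1 / r') / 2 := by
          field_simp
        have h2 : (1 : ℝ) / r' ≤ ((T : ℝ) + 1) * b * (1 / r') :=
          le_mul_of_one_le_left (by positivity) hP
        rw [h1]
        linarith
      refine ⟨ρ, μ, hμ0, hμ1, hρ, fun T b C out ψ g hsz hC => ?_, fun S ts T b A hsz hA => ?_⟩
      · rcases le_or_gt T n with hTn | hTn
        · have hsz' : C.size ≤ s₁ := Nat.le_floor hsz
          exact (hμ T b C out ψ g (by omega) hC).trans (key T b (hb1 hC))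
        · refine (LocE.sum_filter_le_one μ hμ0 hμ1 _).trans ?_
          have hT0 : (0 : ℝ) ≤ T := Nat.cast_nonneg T
          have hb0 : (1 : ℝ) ≤ b := by exact_mod_cast hb1 hC
          have h1 : (1 : ℝ) ≤ ((T : ℝ) + 1) * b * (1 / r') := by
            rw [mul_one_div, le_div_iff₀ hr0, one_mul]
            have h2 : (r' : ℝ) ≤ T := by exact_mod_cast hrn.trans hTn.le
            nlinarith
          have hfin : ((T : ℝ) + 1) * b * (1 / r') ≤
              (T + 1) * b * (n : ℝ) ^ (2 * δ + ε) / U.card := by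
            rw [mul_div_assoc]
            exact mul_le_mul_of_nonneg_left hinv (by positivity)
          linarith
      · have hsz' : (ts.sum + T) * (S + 1) ≤ s₁ := Nat.le_floor (by exact_mod_cast hsz)
        have hb : 1 ≤ b := by
          obtain ⟨Q, P, h, -, -, -, hch, -⟩ := hA
          exact hb1 hch
        exact (hμQ S ts T b A (by omega) hA).trans (key T b hb)

end Pool.Agent.RC
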