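import Pool.Agent.RC.Mono
import Pool.Agent.NegLim.Clique

/-!
# The clique function needs large monotone real computations
-/

set_option autoImplicit false
set_option linter.unusedSectionVars false

namespace Pool.Agent.RC

open Pool.Agent.NegLim Finset
open scoped BigOperators

section

variable {V : Type} [Fintype V] [DecidableEq V] {Y : Type} [Fintype Y] [Nonempty Y]
  (cw : Y → Finset V)

/-- **Abstract main theorem**, monotone real computations. -/
theorem rmain_abstract (q w M k r N : ℕ) (hw : 1 ≤ w) (hM : 8 * w * (M + 1) ≤ q)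
    (hsp : Spread cw w (q : ℝ)) (hN : ∀ y, N ≤ (cw y).card)
    (hk : (Fintype.card V + 1) ^ (2 * w) * 2 ^ w ≤ 2 ^ k)
    (hr : 2 * (k * r) ≤ M + 1) (hY : 4 * Fintype.card Y ≤ 2 ^ N)
    {s : ℕ} {h : (V → Bool) → Bool} (hh : RFun s h)
    (hC : ∀ x : V → Bool, h x = true ↔ ∃ y : Y, ∀ v ∈ cw y, x v = true)
    (hr4 : 4 ≤ r) : 2 ^ w ≤ 8 * 2 * s := by
  classical
  have hqpos : 0 < q := lt_of_lt_of_le (by positivity) hM
  have hq0 : (0 : ℝ) < q := by exact_mod_cast hqpos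
  have hk1 : 1 ≤ k := by
    by_contra h0
    have h1 : k = 0 := by omega
    rw [h1, pow_zero] at hk
    have h2 : 2 ≤ 2 ^ w := by
      calc 2 = 2 ^ 1 := by norm_num
        _ ≤ 2 ^ w := Nat.pow_le_pow_right (by norm_num) hw
    have h3 : 1 ≤ (Fintype.card V + 1) ^ (2 * w) := Nat.one_le_pow _ _ (by omega)
    nlinarith
  have hkw : ((Fintype.card V : ℝ) + 1) ^ (2 * w) * (1 / 2 : ℝ) ^ k ≤ (1 / 2 : ℝ) ^ w := by
    have h1 : ((Fintype.card V : ℝ) + 1) ^ (2 * w) * 2 ^ w ≤ 2 ^ k := by exact_mod_cast hk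
    have h2 : (1 / 2 : ℝ) ^ k = 1 / 2 ^ k := by rw [one_div, inv_pow, one_div]
    have h3 : (1 / 2 : ℝ) ^ w = 1 / 2 ^ w := by rw [one_div, inv_pow, one_div]
    rw [h2, h3, mul_one_div, div_le_div_iff₀ (by positivity) (by positivity)]
    linarith
  have hM' : 8 * (w : ℝ) * ((M : ℝ) + 1) ≤ q := by exact_mod_cast hM
  have hch : ∀ x : Finset V, x ∈ tset h ↔ ∃ y, cw y ⊆ x := by
    intro x
    show h (chi x) = true ↔ _
    rw [hC (chi x)]
    refine exists_congr fun a => ?_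
    simp [chi, Finset.subset_iff]
  have hset : tset h = upFam cw := by
    ext x
    exact hch x
  have hγ : ∀ i < r, (nz M ^ (k * i)) (ind (upFam cw)) ∅ ≤ 1 / 4 := by
    intro i hi
    have h1 : k * i ≤ k * r := Nat.mul_le_mul_left k hi.le
    refine (upFam_prob cw M (k * i) N (by omega) hN).trans ?_
    have h2 : (4 : ℝ) * (Fintype.card Y : ℝ) ≤ 2 ^ N := by exact_mod_cast hY
    have h3 : (1 / 2 : ℝ) ^ N = 1 / 2 ^ N := by rw [one_div, inv_pow, one_div]
    rw [h3, mul_one_div, div_le_div_iff₀ (by positivity) (by norm_num)]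
    linarith
  -- one step
  have h1 : (fun x => 1 - ind (tset h) x) ≤ incr cw (tset h) := by
    intro x
    by_cases hx : x ∈ tset h
    · simp only [ind_of_mem hx, sub_self]
      exact incr_nonneg cw (tset_upper hh.monotone) x
    · simp only [ind_of_notMem hx, sub_zero]
      unfold incr
      rw [ind_of_notMem hx, sub_zero]
      refine Finset.le_expect univ_nonempty fun y _ => ?_
      rw [ind_of_mem]
      exact (hch _).mpr ⟨y, subset_union_right⟩
  have h2 : ∀ i ∈ range r, (1 : ℝ) - 1 / 4 ≤ (nz M ^ (k * i)) (incr cw (tset h)) ∅ := by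
    intro i hi
    have h3 := nz_pow_mono M (k * i) h1 ∅
    refine le_trans ?_ h3
    have h4 : (nz M ^ (k * i)) (fun x => 1 - ind (tset h) x) ∅
        = 1 - (nz M ^ (k * i)) (ind (tset h)) ∅ := by
      have e : (fun x => 1 - ind (tset h) x) = (fun _ : Finset V => (1 : ℝ)) - ind (tset h) :=
        rfl
      rw [e, map_sub, nz_pow_const]; rfl
    rw [h4]
    have h5 := hγ i (mem_range.mp hi)
    rw [← hset] at h5
    linarith
  have h3 := Finset.sum_le_sum h2
  rw [Finset.sum_const, card_range, nsmul_eq_mul] at h3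
  have h4 := h3.trans (rsum_incr cw M k w q hq0 hk1 hw hM' hsp hkw hh r)
  have hr' : (4 : ℝ) ≤ r := by exact_mod_cast hr4
  set e : ℝ := (1 / 2 : ℝ) ^ w with he
  have he0 : 0 < e := by positivity
  have h5 : (1 : ℝ) / 4 ≤ (s : ℝ) * (2 * e) := by
    have h6 : (r : ℝ) * (1 / 4) ≤ r * ((s : ℝ) * (2 * e)) := by nlinarith
    exact le_of_mul_le_mul_left h6 (by linarith)
  have h6 : (2 : ℝ) ^ w ≤ 8 * 2 * s := by
    have h5' : e * 2 ^ w = 1 := by rw [he, ← mul_pow]; norm_num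
    have h7 : (2 : ℝ) ^ w * (1 / 4) ≤ 2 ^ w * ((s : ℝ) * (2 * e)) :=
      mul_le_mul_of_nonneg_left h5 (by positivity)
    have h8 : (2 : ℝ) ^ w * ((s : ℝ) * (2 * e)) = 2 * s := by
      calc (2 : ℝ) ^ w * ((s : ℝ) * (2 * e)) = 2 * s * (e * 2 ^ w) := by ring
        _ = _ := by rw [h5', mul_one]
    rw [h8] at h7
    have h9 : (0 : ℝ) ≤ s := by positivity
    linarith
  exact_mod_cast h6

end

/-- Lower bound with parameters. -/
theorem rclique_param (m w M k r N h : ℕ) (hh : 1 ≤ h) (hw : 1 ≤ w) (hN : 2 * w ≤ N)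
    (hNq : N ≤ 4 ^ h) (hM : 8 * w * (M + 1) ≤ 4 ^ h)
    (hk : (N * 4 ^ h + 1) ^ (2 * w) * 2 ^ w ≤ 2 ^ k) (hr : 2 * (k * r) ≤ M + 1)
    (hY : 4 * 2 ^ (4 * w * h) ≤ 2 ^ N)
    (hm : N * (2 * 2 ^ h) + N * (2 * h * (4 * w * h)) * 4 ≤ m / 4) (hm2 : 2 ≤ m / 2)
    {s : ℕ} {g : (Edge m → Bool) → Bool} (hg : RFun s g)
    (hC : ∀ x : Edge m → Bool, g x = true ↔ HasClique (m / 2) x)
    (hT : 4 ≤ r) : 2 ^ w ≤ 8 * 2 * s := by
  classical
  obtain ⟨lam, hlam⟩ := exists_code h w N hh hN hNq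
  have hcV : Fintype.card (CV N h (4 * w * h))
      = N * (2 * 2 ^ h) + N * (2 * h * (4 * w * h)) * 4 := by
    simp [CV, Fintype.card_sum, Fintype.card_prod]
  have hcG : Fintype.card (CG N h (4 * w * h)) = N * 2 + N * (2 * h * (4 * w * h)) := by
    simp [CG, Fintype.card_sum, Fintype.card_prod]
  have hle : Fintype.card (CG N h (4 * w * h)) ≤ m / 4 := by
    rw [hcG]
    have h1 : N * 2 ≤ N * (2 * 2 ^ h) := by
      apply Nat.mul_le_mul_left
      have : 1 ≤ 2 ^ h := Nat.one_le_two_pow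
      omega
    have h2 : N * (2 * h * (4 * w * h)) ≤ N * (2 * h * (4 * w * h)) * 4 := by omega
    omega
  have hμ : 1 ≤ 4 * w * h := Nat.mul_pos (by omega) hh
  set U := m / 2 - Fintype.card (CG N h (4 * w * h)) with hU
  set σ : Edge m → Lit (Fin N × (Bool × Fin h → Bool)) :=
    padSub (cadj (μ := 4 * w * h) lam) U m with hσ
  have hcardV : Fintype.card (Fin N × (Bool × Fin h → Bool)) = N * 4 ^ h := by
    rw [Fintype.card_prod, Fintype.card_fin, Fintype.card_fun, Fintype.card_bool,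
      Fintype.card_prod, Fintype.card_bool, Fintype.card_fin, pow_mul]
    norm_num
  exact rmain_abstract (fun u : Fin (4 * w * h) → Bool => codeSet lam u) (4 ^ h) w M k r N
    hw hM hlam (fun u => (card_codeSet lam u).ge) (by rw [hcardV]; exact hk) hr
    (by rw [Fintype.card_fun, Fintype.card_bool, Fintype.card_fin]; exact hY)
    (hg.subst σ)
    (by
      intro x
      rw [hC, hσ, clique_pad (cadj (μ := 4 * w * h) lam) cgp m (by
        rw [hcV]; omega) (by omega) hm2 (cadj_symm lam)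
        (fun v v' _ hg => cadj_group lam v v' hg) x]
      exact clique_code lam (by omega) hh hμ x)
    hT

/-- **Monotone real computations of cliques are large.** -/
theorem rclique_bound (m w : ℕ) (hw : 1 ≤ w) (hlog : Nat.log 2 m ≤ w)
    (hm37 : 2 ^ 37 * w ^ 4 * (Nat.log 2 m + 1) ^ 6 ≤ m ^ 2)
    {s : ℕ} {g : (Edge m → Bool) → Bool} (hg : RFun s g)
    (hC : ∀ x : Edge m → Bool, g x = true ↔ HasClique (m / 2) x) : 2 ^ w ≤ s := by
  obtain ⟨A, hA⟩ : ∃ A : ℕ, A = 2 := ⟨_, rfl⟩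
  have hA1 : 1 ≤ A := by omega
  have hbound : 2 ^ 36 * A * w ^ 4 * (Nat.log 2 m + 1) ^ 6 ≤ m ^ 2 := by
    rw [hA]
    calc 2 ^ 36 * 2 * w ^ 4 * (Nat.log 2 m + 1) ^ 6
        = 2 ^ 37 * w ^ 4 * (Nat.log 2 m + 1) ^ 6 := by norm_num
      _ ≤ m ^ 2 := hm37
  set l := Nat.log 2 m + 1 with hl
  have hl1 : 1 ≤ l := by omega
  have hml : m < 2 ^ l := Nat.lt_pow_succ_log_self (by norm_num) m
  set w' := w + 2 * l + 3 with hw'
  have hw8 : w' ≤ 8 * w := by omega
  have hw'1 : 1 ≤ w' := by omega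
  -- m is large
  have hm18 : 2 ^ 18 * (w ^ 2 * l ^ 3) ≤ m := by
    by_contra hcon
    rw [not_le] at hcon
    have h1 : m ^ 2 < (2 ^ 18 * (w ^ 2 * l ^ 3)) ^ 2 := Nat.pow_lt_pow_left hcon (by norm_num)
    have h2 : (2 ^ 18 * (w ^ 2 * l ^ 3)) ^ 2 = 2 ^ 36 * 1 * w ^ 4 * l ^ 6 := by ring
    have h3 : 2 ^ 36 * 1 * w ^ 4 * l ^ 6 ≤ 2 ^ 36 * A * w ^ 4 * l ^ 6 := by
      apply Nat.mul_le_mul_right
      apply Nat.mul_le_mul_right
      exact Nat.mul_le_mul_left _ hA1
    omega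
  set D := 64 * w' * l with hD
  have hDpos : 0 < D := by positivity
  have hwl : w * l ≤ w ^ 2 * l ^ 3 := by
    calc w * l = (w * l) * 1 := by ring
      _ ≤ (w * l) * (w * l ^ 2) := Nat.mul_le_mul_left _ (Nat.mul_pos hw (by positivity))
      _ = w ^ 2 * l ^ 3 := by ring
  have hD512 : D ≤ 512 * (w * l) := by
    calc D = 64 * l * w' := by rw [hD]; ring
      _ ≤ 64 * l * (8 * w) := Nat.mul_le_mul_left _ hw8
      _ = 512 * (w * l) := by ring
  set X := m / D with hX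
  have hX2 : 2 ≤ X := by
    rw [hX, Nat.le_div_iff_mul_le hDpos]
    calc 2 * D ≤ 2 * (512 * (w * l)) := Nat.mul_le_mul_left 2 hD512
      _ = 1024 * (w * l) := by ring
      _ ≤ 2 ^ 18 * (w ^ 2 * l ^ 3) := Nat.mul_le_mul (by norm_num) hwl
      _ ≤ m := hm18
  have hDX : D * X ≤ m := Nat.mul_div_le m D
  have hmX : m ≤ 2 * (D * X) := by
    have h1 : m < D * (X + 1) := Nat.lt_mul_div_succ m hDpos
    have h2 : D * (X + 1) = D * X + D := by ring
    have h3 : D ≤ D * X := Nat.le_mul_of_pos_right D (by omega)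
    omega
  set h := Nat.log 2 X with hh
  have hh1 : 1 ≤ h := Nat.log_pos (by norm_num) hX2
  have h2h : 2 ^ h ≤ X := Nat.pow_log_le_self 2 (by omega)
  have hX2h : X < 2 ^ (h + 1) := Nat.lt_pow_succ_log_self (by norm_num) X
  have hXm : X ≤ m := Nat.div_le_self m D
  have hhl : h < l := by
    have : 2 ^ h < 2 ^ l := lt_of_le_of_lt (h2h.trans hXm) hml
    exact (Nat.pow_lt_pow_iff_right (by norm_num)).mp this
  have h4h : (4 : ℕ) ^ h = 2 ^ h * 2 ^ h := by rw [← mul_pow]; norm_num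
  -- 4^h is large
  have hlarge : 2 ^ 14 * (A * (w ^ 2 * l ^ 4)) ≤ 4 ^ h := by
    have e1 : m ^ 2 ≤ 2 ^ 22 * (w ^ 2 * l ^ 2) * 4 ^ h := by
      calc m ^ 2 ≤ (2 * (D * X)) ^ 2 := Nat.pow_le_pow_left hmX 2
        _ = 4 * (D ^ 2 * X ^ 2) := by ring
        _ ≤ 4 * ((512 * (w * l)) ^ 2 * (2 ^ (h + 1)) ^ 2) := by
            apply Nat.mul_le_mul_left
            exact Nat.mul_le_mul (Nat.pow_le_pow_left hD512 2) (Nat.pow_le_pow_left hX2h.le 2)
        _ = 2 ^ 22 * (w ^ 2 * l ^ 2) * 4 ^ h := by rw [h4h]; ring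
    have e2 : 2 ^ 22 * (w ^ 2 * l ^ 2) * (2 ^ 14 * (A * (w ^ 2 * l ^ 4)))
        ≤ 2 ^ 22 * (w ^ 2 * l ^ 2) * 4 ^ h := by
      refine le_trans (le_of_eq ?_) (hbound.trans e1)
      ring
    exact Nat.le_of_mul_le_mul_left e2 (by positivity)
  set k := w' * (4 * l + 1) with hk
  set Q := 4 ^ h / (8 * w') with hQ
  set N := 4 * w' * h + 2 with hN
  have hkw : k ≤ 40 * (w * l) := by
    calc k ≤ (8 * w) * (4 * l + l) := Nat.mul_le_mul hw8 (by omega)
      _ = 40 * (w * l) := by ring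
  have hQbig : 4 * k * A ≤ Q := by
    rw [hQ, Nat.le_div_iff_mul_le (by positivity)]
    calc 4 * k * A * (8 * w') ≤ 4 * (40 * (w * l)) * A * (8 * (8 * w)) := by
          apply Nat.mul_le_mul
          · apply Nat.mul_le_mul_right
            exact Nat.mul_le_mul_left 4 hkw
          · exact Nat.mul_le_mul_left 8 hw8
      _ = 10240 * (A * (w ^ 2 * l)) := by ring
      _ ≤ 2 ^ 14 * (A * (w ^ 2 * l ^ 4)) := by
          apply Nat.mul_le_mul (by norm_num)
          apply Nat.mul_le_mul_left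
          apply Nat.mul_le_mul_left
          calc l = l ^ 1 := (pow_one l).symm
            _ ≤ l ^ 4 := Nat.pow_le_pow_right hl1 (by norm_num)
      _ ≤ 4 ^ h := hlarge
  have hkpos : 0 < k := by positivity
  have hQ1 : 1 ≤ Q := le_trans (Nat.mul_pos (by positivity) hA1) hQbig
  set r := Q / (2 * k) with hr
  have hrA : 2 * A ≤ r := by
    rw [hr, Nat.le_div_iff_mul_le (by positivity)]
    calc 2 * A * (2 * k) = 4 * k * A := by ring
      _ ≤ Q := hQbig
  have hNle : N ≤ 4 * (w' * l) := by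
    have : w' * (h + 1) ≤ w' * l := Nat.mul_le_mul_left _ hhl
    have e : 4 * (w' * (h + 1)) = 4 * w' * h + 4 * w' := by ring
    omega
  have hN32 : N ≤ 32 * (w * l) := by
    have : w' * l ≤ 8 * w * l := Nat.mul_le_mul_right l hw8
    have e : 8 * w * l = 8 * (w * l) := by ring
    omega
  have hw2l4 : w * l ≤ A * (w ^ 2 * l ^ 4) := by
    calc w * l ≤ w ^ 2 * l ^ 3 := hwl
      _ ≤ w ^ 2 * l ^ 4 := Nat.mul_le_mul_left _ (Nat.pow_le_pow_right hl1 (by norm_num))
      _ = 1 * (w ^ 2 * l ^ 4) := by ring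
      _ ≤ A * (w ^ 2 * l ^ 4) := Nat.mul_le_mul_right _ hA1
  -- sizes
  have hN2h : N * 2 ^ h * 16 ≤ m := by
    calc N * 2 ^ h * 16 ≤ 4 * (w' * l) * X * 16 := by
          apply Nat.mul_le_mul_right
          exact Nat.mul_le_mul hNle h2h
      _ = D * X := by rw [hD]; ring
      _ ≤ m := hDX
  have haux : N * (2 * h * (4 * w' * h)) * 4 * 32 ≤ m := by
    have e1 : N * (2 * h * (4 * w' * h)) ≤ 32 * (w * l) * (2 * l * (4 * (8 * w) * l)) := by
      apply Nat.mul_le_mul hN32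
      apply Nat.mul_le_mul (by omega)
      apply Nat.mul_le_mul _ hhl.le
      exact Nat.mul_le_mul_left 4 hw8
    calc N * (2 * h * (4 * w' * h)) * 4 * 32
        ≤ 32 * (w * l) * (2 * l * (4 * (8 * w) * l)) * 4 * 32 := by
          apply Nat.mul_le_mul_right
          apply Nat.mul_le_mul_right
          exact e1
      _ = 2 ^ 18 * (w ^ 2 * l ^ 3) := by ring
      _ ≤ m := hm18
  have hm4 : 4 ≤ m := by
    have : 1 ≤ w ^ 2 * l ^ 3 := Nat.mul_pos (by positivity) (by positivity)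
    omega
  have hfin := rclique_param m w' (Q - 1) k r N h hh1 hw'1
    (by
      have : w' * 1 ≤ w' * h := Nat.mul_le_mul_left _ hh1
      have e : 4 * w' * h = 4 * (w' * h) := by ring
      omega)
    (by omega)
    (by
      have : Q - 1 + 1 = Q := by omega
      rw [this]
      exact Nat.mul_div_le _ _)
    (by
      have e1 : N * 4 ^ h + 1 ≤ 2 ^ (2 * l) := by
        have e2 : N * 4 ^ h = N * 2 ^ h * 2 ^ h := by rw [h4h]; ring
        have e3 : N * 2 ^ h * 2 ^ h * 16 ≤ m * m := by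
          calc N * 2 ^ h * 2 ^ h * 16 = (N * 2 ^ h * 16) * 2 ^ h := by ring
            _ ≤ m * m := Nat.mul_le_mul hN2h (h2h.trans hXm)
        have e4 : m * m < 2 ^ l * 2 ^ l := Nat.mul_lt_mul'' hml hml
        have e5 : 2 ^ l * 2 ^ l = 2 ^ (2 * l) := by rw [← pow_add, two_mul]
        omega
      calc (N * 4 ^ h + 1) ^ (2 * w') * 2 ^ w' ≤ (2 ^ (2 * l)) ^ (2 * w') * 2 ^ w' :=
            Nat.mul_le_mul_right _ (Nat.pow_le_pow_left e1 _)
        _ = 2 ^ k := by
            rw [← pow_mul, ← pow_add, hk]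
            congr 1; ring)
    (by
      have : Q - 1 + 1 = Q := by omega
      rw [this]
      calc 2 * (k * r) = 2 * k * r := by ring
        _ ≤ Q := Nat.mul_div_le _ _)
    (by
      rw [hN, pow_add]
      apply le_of_eq; ring)
    (by
      rw [Nat.le_div_iff_mul_le (by norm_num)]
      have e : (N * (2 * 2 ^ h) + N * (2 * h * (4 * w' * h)) * 4) * 4
          = N * 2 ^ h * 8 + N * (2 * h * (4 * w' * h)) * 4 * 4 := by ring
      omega)
    (by omega) hg hC (by omega)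
  -- conclusion
  have hAm : A < 2 ^ (2 * l) := by
    have e1 : A ≤ m ^ 2 := by
      calc A = 1 * A * 1 * 1 := by ring
        _ ≤ 2 ^ 36 * A * w ^ 4 * l ^ 6 := by
          apply Nat.mul_le_mul
          · apply Nat.mul_le_mul
            · exact Nat.mul_le_mul_right A (by norm_num)
            · exact Nat.one_le_pow _ _ hw
          · exact Nat.one_le_pow _ _ hl1
        _ ≤ m ^ 2 := hbound
    have e2 : m ^ 2 < (2 ^ l) ^ 2 := Nat.pow_lt_pow_left hml (by norm_num)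
    have e3 : (2 ^ l) ^ 2 = 2 ^ (2 * l) := by rw [← pow_mul, mul_comm]
    omega
  have e1 : 2 ^ w' = 2 ^ w * (8 * 2 ^ (2 * l)) := by
    rw [hw', pow_add, pow_add]; ring
  rw [e1] at hfin
  have e2 : 2 ^ w * (8 * 2 ^ (2 * l)) ≤ s * (8 * 2 ^ (2 * l)) := by
    calc 2 ^ w * (8 * 2 ^ (2 * l)) ≤ 8 * A * s := by rw [hA]; exact hfin
      _ ≤ 8 * 2 ^ (2 * l) * s := by
          apply Nat.mul_le_mul_right
          exact Nat.mul_le_mul_left 8 hAm.le
      _ = s * (8 * 2 ^ (2 * l)) := by ring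
  exact Nat.le_of_mul_le_mul_right e2 (by positivity)

end Pool.Agent.RC
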