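import Pool.Agent.RC.IvalLits
import Pool.Agent.RC.CliqueBound
import Pool.Agent.GB24.HiddenUEnds

/-!
# Clique: missing edges of EVERY set with many endpoints must be seen, real gates

The circuits may use all real functions of two variables, increasing or decreasing in each, as gates;
on partly hidden inputs they are evaluated by interval arithmetic.
-/

set_option autoImplicit false

namespace Pool.Agent.RC

open Finset Pool.Agent.NegLim Pool.Agent.NTR Pool.Agent.NTR.Gen Pool.Agent.NWE Pool.Agent.GB24
  Pool.Agent.NTN Pool.Agent.GB24.Loc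

/-- **One block.** -/
theorem one_rclique {s : ℕ} (hs : 1 ≤ s) (Gs : List ((Edge (nsz s) → Bool) → Bool))
    (hlen : Gs.length ≤ Fintype.card (Edge (nsz s)) * 2 ^ s)
    (hmem : ∀ G ∈ Gs, (realClass (2 ^ (s + 1))).mem _ G)
    (h : ∀ u, HasClique (nsz s / 2) u ↔ ∃ G ∈ Gs, G u = true) : False := by
  obtain ⟨s', D, F, h1, h2, h3, h4, h5⟩ := RC.or_list (S := 2 ^ (s + 1)) Gs fun G hG => by
    obtain ⟨C, out, ψ, h0, hS, hF⟩ := hmem G hG
    exact rfun_of_circuit C out ψ h0 hS hF
  have hg : RFun s' fun z => thr 1 (F z) := ⟨s', le_rfl, D, h2, F, h3, thr 1, fun z => rfl⟩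
  have h6 := rclique_bound (nsz s) (8 * (67 * s)) (by omega) (log_nsz_le' hs) (nsz_big hs) hg
    (fun x => by
      show thr 1 (F x) = true ↔ _
      rw [thr_iff, h x, ← h5 x]
      rcases h4 x with h | h <;> rw [h] <;> norm_num)
  have h7 : nsz s ≤ 2 ^ (67 * s) := by
    have := four_nsz_le hs
    omega
  have h8 : 2 ^ (s + 1) + 1 ≤ 2 ^ (s + 2) := by
    have : 1 ≤ 2 ^ (s + 1) := Nat.one_le_two_pow
    rw [pow_succ 2 (s + 1)]
    omega
  have h9 : s' < 2 ^ (8 * (67 * s)) := by
    calc s' ≤ Gs.length * (2 ^ (s + 1) + 1) := h1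
      _ ≤ (nsz s ^ 2 * 2 ^ s) * 2 ^ (s + 2) :=
          Nat.mul_le_mul (hlen.trans (Nat.mul_le_mul_right _ (card_edge_le _))) h8
      _ ≤ ((2 ^ (67 * s)) ^ 2 * 2 ^ s) * 2 ^ (s + 2) :=
          Nat.mul_le_mul_right _ (Nat.mul_le_mul_right _ (Nat.pow_le_pow_left h7 2))
      _ = 2 ^ (136 * s + 2) := by
          rw [← pow_mul, ← pow_add, ← pow_add]
          congr 1
          ring
      _ < 2 ^ (8 * (67 * s)) := Nat.pow_lt_pow_right (by norm_num) (by omega)
  omega

/-- **Clique, real gates**: every set of edges with at least `2 k` endpoints. -/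
theorem rclique_hidden_ends {s : ℕ} (hs : 1 ≤ s) {N k : ℕ} (U : Finset (Edge N))
    (hU : 2 * k ≤ (ends U).card) :
    HardSet (HasClique (N / 2)) U
      (fun D => ∃ (C : ICircuit (Edge N)) (o : Wire (Edge N)),
        C.size ≤ 2 ^ s ∧ ∀ p, D p = decide (0 < (C.range p o).1))
      (k + 1) ((2 ^ s) ^ (k / (2 ^ 122 * s ^ 4 * (Nat.log 2 s + 1) ^ 6))) := by
  classical
  change HardSet (HasClique (N / 2)) U _ (k + 1) ((2 ^ s) ^ (k / ccz s))
  rcases Nat.eq_zero_or_pos (k / ccz s) with h0 | h0
  · rw [h0, pow_zero]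
    refine hardSet_one U _ (by omega) (fun _ => true) ?_
    obtain ⟨S, -, hS⟩ := Finset.exists_subset_card_eq (s := (univ : Finset (Fin N))) (n := N / 2)
      (by rw [Finset.card_univ, Fintype.card_fin]; omega)
    exact ⟨S, hS, fun _ _ _ _ _ => rfl⟩
  · have hn : 2 ≤ nsz s := by
      have := nsz_pos hs
      omega
    have h4 : 4 * (k / ccz s * nsz s ^ 2) ≤ k := by
      calc 4 * (k / ccz s * nsz s ^ 2) = k / ccz s * (4 * nsz s ^ 2) := by ring
        _ = k / ccz s * ccz s := by rw [ccz_eq]
        _ ≤ k := Nat.div_mul_le_self _ _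
    have : Nonempty (Edge (nsz s)) :=
      ⟨⟨(⟨0, by omega⟩, ⟨1, by omega⟩), by simp⟩⟩
    refine hardSet_general (realClass (2 ^ (s + 1)))
      (fun u : Edge (nsz s) → Bool => HasClique (nsz s / 2) u)
      (fun _ _ huv hu => hasClique_mono huv hu)
      (fun Gs h1 h2 h3 => one_rclique hs Gs h1 h2 h3) (HasClique (N / 2)) U
      (clique_forest_U h0 hn h4 U hU) ?_ _ fun D h => ?_
    · have h5 : k / ccz s * Fintype.card (Edge (nsz s)) ≤ k / ccz s * nsz s ^ 2 :=
        Nat.mul_le_mul_left _ (card_edge_le _)
      omega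
    · rw [pow_succ']
      exact ival_lits D h

section

variable {V : Type}

/-! ### Interval arithmetic -/

theorem wireI_some (x : V → Bool) (l : List ℝ) (a : Wire V) :
    wireI (fun v => some (x v)) (l.map fun c => (c, c)) a = (wireR x l a, wireR x l a) := by
  cases a with
  | var v => rfl
  | const b => rfl
  | gate i =>
    show (l.map fun c => (c, c)).getD i (0, 0) = (l.getD i 0, l.getD i 0)
    rcases Nat.lt_or_ge i l.length with h | h
    · rw [List.getD_eq_getElem _ _ (by simpa using h), List.getD_eq_getElem _ _ h,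
        List.getElem_map]
    · rw [List.getD_eq_default _ _ (by simpa using h), List.getD_eq_default _ _ h]

theorem sgnI_diag (σ : Bool) (c : ℝ) : sgnI σ (c, c) = (sgn σ c, sgn σ c) := by
  cases σ <;> rfl

theorem valsI_some (x : V → Bool) (C : ICircuit V) : ∀ l : List ℝ,
    valsI (fun v => some (x v)) C (l.map fun c => (c, c))
      = (valsR x C l).map fun c => (c, c) := by
  induction C with
  | nil => intro l; rfl
  | cons g C ih =>
    intro l
    simp only [valsI, valsR]
    rw [← ih, List.map_append]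
    congr 2
    simp only [List.map_cons, List.map_nil, IGate.range, IGate.val, wireI_some, sgnI_diag]

/-- If nothing is hidden, interval arithmetic gives the value of the circuit. -/
theorem range_some (C : ICircuit V) (x : V → Bool) (a : Wire V) :
    C.range (fun v => some (x v)) a = (C.val x a, C.val x a) := by
  unfold ICircuit.range ICircuit.val
  have h := valsI_some x C []
  rw [List.map_nil] at h
  rw [h, wireI_some]

theorem sgn_mem {σ : Bool} {I : ℝ × ℝ} {c : ℝ} (h : I.1 ≤ c ∧ c ≤ I.2) :
    (sgnI σ I).1 ≤ sgn σ c ∧ sgn σ c ≤ (sgnI σ I).2 := by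
  cases σ
  · exact ⟨neg_le_neg h.2, neg_le_neg h.1⟩
  · exact h

/-- **Interval arithmetic is sound**: the interval contains the values at all inputs which agree with
the visible bits. -/
theorem range_sound (p : V → Option Bool) (x : V → Bool)
    (hp : ∀ v b, p v = some b → x v = b) (C : ICircuit V) (a : Wire V) :
    (C.range p a).1 ≤ C.val x a ∧ C.val x a ≤ (C.range p a).2 := by
  have hw : ∀ (l : List (ℝ × ℝ)) (l' : List ℝ), l.length = l'.length →
      (∀ i, (l.getD i (0, 0)).1 ≤ l'.getD i 0 ∧ l'.getD i 0 ≤ (l.getD i (0, 0)).2) →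
      ∀ a : Wire V, (wireI p l a).1 ≤ wireR x l' a ∧ wireR x l' a ≤ (wireI p l a).2 := by
    intro l l' _ h a
    cases a with
    | var v =>
      simp only [wireI, wireR]
      rcases h1 : p v with _ | b
      · dsimp only
        split_ifs <;> norm_num
      · dsimp only
        rw [hp v b h1]
        exact ⟨le_rfl, le_rfl⟩
    | const b => exact ⟨le_rfl, le_rfl⟩
    | gate i => exact h i
  have key : ∀ (C : ICircuit V) (l : List (ℝ × ℝ)) (l' : List ℝ), l.length = l'.length →
      (∀ i, (l.getD i (0, 0)).1 ≤ l'.getD i 0 ∧ l'.getD i 0 ≤ (l.getD i (0, 0)).2) →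
      (valsI p C l).length = (valsR x C l').length ∧
      ∀ i, ((valsI p C l).getD i (0, 0)).1 ≤ (valsR x C l').getD i 0 ∧
        (valsR x C l').getD i 0 ≤ ((valsI p C l).getD i (0, 0)).2 := by
    intro C
    induction C with
    | nil => exact fun l l' h1 h2 => ⟨h1, h2⟩
    | cons g C ih =>
      intro l l' h1 h2
      simp only [valsI, valsR]
      refine ih _ _ (by simp [h1]) fun i => ?_
      have h3 := sgn_mem (σ := g.σ) (hw l l' h1 h2 g.a)
      have h4 := sgn_mem (σ := g.τ) (hw l l' h1 h2 g.b)
      rcases lt_trichotomy i l.length with h5 | h5 | h5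
      · rw [List.getD_append _ _ _ _ h5, List.getD_append _ _ _ _ (h1 ▸ h5)]
        exact h2 i
      · rw [List.getD_append_right _ _ _ _ h5.ge, List.getD_append_right _ _ _ _ (h1 ▸ h5.ge), h5,
          ← h1, Nat.sub_self]
        exact ⟨g.φ.monotone ⟨h3.1, h4.1⟩, g.φ.monotone ⟨h3.2, h4.2⟩⟩
      · rw [List.getD_eq_default _ _ (by simp; omega), List.getD_eq_default _ _ (by simp; omega)]
        exact ⟨le_rfl, le_rfl⟩
  obtain ⟨h1, h2⟩ := key C [] [] rfl fun i => by simp
  exact hw _ _ h1 h2 a

/-! ### Circuits with AND, OR, NOT gates and Kleene's logic -/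

/-- Minimum, maximum, `1 + x`. -/
noncomputable def minI : ℝ × ℝ →o ℝ where
  toFun p := min p.1 p.2
  monotone' := fun _ _ h => min_le_min h.1 h.2

noncomputable def maxI : ℝ × ℝ →o ℝ where
  toFun p := max p.1 p.2
  monotone' := fun _ _ h => max_le_max h.1 h.2

noncomputable def oneI : ℝ × ℝ →o ℝ where
  toFun p := 1 + p.1
  monotone' := fun _ _ h => by
    show 1 + _ ≤ 1 + _
    exact add_le_add_right h.1 1

/-- The real gate of a Boolean gate: `min`, `max`, `1 - x`. -/
noncomputable def ivalGate : Gate V → IGate V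
  | .and a b => ⟨minI, true, true, a, b⟩
  | .or a b => ⟨maxI, true, true, a, b⟩
  | .not a => ⟨oneI, false, true, a, .const false⟩

/-- The interval of a value in Kleene's logic. -/
noncomputable def ivK : Option Bool → ℝ × ℝ
  | some b => (if b then 1 else 0, if b then 1 else 0)
  | none => (0, 1)

theorem wireI_ivK (p : V → Option Bool) (l : List (Option Bool)) (a : Wire V) :
    wireI p (l.map ivK) a = ivK (wireK p l a) := by
  cases a with
  | var v =>
    simp only [wireI, wireK]
    rcases p v with _ | b <;> rfl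
  | const b => rfl
  | gate i =>
    show (l.map ivK).getD i (0, 0) = ivK (l.getD i (some false))
    rcases Nat.lt_or_ge i l.length with h | h
    · rw [List.getD_eq_getElem _ _ (by simpa using h), List.getD_eq_getElem _ _ h,
        List.getElem_map]
    · rw [List.getD_eq_default _ _ (by simpa using h), List.getD_eq_default _ _ h]
      simp [ivK]

theorem ivalGate_range (p : V → Option Bool) (l : List (Option Bool)) (g : Gate V) :
    (ivalGate g).range p (l.map ivK) = ivK (gateK p l g) := by
  cases g with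
  | and a b =>
    show (min (wireI p (l.map ivK) a).1 (wireI p (l.map ivK) b).1,
      min (wireI p (l.map ivK) a).2 (wireI p (l.map ivK) b).2) = _
    rw [wireI_ivK, wireI_ivK]
    simp only [gateK]
    rcases wireK p l a with _ | (_ | _) <;> rcases wireK p l b with _ | (_ | _) <;>
      simp [kAnd, ivK]
  | or a b =>
    show (max (wireI p (l.map ivK) a).1 (wireI p (l.map ivK) b).1,
      max (wireI p (l.map ivK) a).2 (wireI p (l.map ivK) b).2) = _
    rw [wireI_ivK, wireI_ivK]
    simp only [gateK]
    rcases wireK p l a with _ | (_ | _) <;> rcases wireK p l b with _ | (_ | _) <;>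
      simp [kOr, ivK]
  | not a =>
    show (1 + -(wireI p (l.map ivK) a).2, 1 + -(wireI p (l.map ivK) a).1) = _
    rw [wireI_ivK]
    simp only [gateK]
    rcases wireK p l a with _ | (_ | _) <;> simp [kNot, ivK]

theorem valsI_ivK (p : V → Option Bool) (C : Circuit V) : ∀ l : List (Option Bool),
    valsI p (C.map ivalGate) (l.map ivK) = (valsK p C l).map ivK := by
  induction C with
  | nil => intro l; rfl
  | cons g C ih =>
    intro l
    simp only [List.map_cons, valsI, valsK]
    rw [ivalGate_range, ← ih, List.map_append]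
    rfl

/-- **Circuits with AND, OR, NOT gates** in Kleene's logic are such circuits (`min`, `max`,
`1 - x`) in interval arithmetic. -/
theorem kleene_range (C : Circuit V) (p : V → Option Bool) (a : Wire V) :
    ICircuit.range (C.map ivalGate) p a = ivK (kleene C p a) := by
  unfold ICircuit.range kleene
  have h := valsI_ivK p C []
  rw [List.map_nil] at h
  rw [h, wireI_ivK]

theorem ivK_pos (k : Option Bool) : decide (0 < (ivK k).1) = (k == some true) := by
  rcases k with _ | (_ | _) <;> simp [ivK]

end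

end Pool.Agent.RC
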