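import Pool.Agent.RC.Ival
import Pool.Agent.RC.ClassR
import Pool.Agent.GB24.HiddenUDefs

/-!
# Interval arithmetic is a monotone real computation on the known literals
-/

set_option autoImplicit false
set_option linter.unusedSectionVars false

namespace Pool.Agent.RC

open Pool.Agent.NegLim Pool.Agent.GB24.Loc Finset

section

variable {V : Type}

/-- The two rails of an interval: the lower end, and minus the upper end. -/
noncomputable def rail (b : Bool) (I : ℝ × ℝ) : ℝ := if b then I.1 else -I.2

theorem sgnI_fst (σ : Bool) (I : ℝ × ℝ) : (sgnI σ I).1 = rail σ I := by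
  cases σ <;> rfl

theorem sgnI_snd (σ : Bool) (I : ℝ × ℝ) : (sgnI σ I).2 = -rail (!σ) I := by
  cases σ <;> simp [sgnI, rail]

/-- The wire of a rail, after `k` gates of the original circuit. -/
def rawW (k : ℕ) (b : Bool) : Wire V → Wire (V ⊕ V)
  | .var v => .var (if b then .inl v else .inr v)
  | .const c => .const (if b then c else !c)
  | .gate i => if i < k then .gate (2 * i + (if b then 0 else 1)) else .const false

/-- The shift of a rail. -/
def shW (b : Bool) : Wire V → ℝ
  | .var _ => if b then 0 else 1
  | .const _ => if b then 0 else 1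
  | .gate _ => 0

/-- The values of the rails of the gates. -/
noncomputable def flatI : List (ℝ × ℝ) → List ℝ
  | [] => []
  | I :: l => I.1 :: -I.2 :: flatI l

theorem flatI_append (l l' : List (ℝ × ℝ)) : flatI (l ++ l') = flatI l ++ flatI l' := by
  induction l with
  | nil => rfl
  | cons o l ih => simp [flatI, ih]

theorem flatI_length (l : List (ℝ × ℝ)) : (flatI l).length = 2 * l.length := by
  induction l with
  | nil => rfl
  | cons o l ih =>
    simp only [flatI, List.length_cons, ih]
    ring

theorem flatI_getD (l : List (ℝ × ℝ)) (l' : List ℝ) (i : ℕ) (hi : i < l.length) (b : Bool) :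
    (flatI l ++ l').getD (2 * i + (if b then 0 else 1)) 0 = rail b (l.getD i (0, 0)) := by
  induction l generalizing i with
  | nil => simp at hi
  | cons o l ih =>
    cases i with
    | zero => cases b <;> simp [flatI, rail]
    | succ i =>
      have h1 := ih i (by simpa using hi)
      have h2 : 2 * (i + 1) + (if b then 0 else 1) = (2 * i + (if b then 0 else 1)) + 1 + 1 := by
        ring
      rw [h2]
      simpa [flatI] using h1

theorem rawW_val (p : V → Option Bool) (l : List (ℝ × ℝ)) (l' : List ℝ) (b : Bool)
    (a : Wire V) :
    wval (known p) (flatI l ++ l') (rawW l.length b a) - shW b a = rail b (wireI p l a) := by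
  cases a with
  | var v =>
    have h1 : ∀ c : Bool, wval (known p) (flatI l ++ l') (rawW l.length c (.var v))
        = if (p v == some c) then 1 else 0 := by
      intro c
      cases c <;> simp [rawW, wval, known]
    rw [h1]
    rcases h : p v with _ | (_ | _) <;> cases b <;> simp [shW, rail, wireI, h]
  | const c => cases b <;> cases c <;> simp [rawW, wval, shW, rail, wireI]
  | gate i =>
    by_cases hi : i < l.length
    · simp only [rawW, if_pos hi, wval, wireI, shW, sub_zero]
      exact flatI_getD l l' i hi b
    · have h1 : l.getD i (0, 0) = (0, 0) := by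
        rw [List.getD_eq_default _ _ (by omega)]
      simp only [rawW, if_neg hi, wval, wireI, h1, shW]
      cases b <;> simp [rail]

/-- The gate of the rail `true`. -/
noncomputable def loG (φ : ℝ × ℝ →o ℝ) (c d : ℝ) : ℝ × ℝ →o ℝ where
  toFun q := φ (q.1 - c, q.2 - d)
  monotone' := fun _ _ h => φ.monotone ⟨sub_le_sub_right h.1 c, sub_le_sub_right h.2 d⟩

/-- The gate of the rail `false`. -/
noncomputable def hiG (φ : ℝ × ℝ →o ℝ) (c d : ℝ) : ℝ × ℝ →o ℝ where
  toFun q := -φ (-(q.1 - c), -(q.2 - d))
  monotone' := fun _ _ h => neg_le_neg (φ.monotone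
    ⟨neg_le_neg (sub_le_sub_right h.1 c), neg_le_neg (sub_le_sub_right h.2 d)⟩)

/-- The two gates of a gate. -/
noncomputable def dualG (k : ℕ) (g : IGate V) : List (RGate (V ⊕ V)) :=
  [.mono (loG g.φ (shW g.σ g.a) (shW g.τ g.b)) (rawW k g.σ g.a) (rawW k g.τ g.b),
    .mono (hiG g.φ (shW (!g.σ) g.a) (shW (!g.τ) g.b)) (rawW k (!g.σ) g.a) (rawW k (!g.τ) g.b)]

/-- The two rails of a circuit. -/
noncomputable def dualI : ℕ → ICircuit V → RCircuit (V ⊕ V)
  | _, [] => []
  | k, g :: C => dualG k g ++ dualI (k + 1) C

theorem dualI_length (C : ICircuit V) : ∀ k, (dualI k C).length = 2 * C.length := by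
  induction C with
  | nil => intro k; rfl
  | cons g C ih =>
    intro k
    simp only [dualI, dualG, List.length_append, List.length_cons, List.length_nil, ih]
    ring

theorem dualI_negs (C : ICircuit V) : ∀ k, RCircuit.negs (dualI k C) = 0 := by
  induction C with
  | nil => intro k; rfl
  | cons g C ih =>
    intro k
    have h1 := ih (k + 1)
    unfold RCircuit.negs at h1 ⊢
    simp only [dualI, dualG]
    rw [List.countP_append, h1]
    rfl

theorem rvals_append' (x : V → Bool) (C D : RCircuit V) (vals : List ℝ) :
    rvals x (C ++ D) vals = rvals x D (rvals x C vals) := by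
  induction C generalizing vals with
  | nil => rfl
  | cons g C ih => simp only [List.cons_append, rvals]; exact ih _

theorem rvals_dualG (p : V → Option Bool) (l : List (ℝ × ℝ)) (g : IGate V) :
    rvals (known p) (dualG l.length g) (flatI l) = flatI (l ++ [g.range p l]) := by
  have h1 := fun l' => rawW_val p l l' g.σ g.a
  have h2 := fun l' => rawW_val p l l' g.τ g.b
  have h3 := fun l' => rawW_val p l l' (!g.σ) g.a
  have h4 := fun l' => rawW_val p l l' (!g.τ) g.b
  have e1 : RGate.val (known p) (flatI l)
      (.mono (loG g.φ (shW g.σ g.a) (shW g.τ g.b)) (rawW l.length g.σ g.a)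
        (rawW l.length g.τ g.b)) = (g.range p l).1 := by
    have h5 := h1 []
    have h6 := h2 []
    rw [List.append_nil] at h5 h6
    show g.φ (wval (known p) (flatI l) (rawW l.length g.σ g.a) - shW g.σ g.a,
      wval (known p) (flatI l) (rawW l.length g.τ g.b) - shW g.τ g.b) = _
    rw [h5, h6]
    unfold IGate.range
    rw [sgnI_fst, sgnI_fst]
  have e2 : ∀ l', RGate.val (known p) (flatI l ++ l')
      (.mono (hiG g.φ (shW (!g.σ) g.a) (shW (!g.τ) g.b)) (rawW l.length (!g.σ) g.a)
        (rawW l.length (!g.τ) g.b)) = -(g.range p l).2 := by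
    intro l'
    show -g.φ (-(wval (known p) (flatI l ++ l') (rawW l.length (!g.σ) g.a) - shW (!g.σ) g.a),
      -(wval (known p) (flatI l ++ l') (rawW l.length (!g.τ) g.b) - shW (!g.τ) g.b)) = _
    rw [h3 l', h4 l']
    unfold IGate.range
    rw [sgnI_snd, sgnI_snd]
  unfold dualG
  simp only [rvals]
  rw [e1, e2, flatI_append]
  simp [flatI]

theorem rvals_dual (p : V → Option Bool) (C : ICircuit V) : ∀ l : List (ℝ × ℝ),
    rvals (known p) (dualI l.length C) (flatI l) = flatI (valsI p C l) := by
  induction C with
  | nil => intro l; rfl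
  | cons g C ih =>
    intro l
    simp only [dualI, valsI]
    rw [rvals_append', rvals_dualG]
    have h1 := ih (l ++ [g.range p l])
    rw [List.length_append] at h1
    exact h1

theorem valsI_length (p : V → Option Bool) (C : ICircuit V) (l : List (ℝ × ℝ)) :
    (valsI p C l).length = l.length + C.length := by
  induction C generalizing l with
  | nil => rfl
  | cons g C ih =>
    simp only [valsI, ih, List.length_append, List.length_cons, List.length_nil]
    omega

/-- Positive numbers. -/
noncomputable def posB (c : ℝ) : ℝ →o Bool where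
  toFun a := decide (0 < a - c)
  monotone' := by
    intro a b hab
    by_cases h : 0 < a - c
    · have : 0 < b - c := by linarith
      simp [h, this]
    · simp [h]

/-- **Interval arithmetic of a circuit with `S` gates** is a monotone real circuit with `2 S` gates on
the known literals. -/
theorem ival_lits {S : ℕ} (D : (V → Option Bool) → Bool)
    (h : ∃ (C : ICircuit V) (o : Wire V), C.size ≤ S ∧
      ∀ p, D p = decide (0 < (C.range p o).1)) :
    ∃ F, (realClass (2 * S)).mem (V ⊕ V) F ∧ ∀ p, D p = F (known p) := by
  obtain ⟨C, o, h1, h2⟩ := h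
  refine ⟨fun z => posB (shW true o) (RCircuit.val (dualI 0 C) z (rawW C.length true o)),
    ⟨dualI 0 C, rawW C.length true o, posB (shW true o), dualI_negs C 0, ?_, fun _ => rfl⟩,
    fun p => ?_⟩
  · unfold RCircuit.size
    rw [dualI_length]
    exact Nat.mul_le_mul_left 2 h1
  · rw [h2]
    have h3 := rvals_dual p C []
    have h4 := rawW_val p (valsI p C []) [] true o
    rw [valsI_length, List.append_nil] at h4
    simp only [List.length_nil, zero_add] at h4
    have h5 : (C.range p o).1 = RCircuit.val (dualI 0 C) (known p) (rawW C.length true o)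
        - shW true o := by
      unfold RCircuit.val
      have h6 : rvals (known p) (dualI 0 C) [] = flatI (valsI p C []) := h3
      rw [h6, h4]
      rfl
    rw [h5]
    rfl

end

end Pool.Agent.RC
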