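import Pool.Agent.RC.Comp
import Pool.Agent.NTR.Boost

/-!
# Real monotone circuits: thresholds of lists, hard distributions, circuits without NOT gates
-/

set_option autoImplicit false

namespace Pool.Agent.RC

open Pool.Agent.NegLim Finset
open scoped BigOperators

/-- the sum of a real number and a decision, monotone in both -/
private noncomputable def addDec (ψ : ℝ →o Bool) : ℝ × ℝ →o ℝ where
  toFun p := p.1 + if ψ p.2 then 1 else 0
  monotone' := by
    intro p q hpq
    have h1 : p.1 ≤ q.1 := hpq.1
    have h2 : ψ p.2 ≤ ψ q.2 := ψ.monotone hpq.2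
    show (p.1 + if ψ p.2 then (1 : ℝ) else 0) ≤ q.1 + if ψ q.2 then (1 : ℝ) else 0
    have h3 : (if ψ p.2 then (1 : ℝ) else 0) ≤ if ψ q.2 then (1 : ℝ) else 0 := by
      cases hp : ψ p.2 <;> cases hq : ψ q.2
      · simp
      · simp
      · rw [hp, hq] at h2
        exact absurd h2 (by decide)
      · simp
    linarith

/-- the number of functions of a list which are `1`, as a real function -/
private theorem count_comp {β : Type} {Z : ℕ} (L : List ((β → Bool) → Bool))
    (hL : ∀ H ∈ L, RFun Z H) : ∃ s ≤ L.length * (Z + 1), ∃ C, RComp s C ∧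
      (fun u => ((L.countP (fun H => H u) : ℕ) : ℝ)) ∈ C := by
  induction L with
  | nil =>
    refine ⟨0, Nat.zero_le _, _, RComp.base, Or.inr ⟨0, ?_⟩⟩
    funext u
    simp
  | cons H L ih =>
    obtain ⟨s, hs, C, hC, hf⟩ := ih fun H' hH' => hL H' (List.mem_cons_of_mem _ hH')
    obtain ⟨s', hs', C', hC', f, hf', ψ, hψ⟩ := hL H List.mem_cons_self
    obtain ⟨E, hE, h1, h2⟩ := hC.append hC'
    refine ⟨s + s' + 1, ?_, _, RComp.gate (addDec ψ) hE (h1 hf) (h2 hf'), Or.inl ?_⟩
    · rw [List.length_cons, Nat.add_mul]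
      omega
    · funext u
      show ((List.countP (fun H => H u) (H :: L) : ℕ) : ℝ) =
        (L.countP (fun H => H u) : ℝ) + if ψ (f u) then 1 else 0
      rw [List.countP_cons, ← hψ u]
      push_cast
      split_ifs <;> simp

/-- a threshold of a list of functions -/
theorem rfun_thresh {β : Type} {Z : ℕ} (L : List ((β → Bool) → Bool)) (hL : ∀ H ∈ L, RFun Z H)
    (θ : ℕ) (g : (β → Bool) → Bool) (hg : ∀ u, g u = true ↔ θ ≤ L.countP (fun H => H u)) :
    RFun (L.length * (Z + 1)) g := by
  obtain ⟨s, hs, C, hC, hf⟩ := count_comp L hL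
  refine ⟨s, hs, C, hC, _, hf, thr θ, fun u => ?_⟩
  rw [Bool.eq_iff_iff, hg, thr_iff]
  exact_mod_cast Iff.rfl

theorem rfun_const {β : Type} (Z : ℕ) (b : Bool) : RFun Z (fun _ : β → Bool => b) := by
  refine ⟨0, Nat.zero_le _, _, RComp.base, fun _ => if b then 1 else 0, Or.inr ⟨_, rfl⟩, thr 1,
    fun u => ?_⟩
  rw [Bool.eq_iff_iff, thr_iff]
  cases b <;> norm_num

lemma sum_filter_bv' {X : Type} [Fintype X] (D : X → ℝ) (H : X → Bool) :
    ∑ u with H u = true, D u = ∑ u, D u * NTR.bv (H u) := by
  rw [Finset.sum_filter]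
  refine Finset.sum_congr rfl fun u _ => ?_
  cases H u <;> simp [NTR.bv]

open Classical in
/-- **Hard distributions.** -/
theorem rhard_dist {β : Type} [Fintype β] (g : (β → Bool) → Bool) {δ : ℝ} (h0 : 0 < δ)
    (h1 : δ < 1) (k Z : ℕ) (hk : 3 * (Fintype.card β : ℝ) ≤ k * δ ^ 2)
    (hM : ¬ RFun (k * (Z + 1)) g) :
    ∃ D₀ D₁ : (β → Bool) → ℝ, (∀ u, 0 ≤ D₀ u) ∧ ∑ u, D₀ u = 1 ∧
      (∀ u, D₀ u ≠ 0 → g u = false) ∧ (∀ u, 0 ≤ D₁ u) ∧ ∑ u, D₁ u = 1 ∧
      (∀ u, D₁ u ≠ 0 → g u = true) ∧
      ∀ H : (β → Bool) → Bool, RFun Z H →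
        ∑ u with H u = true, D₁ u ≤ ∑ u with H u = true, D₀ u + δ := by
  by_contra hcon
  push Not at hcon
  have hAdv : NTR.Adv g {H | RFun Z H} δ := by
    intro D₀ D₁ e1 e2 e3 e4 e5 e6
    obtain ⟨H, e7, e9⟩ := hcon D₀ D₁ e1 e2 e3 e4 e5 e6
    refine ⟨H, e7, ?_⟩
    rw [← sum_filter_bv', ← sum_filter_bv']
    exact e9
  have hne : (NTR.prs g).Nonempty := by
    by_contra hemp
    rw [Finset.not_nonempty_iff_eq_empty] at hemp
    have h2 : ∀ Y Z, ¬ (g Y = true ∧ g Z = false) := by
      intro Y Z hYZ
      have : (Y, Z) ∈ NTR.prs g := NTR.mem_prs.mpr hYZ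
      rw [hemp] at this
      exact absurd this (Finset.notMem_empty _)
    by_cases h3 : g (fun _ => false) = true
    · refine hM ((rfun_const _ true).congr fun u => ?_)
      by_contra h7
      exact h2 (fun _ => false) u ⟨h3, by simpa using h7⟩
    · refine hM ((rfun_const _ false).congr fun u => ?_)
      by_contra h7
      exact h2 u (fun _ => false) ⟨by simpa using h7, by simpa using h3⟩
  obtain ⟨L, θ, hL, hLS, hg⟩ := NTR.boosting h0 h1 hAdv hne k (NTR.boost_number g hne h0 h1 k hk)
  have h4 := rfun_thresh L hLS θ g hg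
  rw [hL] at h4
  exact hM h4

/-! ### circuits without NOT gates -/

/-- `1` or `0` -/
private noncomputable def b2 (b : Bool) : ℝ := if b then 1 else 0

private noncomputable def minO : ℝ × ℝ →o ℝ where
  toFun p := min p.1 p.2
  monotone' := fun _ _ h => min_le_min h.1 h.2

private noncomputable def maxO : ℝ × ℝ →o ℝ where
  toFun p := max p.1 p.2
  monotone' := fun _ _ h => max_le_max h.1 h.2

private theorem b2_and (a b : Bool) : b2 (a && b) = min (b2 a) (b2 b) := by
  cases a <;> cases b <;> simp [b2]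

private theorem b2_or (a b : Bool) : b2 (a || b) = max (b2 a) (b2 b) := by
  cases a <;> cases b <;> simp [b2]

private theorem wire_mem {β : Type} {s : ℕ} {C : Set ((β → Bool) → ℝ)} (hC : RComp s C)
    {vals : (β → Bool) → List Bool} (hv : ∀ i, (fun u => b2 ((vals u).getD i false)) ∈ C)
    (a : Wire β) : (fun u => b2 (a.val u (vals u))) ∈ C := by
  cases a with
  | var v => exact hC.var_mem v
  | const b => exact hC.const_mem (b2 b)
  | gate i => exact hv i

private theorem gates_comp {β : Type} (M : Circuit β) : ∀ {s : ℕ} {C : Set ((β → Bool) → ℝ)}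
    (vals : (β → Bool) → List Bool) (m : ℕ), RComp s C → (∀ u, (vals u).length = m) →
    (∀ i, (fun u => b2 ((vals u).getD i false)) ∈ C) → M.negs = 0 →
    ∃ C', RComp (s + M.length) C' ∧ ∀ i, (fun u => b2 ((gateVals u M (vals u)).getD i false)) ∈ C' := by
  induction M with
  | nil =>
    intro s C vals m hC _ hv _
    exact ⟨C, hC, hv⟩
  | cons g M ih =>
    intro s C vals m hC hm hv hn
    have hg : g.isNot = false := by
      by_contra h
      have h' : g.isNot = true := by simpa using h
      have : Circuit.negs (g :: M) = Circuit.negs M + 1 := by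
        simp [Circuit.negs, h']
      omega
    have hn' : Circuit.negs M = 0 := by
      have : Circuit.negs (g :: M) = Circuit.negs M := by
        simp [Circuit.negs, hg]
      omega
    have hstep : ∃ C₁, RComp (s + 1) C₁ ∧ C ⊆ C₁ ∧ (fun u => b2 (g.val u (vals u))) ∈ C₁ := by
      cases g with
      | and a b =>
        refine ⟨_, RComp.gate minO hC (wire_mem hC hv a) (wire_mem hC hv b),
          Set.subset_insert _ _, Or.inl ?_⟩
        funext u
        exact b2_and _ _
      | or a b =>
        refine ⟨_, RComp.gate maxO hC (wire_mem hC hv a) (wire_mem hC hv b),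
          Set.subset_insert _ _, Or.inl ?_⟩
        funext u
        exact b2_or _ _
      | not a => exact absurd hg (by simp [Gate.isNot])
    obtain ⟨C₁, hC₁, hsub, hgv⟩ := hstep
    have hv' : ∀ i, (fun u => b2 ((vals u ++ [g.val u (vals u)]).getD i false)) ∈ C₁ := by
      intro i
      rcases lt_trichotomy i m with hi | hi | hi
      · have : (fun u => b2 ((vals u ++ [g.val u (vals u)]).getD i false)) =
            fun u => b2 ((vals u).getD i false) := by
          funext u
          rw [List.getD_append _ _ _ _ (by rw [hm u]; exact hi)]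
        rw [this]
        exact hsub (hv i)
      · have : (fun u => b2 ((vals u ++ [g.val u (vals u)]).getD i false)) =
            fun u => b2 (g.val u (vals u)) := by
          funext u
          rw [List.getD_append_right _ _ _ _ (by rw [hm u]; exact hi.ge), hm u, hi]
          simp
        rw [this]
        exact hgv
      · have : (fun u => b2 ((vals u ++ [g.val u (vals u)]).getD i false)) =
            fun _ => b2 false := by
          funext u
          rw [List.getD_eq_default _ _ (by rw [List.length_append, hm u]; simpa using hi)]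
        rw [this]
        exact hC₁.const_mem _
    obtain ⟨C', hC', h'⟩ := ih (fun u => vals u ++ [g.val u (vals u)]) (m + 1) hC₁
      (fun u => by rw [List.length_append, hm u]; rfl) hv' hn'
    refine ⟨C', ?_, h'⟩
    rw [List.length_cons]
    have : s + (M.length + 1) = s + 1 + M.length := by omega
    rw [this]
    exact hC'

/-- circuits without NOT gates -/
theorem rfun_of_circuit {β : Type} {Z : ℕ} (M : Circuit β) (o : Wire β) (h : M.negs = 0)
    (hs : M.size ≤ Z) : RFun Z (fun u => M.val u o) := by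
  obtain ⟨C, hC, hv⟩ := gates_comp M (C := baseR β) (fun _ => []) 0 RComp.base (fun _ => rfl)
    (fun i => Or.inr ⟨0, by funext u; simp [b2]⟩) h
  refine ⟨0 + M.length, ?_, C, hC, _, wire_mem hC hv o, thr 1, fun u => ?_⟩
  · rw [Nat.zero_add]
    exact hs
  · rw [Bool.eq_iff_iff, thr_iff]
    show M.val u o = true ↔ 1 ≤ b2 (M.val u o)
    cases M.val u o <;> simp [b2]

end Pool.Agent.RC
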