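import Pool.Agent.RC.BothCore
import Pool.Agent.RC.HardDist

/-!
# One distribution for real circuits and for adaptive queries: the two forms
-/

set_option autoImplicit false

namespace Pool.Agent.RC

open Pool.Agent.NegLim Pool.Agent.NTR Pool.Agent.NTN Finset
open scoped BigOperators

theorem cSet_rfun {β : Type} {Z : ℕ} : ∀ H ∈ cSet β Z, RFun Z H := by
  rintro H ⟨M, o, e1, e2, e3⟩
  exact (rfun_of_circuit M o e1 e2).congr fun u => (e3 u).symm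

open Classical in
/-- **One distribution for real circuits and queries, disjunctions.** -/
theorem rboth_or {ι β : Type} [Fintype ι] [DecidableEq ι] [Fintype β] {U : Finset ι} {r : ℕ}
    (hr : 1 ≤ r) (g : (β → Bool) → Bool) (hg : Monotone g) (f : (ι → Bool) → Prop)
    (φ : ι → (Fin r × β) ⊕ Bool) (hφ : ∀ v, v ∉ U → ∃ c, φ v = .inr c)
    (hf : ∀ y : Fin r × β → Bool, f (fun v => Sum.elim y id (φ v)) ↔
      ∃ i, g (fun b => y (i, b)) = true)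
    {δ : ℝ} (h0 : 0 < δ) (h1 : δ < 1) (k Z : ℕ) (hk : 3 * (Fintype.card β : ℝ) ≤ k * δ ^ 2)
    (hM : ¬ RFun (k * (Z + 1)) g) :
    ∃ μ : (ι → Bool) → ℝ, (∀ x, 0 ≤ μ x) ∧ ∑ x, μ x = 1 ∧
      (∀ x, μ x ≠ 0 → ∀ v c, φ v = .inr c → x v = c) ∧
      (∀ (b : ℕ) (C : RCircuit ι) (out : Wire ι) (ψ : ℝ →o Bool),
        C.size + 1 ≤ Z → ChangesOn U (fun x => C.notVals x) b →
        ∑ x with (ψ (C.val x out) = true ↔ f x), μ x ≤ 1 / 2 + δ / 2 + 2 * b / (2 * r)) ∧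
      ∀ (K : Gen.MonoClass) (ts : List ℕ) (T b : ℕ) (A : (ι → Bool) → Bool),
        orSet K β (ts.sum + T) ⊆ cSet β Z → Tries K U ts T b A →
        ∑ x with (A x = true ↔ f x), μ x ≤ 1 / 2 + δ / 2 + (T + 1) * b / (2 * r) :=
  rboth_or_of hr g hg f φ hφ hf Z (rhard_dist g h0 h1 k Z hk hM) cSet_rfun

open Classical in
/-- **One distribution for real circuits and queries, conjunctions.** -/
theorem rboth_and {ι β : Type} [Fintype ι] [DecidableEq ι] [Fintype β] {U : Finset ι} {r : ℕ}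
    (hr : 1 ≤ r) (g : (β → Bool) → Bool) (hg : Monotone g) (f : (ι → Bool) → Prop)
    (φ : ι → (Fin r × β) ⊕ Bool) (hφ : ∀ v, v ∉ U → ∃ c, φ v = .inr c)
    (hf : ∀ y : Fin r × β → Bool, f (fun v => Sum.elim y id (φ v)) ↔
      ∀ i, g (fun b => y (i, b)) = true)
    {δ : ℝ} (h0 : 0 < δ) (h1 : δ < 1) (k Z : ℕ) (hk : 3 * (Fintype.card β : ℝ) ≤ k * δ ^ 2)
    (hM : ¬ RFun (k * (Z + 1)) g) :
    ∃ μ : (ι → Bool) → ℝ, (∀ x, 0 ≤ μ x) ∧ ∑ x, μ x = 1 ∧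
      (∀ x, μ x ≠ 0 → ∀ v c, φ v = .inr c → x v = c) ∧
      (∀ (b : ℕ) (C : RCircuit ι) (out : Wire ι) (ψ : ℝ →o Bool),
        C.size + 1 ≤ Z → ChangesOn U (fun x => C.notVals x) b →
        ∑ x with (ψ (C.val x out) = true ↔ f x), μ x ≤ 1 / 2 + δ / 2 + 2 * b / (2 * r)) ∧
      ∀ (K : Gen.MonoClass) (ts : List ℕ) (T b : ℕ) (A : (ι → Bool) → Bool),
        andSet K β (ts.sum + T) ⊆ cSet β Z → Tries K U ts T b A →
        ∑ x with (A x = true ↔ f x), μ x ≤ 1 / 2 + δ / 2 + (T + 1) * b / (2 * r) :=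
  rboth_and_of hr g hg f φ hφ hf Z
    (rhard_dist (fun u => !g fun b => !u b) h0 h1 k Z hk fun h =>
      hM (h.dual.congr fun u => by simp)) cSet_rfun

end Pool.Agent.RC
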