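import Pool.Agent.RC.Dom2
import Pool.Agent.LocE.Block

/-!
# One block: monotone real circuits do not tell the hard distributions apart
-/

set_option autoImplicit false

namespace Pool.Agent.RC

open Pool.Agent.NegLim Pool.Agent.LocE Finset
open scoped BigOperators

section

variable {V : Type} [Fintype V] [DecidableEq V] {Y : Type} [Fintype Y] [Nonempty Y]
  (cw : Y → Finset V)

/-- Monotone real circuits do not tell the two distributions apart. -/
theorem block_distR (q M L k w N s : ℕ) (hq0 : 0 < q) (hk : 1 ≤ L * k)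
    (hw : 1 ≤ w) (hq : 256 * (M + 1) ≤ q) (hwL : 2 * w < 2 ^ L) (hsp : Spread cw w (q : ℝ))
    (hkw : (Fintype.card V + 1) ^ (2 * w) * 4 ^ w ≤ 4 ^ k) (hn : 2 * (L * k) ≤ M + 1)
    (hN1 : 1 ≤ N) (hN : ∀ y, N ≤ (cw y).card) :
    ∃ D₀ D₁ : (V → Bool) → ℝ, (∀ u, 0 ≤ D₀ u) ∧ ∑ u, D₀ u = 1 ∧
      (∀ u, D₀ u ≠ 0 → ¬ ∃ y, ∀ v ∈ cw y, u v = true) ∧ (∀ u, 0 ≤ D₁ u) ∧ ∑ u, D₁ u = 1 ∧
      (∀ u, D₁ u ≠ 0 → ∃ y, ∀ v ∈ cw y, u v = true) ∧
      ∀ H : (V → Bool) → Bool, RFun s H →
        ∑ u with H u = true, D₁ u ≤ ∑ u with H u = true, D₀ u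
          + (s * (2 * (1 / 4 : ℝ) ^ w) + Fintype.card Y * (1 / 2 : ℝ) ^ N) := by
  classical
  set n := L * k with hnk
  have hmass : ∑ S : Finset V, nzw M n S = 1 := by
    have h1 := LocE.nz_eq_sum (V := V) M n (fun _ => 1)
    rw [nz_pow_const] at h1
    simpa using h1.symm
  refine ⟨distZero cw M n, distOne cw, ?_, ?_, ?_, ?_, ?_, ?_, ?_⟩
  · intro u
    exact Finset.sum_nonneg fun S _ => mul_nonneg (nzw_nonneg M n S) (ip_nonneg _)
  · have h1 := distZero_sum cw M n (fun _ => True)
    rw [Finset.filter_true] at h1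
    rw [h1]
    simp only [ip_true trivial, mul_one]
    exact hmass
  · rintro u hu ⟨y, hy⟩
    apply hu
    refine Finset.sum_eq_zero fun S _ => ?_
    by_cases hS : S ∈ upFam cw
    · rw [if_pos hS, ip_false, mul_zero]
      intro h
      have h1 : (cw y).Nonempty := by
        rw [← Finset.card_pos]
        exact lt_of_lt_of_le (by omega) (hN y)
      obtain ⟨v, hv⟩ := h1
      have h2 := hy v hv
      rw [← h] at h2
      exact absurd h2 (by simp)
    · rw [if_neg hS, ip_false, mul_zero]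
      intro h
      apply hS
      refine ⟨y, fun v hv => ?_⟩
      have h2 := hy v hv
      rw [← h] at h2
      simpa [chi] using h2
  · intro u
    exact Finset.expect_nonneg fun y _ => ip_nonneg _
  · have h1 := distOne_sum cw (fun _ => True)
    rw [Finset.filter_true] at h1
    rw [h1]
    simp only [ip_true trivial]
    exact Fintype.expect_const _
  · intro u hu
    by_contra hcon
    apply hu
    refine (Finset.expect_congr rfl fun y _ => ?_).trans (Finset.expect_const_zero _)
    rw [ip_false]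
    intro h
    apply hcon
    refine ⟨y, fun v hv => ?_⟩
    rw [← h]
    simpa [chi] using hv
  · intro H hH
    obtain ⟨s', hs', C, hC, g, hg, ψ, hψ⟩ := hH
    set F : Set (Finset V) := tset H with hFdef
    have h1 := rdomination2 cw M L k w (q : ℝ) (by exact_mod_cast hq0) hk hw
      (by exact_mod_cast hq) hwL hsp (by
        have h1 : ((Fintype.card V : ℝ) + 1) ^ (2 * w) * 4 ^ w ≤ 4 ^ k := by exact_mod_cast hkw
        have h2 : (1 / 4 : ℝ) ^ k = 1 / 4 ^ k := by rw [one_div, inv_pow, one_div]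
        have h3 : (1 / 4 : ℝ) ^ w = 1 / 4 ^ w := by rw [one_div, inv_pow, one_div]
        rw [h2, h3, mul_one_div, div_le_div_iff₀ (by positivity) (by positivity)]
        linarith) hC hg ψ hψ ∅
    have hmem : ∀ S : Finset V, S ∈ F ↔ H (chi S) = true := fun S => Iff.rfl
    have h2 : ∑ u with H u = true, distOne cw u = 𝔼 y : Y, ind F (∅ ∪ cw y) := by
      rw [distOne_sum]
      refine Finset.expect_congr rfl fun y _ => ?_
      rw [Finset.empty_union]
      by_cases h : H (chi (cw y)) = true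
      · rw [ip_true h, ind_of_mem ((hmem _).2 h)]
      · rw [ip_false h, ind_of_notMem fun h' => h ((hmem _).1 h')]
    have h3 : (nz M ^ n) (ind F) ∅ ≤ ∑ u with H u = true, distZero cw M n u
        + (nz M ^ n) (ind (upFam cw)) ∅ := by
      rw [distZero_sum, LocE.nz_eq_sum, LocE.nz_eq_sum,
        ← Finset.sum_add_distrib]
      refine Finset.sum_le_sum fun S _ => ?_
      rw [← mul_add]
      refine mul_le_mul_of_nonneg_left ?_ (nzw_nonneg M n S)
      by_cases hS : S ∈ upFam cw
      · rw [ind_of_mem hS]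
        have := ind_le_one F S
        have := ip_nonneg (H (if S ∈ upFam cw then fun _ => false else chi S) = true)
        linarith
      · rw [ind_of_notMem hS, if_neg hS, add_zero]
        by_cases h : H (chi S) = true
        · rw [ip_true h]
          exact ind_le_one F S
        · rw [ip_false h, ind_of_notMem fun h' => h ((hmem _).1 h')]
    have h4 := upFam_prob cw M n N hn hN
    have h5 : (s' : ℝ) * (2 * (1 / 4 : ℝ) ^ w) ≤ s * (2 * (1 / 4 : ℝ) ^ w) := by
      apply mul_le_mul_of_nonneg_right _ (by positivity)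
      exact_mod_cast hs'
    rw [h2]
    linarith

end

/-- **One block.** Distributions on the zeros and on the ones of the polynomial function which
monotone real circuits with at most `s` gates do not tell apart. -/
theorem poly_blockR (N w M L k q s : ℕ) [Fact q.Prime] (hw : 1 ≤ w) (h2w : 2 * w ≤ N)
    (hNq : N ≤ q) (hM : 256 * (M + 1) ≤ q) (hL : 2 * w < 2 ^ L)
    (hk : (N * q + 1) ^ (2 * w) * 4 ^ w ≤ 4 ^ k) (hr : 2 * (L * k) ≤ M + 1) :
    ∃ D₀ D₁ : (Fin N × ZMod q → Bool) → ℝ, (∀ u, 0 ≤ D₀ u) ∧ ∑ u, D₀ u = 1 ∧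
      (∀ u, D₀ u ≠ 0 → polyFn q w N u = false) ∧ (∀ u, 0 ≤ D₁ u) ∧ ∑ u, D₁ u = 1 ∧
      (∀ u, D₁ u ≠ 0 → polyFn q w N u = true) ∧
      ∀ H : (Fin N × ZMod q → Bool) → Bool, RFun s H →
        ∑ u with H u = true, D₁ u ≤ ∑ u with H u = true, D₀ u
          + (s * (2 * (1 / 4 : ℝ) ^ w) + (q : ℝ) ^ (2 * w) * (1 / 2 : ℝ) ^ N) := by
  have hqp : q.Prime := Fact.out
  have hLk : 1 ≤ L * k := by
    rcases Nat.eq_zero_or_pos (L * k) with h0 | h0
    · exfalso
      rcases Nat.mul_eq_zero.mp h0 with h1 | h1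
      · rw [h1] at hL; simp at hL; omega
      · rw [h1, pow_zero] at hk
        have h2 : 1 ≤ (N * q + 1) ^ (2 * w) := Nat.one_le_pow _ _ (by omega)
        have h3 : 4 ^ 1 ≤ 4 ^ w := Nat.pow_le_pow_right (by norm_num) hw
        nlinarith
    · exact h0
  have hiff : ∀ u : Fin N × ZMod q → Bool,
      (∃ c : Fin (2 * w) → ZMod q, ∀ v ∈ graph N c, u v = true) ↔ polyFn q w N u = true := by
    intro u
    rw [polyFn_iff]
    refine exists_congr fun c => ⟨fun h j => h _ (mem_graph.mpr rfl), fun h v hv => ?_⟩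
    have h1 := mem_graph.mp hv
    have h2 := h v.1
    rw [← h1] at h2
    exact h2
  obtain ⟨D₀, D₁, h1, h2, h3, h4, h5, h6, h7⟩ := block_distR
    (fun c : Fin (2 * w) → ZMod q => graph N c) q M L k w N s hqp.pos hLk hw hM hL
    (spread_graph w h2w hNq) (by
      rw [Fintype.card_prod, Fintype.card_fin, ZMod.card]
      exact hk) hr (by omega) (fun c => (card_graph c).ge)
  refine ⟨D₀, D₁, h1, h2, fun u hu => ?_, h4, h5, fun u hu => (hiff u).mp (h6 u hu), ?_⟩
  · have h8 := h3 u hu
    rw [hiff] at h8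
    simpa using h8
  · intro H hH
    refine (h7 H hH).trans (le_of_eq ?_)
    rw [Fintype.card_fun, ZMod.card, Fintype.card_fin]
    push_cast
    ring

end Pool.Agent.RC
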