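import Pool.Agent.RC.DualR
import Pool.Agent.NTN.AvgBoth

/-!
# One distribution for real circuits and for adaptive queries
-/

set_option autoImplicit false

namespace Pool.Agent.RC

open Pool.Agent.NegLim Pool.Agent.NTR Pool.Agent.NTN Finset
open scoped BigOperators

open Classical in
/-- **Real circuits on `U`, from the model-free transfer.** -/
theorem rcircuits_of_core {ι β : Type} [Fintype ι] [DecidableEq ι] [Fintype β] {U : Finset ι}
    {r : ℕ} (f : (ι → Bool) → Prop) (φ : ι → (Fin r × β) ⊕ Bool)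
    (D₀ D₁ : (β → Bool) → ℝ) (μ : (ι → Bool) → ℝ)
    (m4 : ∀ (α : Type) (st : (ι → Bool) → α) (A : (ι → Bool) → Prop) (b : ℕ) (δ : ℝ),
        (∀ x y, (∀ v, v ∉ U → x v = y v) → st x = st y → (A x ↔ A y)) →
        ChangesOn U st b →
        (∀ (i : Fin r) (X : Fin r × β → Bool), (∀ e, X (i, e) = false) →
          ∑ u with st (fun v => Sum.elim (put X i u) id (φ v)) ≠
              st (fun v => Sum.elim X id (φ v)), D₁ u
            ≤ ∑ u with st (fun v => Sum.elim (put X i u) id (φ v)) ≠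
              st (fun v => Sum.elim X id (φ v)), D₀ u + δ) →
        ∑ x with (A x ↔ f x), μ x ≤ 1 / 2 + δ / 2 + b / (2 * r))
    (b Z : ℕ) (δ : ℝ)
    (hδ : ∀ H : (β → Bool) → Bool, RFun Z H →
      ∑ u with H u = true, D₁ u ≤ ∑ u with H u = true, D₀ u + δ)
    (C : RCircuit ι) (out : Wire ι) (ψ : ℝ →o Bool)
    (hC : C.size + 1 ≤ Z) (hb : ChangesOn U (fun x => C.notVals x) b) :
    ∑ x with (ψ (C.val x out) = true ↔ f x), μ x
      ≤ 1 / 2 + δ / 2 + 2 * b / (2 * r) := by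
  have hpair : ChangesOn U (fun x => (C.notVals x, fun _ : Fin 1 => ψ (C.val x out)))
      ((1 + 1) * b) :=
    changesOn_pair hb fun x y hxy _ hw _ => ψ.monotone (rval_le_of_notVals C hxy hw.symm out)
  have h2 := m4 (List ℝ × (Fin 1 → Bool))
    (fun x => (C.notVals x, fun _ => ψ (C.val x out)))
    (fun x => ψ (C.val x out) = true) ((1 + 1) * b) δ
    (by
      intro x y _ hst
      have e5 := congrFun (congrArg Prod.snd hst) 0
      simp only at e5
      rw [e5])
    hpair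
    (by
      intro i X hX
      obtain ⟨H, hH, hHu⟩ := revent C out ψ φ i X hX
      have h3 := hδ H (hH.mono hC)
      have h5 : ∀ u : β → Bool, H u = true ↔
          (C.notVals (fun v => Sum.elim (put X i u) id (φ v)),
            fun _ : Fin 1 => ψ (C.val (fun v => Sum.elim (put X i u) id (φ v)) out))
          ≠ (C.notVals (fun v => Sum.elim X id (φ v)),
            fun _ : Fin 1 => ψ (C.val (fun v => Sum.elim X id (φ v)) out)) := by
        intro u
        rw [hHu u]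
        refine not_congr ?_
        rw [Prod.ext_iff, Prod.ext_iff]
        refine and_congr Iff.rfl ?_
        constructor
        · intro h
          funext _
          exact h
        · intro h
          exact congrFun h 0
      exact (le_of_eq (sum_filter_iff' D₁ _ _ _ _ fun u => (h5 u).symm)).trans
        (h3.trans (le_of_eq (congrArg (· + δ) (sum_filter_iff' D₀ _ _ _ _ h5)))))
  refine (le_of_eq (sum_filter_iff' μ _ _ _ _ fun x => Iff.rfl)).trans (h2.trans (le_of_eq ?_))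
  push_cast
  ring

open Classical in
/-- **Disjunctions**, from the hard distributions. -/
theorem rboth_or_of {ι β : Type} [Fintype ι] [DecidableEq ι] [Fintype β] {U : Finset ι} {r : ℕ}
    (hr : 1 ≤ r) (g : (β → Bool) → Bool) (hg : Monotone g) (f : (ι → Bool) → Prop)
    (φ : ι → (Fin r × β) ⊕ Bool) (hφ : ∀ v, v ∉ U → ∃ c, φ v = .inr c)
    (hf : ∀ y : Fin r × β → Bool, f (fun v => Sum.elim y id (φ v)) ↔
      ∃ i, g (fun b => y (i, b)) = true)
    {δ : ℝ} (Z : ℕ)
    (hD : ∃ D₀ D₁ : (β → Bool) → ℝ, (∀ u, 0 ≤ D₀ u) ∧ ∑ u, D₀ u = 1 ∧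
      (∀ u, D₀ u ≠ 0 → g u = false) ∧ (∀ u, 0 ≤ D₁ u) ∧ ∑ u, D₁ u = 1 ∧
      (∀ u, D₁ u ≠ 0 → g u = true) ∧
      ∀ H : (β → Bool) → Bool, RFun Z H →
        ∑ u with H u = true, D₁ u ≤ ∑ u with H u = true, D₀ u + δ)
    (hcS : ∀ H ∈ cSet β Z, RFun Z H) :
    ∃ μ : (ι → Bool) → ℝ, (∀ x, 0 ≤ μ x) ∧ ∑ x, μ x = 1 ∧
      (∀ x, μ x ≠ 0 → ∀ v c, φ v = .inr c → x v = c) ∧
      (∀ (b : ℕ) (C : RCircuit ι) (out : Wire ι) (ψ : ℝ →o Bool),
        C.size + 1 ≤ Z → ChangesOn U (fun x => C.notVals x) b →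
        ∑ x with (ψ (C.val x out) = true ↔ f x), μ x ≤ 1 / 2 + δ / 2 + 2 * b / (2 * r)) ∧
      ∀ (K : Gen.MonoClass) (ts : List ℕ) (T b : ℕ) (A : (ι → Bool) → Bool),
        orSet K β (ts.sum + T) ⊆ cSet β Z → Tries K U ts T b A →
        ∑ x with (A x = true ↔ f x), μ x ≤ 1 / 2 + δ / 2 + (T + 1) * b / (2 * r) := by
  obtain ⟨D₀, D₁, d1, d2, d3, d4, d5, d6, d7⟩ := hD
  obtain ⟨μ, m1, m2, m3, m4⟩ := push_core (U := U) hr g hg f φ hφ hf D₀ D₁ d1 d2 d3 d4 d5 d6
  exact ⟨μ, m1, m2, m3, fun b C out ψ hC hb =>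
    rcircuits_of_core f φ D₀ D₁ μ m4 b Z δ d7 C out ψ hC hb, fun K ts T b A hS hA =>
    queries_of_core f φ hφ D₀ D₁ μ m4 K ts T b A δ (fun H hH => d7 H (hcS H (hS hH))) hA⟩

open Classical in
/-- **Conjunctions**, from the hard distributions of the dual function. -/
theorem rboth_and_of {ι β : Type} [Fintype ι] [DecidableEq ι] [Fintype β] {U : Finset ι} {r : ℕ}
    (hr : 1 ≤ r) (g : (β → Bool) → Bool) (hg : Monotone g) (f : (ι → Bool) → Prop)
    (φ : ι → (Fin r × β) ⊕ Bool) (hφ : ∀ v, v ∉ U → ∃ c, φ v = .inr c)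
    (hf : ∀ y : Fin r × β → Bool, f (fun v => Sum.elim y id (φ v)) ↔
      ∀ i, g (fun b => y (i, b)) = true)
    {δ : ℝ} (Z : ℕ)
    (hD : ∃ D₀ D₁ : (β → Bool) → ℝ, (∀ u, 0 ≤ D₀ u) ∧ ∑ u, D₀ u = 1 ∧
      (∀ u, D₀ u ≠ 0 → (!g fun b => !u b) = false) ∧ (∀ u, 0 ≤ D₁ u) ∧ ∑ u, D₁ u = 1 ∧
      (∀ u, D₁ u ≠ 0 → (!g fun b => !u b) = true) ∧
      ∀ H : (β → Bool) → Bool, RFun Z H →
        ∑ u with H u = true, D₁ u ≤ ∑ u with H u = true, D₀ u + δ)
    (hcS : ∀ H ∈ cSet β Z, RFun Z H) :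
    ∃ μ : (ι → Bool) → ℝ, (∀ x, 0 ≤ μ x) ∧ ∑ x, μ x = 1 ∧
      (∀ x, μ x ≠ 0 → ∀ v c, φ v = .inr c → x v = c) ∧
      (∀ (b : ℕ) (C : RCircuit ι) (out : Wire ι) (ψ : ℝ →o Bool),
        C.size + 1 ≤ Z → ChangesOn U (fun x => C.notVals x) b →
        ∑ x with (ψ (C.val x out) = true ↔ f x), μ x ≤ 1 / 2 + δ / 2 + 2 * b / (2 * r)) ∧
      ∀ (K : Gen.MonoClass) (ts : List ℕ) (T b : ℕ) (A : (ι → Bool) → Bool),
        andSet K β (ts.sum + T) ⊆ cSet β Z → Tries K U ts T b A →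
        ∑ x with (A x = true ↔ f x), μ x ≤ 1 / 2 + δ / 2 + (T + 1) * b / (2 * r) := by
  obtain ⟨μ, m1, m2, m3, m4, m5⟩ := rboth_or_of (U := U) hr (fun u => !g fun b => !u b)
    (dual_mono hg) (fun x => ¬ f fun v => !x v) (fun v => Sum.map id not (φ v))
    (by
      intro v hv
      obtain ⟨c, hc⟩ := hφ v hv
      exact ⟨!c, by rw [hc]; rfl⟩)
    (dual_restriction g f φ hf) (δ := δ) Z hD hcS
  refine ⟨fun x => μ fun v => !x v, fun x => m1 _, ?_, fun x hx v c hc => ?_,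
    fun b C out ψ hs hC => ?_, fun K ts T b A hS hA => ?_⟩
  · rw [← m2]
    exact Fintype.sum_equiv
      (Equiv.mk (fun (x : ι → Bool) v => !x v) (fun x v => !x v) (fun x => by simp)
        (fun x => by simp)) _ _ fun x => rfl
  · have h2 := m3 _ hx v (!c) (by simp only [hc]; rfl)
    simpa using h2
  · have e2 : RCircuit.size (dualR 0 C) = RCircuit.size C := dualR_length C 0
    have h2 := m4 b (dualR 0 C) (dualWire C.length out) (dualPsi ψ) (by rw [e2]; exact hs) (by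
        have h4 := changesOn_inj (changesOn_dual hC) (List.map flip1)
        intro x hx hU n
        have h5 := h4 x hx hU n
        simp only [dualR_notVals]
        exact h5)
    refine le_trans (le_of_eq ?_) h2
    refine sum_filter_not' μ _ _ _ _ fun x => ?_
    simp only [dualR_val, dualPsi_val, Bool.not_not, Bool.not_eq_true']
    cases ψ (RCircuit.val C x out) <;> simp
  · have h2 := m5 (dualClass K) ts T b (fun x => !A fun v => !x v)
      (by
        intro H hH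
        obtain ⟨M, o, e1, e2, e3⟩ := hS (orSet_dual hH)
        refine ⟨dualCirc 0 M, dualWire M.length o, by rw [dualCirc_negs, e1], ?_, fun u => ?_⟩
        · have h5 : Circuit.size (dualCirc 0 M) = Circuit.size M := dualCirc_length M 0
          rw [h5]
          exact e2
        · rw [dual_val, e3]
          simp) (tries_dual hA)
    refine le_trans (le_of_eq ?_) h2
    refine sum_filter_not' μ _ _ _ _ fun x => ?_
    simp only [Bool.not_not, Bool.not_eq_true']
    cases A x <;> simp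

end Pool.Agent.RC
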