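import Pool.Agent.NegLim.Mono

/-!
# Chains of closed families of sets

The level sets of a monotone real function of sets are closed one after the other, from the top.
-/

set_option autoImplicit false
set_option linter.unusedSectionVars false

namespace Pool.Agent.RC

open Pool.Agent.NegLim Finset
open scoped BigOperators Nat

variable {V : Type} [Fintype V] [DecidableEq V]

/-- The level set of `G` at `r`. -/
def lev (G : Finset V → ℝ) (r : ℝ) : Set (Finset V) := {y | r ≤ G y}

theorem lev_upper {G : Finset V → ℝ} (hG : Monotone G) (r : ℝ) : IsUpperSet (lev G r) :=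
  fun _ _ hab ha => le_trans ha (hG hab)

/-- Every value of `G` is taken at a small subset. -/
def RGen (c : ℕ) (G : Finset V → ℝ) : Prop := ∀ y, ∃ T, T ⊆ y ∧ T.card ≤ c ∧ G T = G y

theorem RGen.gen {c : ℕ} {G : Finset V → ℝ} (h : RGen c G) (r : ℝ) : Gen c (lev G r) := by
  intro y hy
  obtain ⟨T, h1, h2, h3⟩ := h y
  exact ⟨T, by show r ≤ G T; rw [h3]; exact hy, h1, h2⟩

/-- A closure with the exact count. -/
theorem closure_count (M k c : ℕ) (n : ℕ) :
    ∀ F : Set (Finset V), IsUpperSet F → Gen c F → (smallOut c F).card ≤ n →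
      ∃ S : Set (Finset V), IsUpperSet S ∧ Closed M k c S ∧ F ⊆ S ∧ Gen c S ∧
        (nz M ^ k) (ind (S \ F)) ∅ + (smallOut c S).card * (1 / 2 : ℝ) ^ k
          ≤ (smallOut c F).card * (1 / 2 : ℝ) ^ k := by
  have h0 : ∀ F : Set (Finset V), (nz M ^ k) (ind (F \ F)) ∅ = 0 := by
    intro F
    have : ind (F \ F) = fun _ : Finset V => (0 : ℝ) := by
      funext y; rw [ind_of_notMem]; simp
    rw [this, nz_pow_const]
  induction n with
  | zero =>
    intro F hF hg hn
    refine ⟨F, hF, ?_, Set.Subset.refl F, hg, by rw [h0 F, zero_add]⟩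
    intro T hT _
    by_contra hTF
    have : T ∈ smallOut c F := mem_smallOut.mpr ⟨hT, hTF⟩
    rw [Nat.le_zero, card_eq_zero] at hn
    rw [hn] at this
    exact absurd this (notMem_empty T)
  | succ n ih =>
    intro F hF hg hn
    by_cases hcl : Closed M k c F
    · exact ⟨F, hF, hcl, Set.Subset.refl F, hg, by rw [h0 F, zero_add]⟩
    · unfold Closed at hcl
      push Not at hcl
      obtain ⟨T, hTc, hTp, hTF⟩ := hcl
      set F' : Set (Finset V) := F ∪ {y | T ⊆ y} with hF'
      have hup : IsUpperSet F' := by
        apply hF.union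
        intro a b hab ha
        exact Subset.trans ha hab
      have hg' : Gen c F' := by
        rintro y (hy | hy)
        · obtain ⟨T1, h1, h2, h3⟩ := hg y hy
          exact ⟨T1, Or.inl h1, h2, h3⟩
        · exact ⟨T, Or.inr (Subset.refl T), hy, hTc⟩
      have hlt : (smallOut c F').card < (smallOut c F).card := by
        apply card_lt_card
        refine ⟨?_, ?_⟩
        · intro U hU
          rw [mem_smallOut] at hU ⊢
          exact ⟨hU.1, fun h => hU.2 (Or.inl h)⟩
        · intro h
          have h2 := h (mem_smallOut.mpr ⟨hTc, hTF⟩)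
          rw [mem_smallOut] at h2
          exact h2.2 (Or.inr (Subset.refl T))
      obtain ⟨S, hS1, hS2, hS3, hS4, hS5⟩ := ih F' hup hg' (by omega)
      refine ⟨S, hS1, hS2, (Set.subset_union_left).trans hS3, hS4, ?_⟩
      have hle : ind (S \ F) ≤ ind (S \ F') + fun y => 1 - ind F (T ∪ y) := by
        intro y
        simp only [Pi.add_apply]
        have hb := ind_le_one F (T ∪ y)
        have hc := ind_nonneg (S \ F') y
        by_cases hy : y ∈ S \ F
        · rw [ind_of_mem hy]
          by_cases hyT : T ⊆ y
          · have : T ∪ y ∉ F := by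
              rw [union_eq_right.mpr hyT]; exact hy.2
            rw [ind_of_notMem this]; linarith
          · have : y ∈ S \ F' := by
              refine ⟨hy.1, ?_⟩
              rintro (h | h)
              · exact hy.2 h
              · exact hyT h
            rw [ind_of_mem this]; linarith
        · rw [ind_of_notMem hy]; linarith
      have h1 := nz_pow_mono M k hle ∅
      rw [map_add] at h1
      simp only [Pi.add_apply] at h1
      have h2 : (nz M ^ k) (fun y => 1 - ind F (T ∪ y)) ∅ = 1 - (nz M ^ k) (ind F) T := by
        have e : (fun y => 1 - ind F (T ∪ y)) = (fun _ => (1 : ℝ)) - fun y => ind F (T ∪ y) := by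
          funext y; simp
        rw [e, map_sub, nz_pow_const]
        simp only [Pi.sub_apply]
        rw [nz_pow_shift, union_empty]
      rw [h2] at h1
      have h3 : ((smallOut c F').card : ℝ) + 1 ≤ (smallOut c F).card := by exact_mod_cast hlt
      have h4 : (0 : ℝ) < (1 / 2 : ℝ) ^ k := by positivity
      have h5 := mul_le_mul_of_nonneg_right h3 h4.le
      linarith

open Classical in
/-- Raising `G` to `r` on `S`. -/
noncomputable def raise (G : Finset V → ℝ) (r : ℝ) (S : Set (Finset V)) : Finset V → ℝ :=
  fun y => if y ∈ S then max (G y) r else G y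

theorem raise_mem {G : Finset V → ℝ} {r : ℝ} {S : Set (Finset V)} {y : Finset V} (h : y ∈ S) :
    raise G r S y = max (G y) r := if_pos h

theorem raise_notMem {G : Finset V → ℝ} {r : ℝ} {S : Set (Finset V)} {y : Finset V}
    (h : y ∉ S) : raise G r S y = G y := if_neg h

theorem le_raise (G : Finset V → ℝ) (r : ℝ) (S : Set (Finset V)) (y : Finset V) :
    G y ≤ raise G r S y := by
  by_cases h : y ∈ S
  · rw [raise_mem h]
    exact le_max_left _ _
  · rw [raise_notMem h]

/-- **Closing the levels, from the top.** -/
theorem closure_levels (M k c : ℕ) {F : Finset V → ℝ} (hF : Monotone F) (hg : RGen c F) :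
    ∀ L : Finset ℝ, ∃ G : Finset V → ℝ, Monotone G ∧ RGen c G ∧ (∀ y, F y ≤ G y) ∧
      (∀ y, G y = F y ∨ G y ∈ L) ∧ (∀ r ∈ L, Closed M k c (lev G r)) ∧
      ∀ r, (∀ x ∈ L, r < x) →
        (nz M ^ k) (ind {y | F y < G y}) ∅ + (smallOut c (lev G r)).card * (1 / 2 : ℝ) ^ k
          ≤ ((Fintype.card V : ℝ) + 1) ^ c * (1 / 2 : ℝ) ^ k := by
  intro L
  induction L using Finset.induction_on_min with
  | empty =>
    refine ⟨F, hF, hg, fun y => le_rfl, fun y => Or.inl rfl, by simp, fun r _ => ?_⟩
    have h1 : ind {y | F y < F y} = fun _ : Finset V => (0 : ℝ) := by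
      funext y
      rw [ind_of_notMem]
      exact lt_irrefl (F y)
    rw [h1, nz_pow_const, zero_add]
    apply mul_le_mul_of_nonneg_right _ (by positivity)
    have h2 : (smallOut c (lev F r)).card ≤ (Fintype.card V + 1) ^ c := by
      refine le_trans (card_le_card ?_) (card_small (V := V) c)
      intro T hT
      rw [mem_smallOut] at hT
      simp only [mem_filter, mem_univ, true_and]
      exact hT.1
    exact_mod_cast h2
  | insert a L' ha ih =>
    obtain ⟨G, hG, hgen, hFG, hval, hcl, hcount⟩ := ih
    obtain ⟨S, hS1, hS2, hS3, hS4, hS5⟩ := closure_count M k c _ (lev G a) (lev_upper hG a)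
      (hgen.gen a) le_rfl
    have hmem : ∀ {y}, a ≤ G y → y ∈ S := fun {y} h => hS3 h
    have hlev : ∀ x, a < x → lev (raise G a S) x = lev G x := by
      intro x hx
      ext y
      show x ≤ raise G a S y ↔ x ≤ G y
      by_cases h : y ∈ S
      · rw [raise_mem h, le_max_iff]
        exact ⟨fun h2 => h2.resolve_right (not_le.mpr hx), Or.inl⟩
      · rw [raise_notMem h]
    have hleva : lev (raise G a S) a = S := by
      ext y
      show a ≤ raise G a S y ↔ y ∈ S
      by_cases h : y ∈ S
      · rw [raise_mem h]
        exact ⟨fun _ => h, fun _ => le_max_right _ _⟩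
      · rw [raise_notMem h]
        exact ⟨fun h2 => hmem h2, fun h2 => absurd h2 h⟩
    refine ⟨raise G a S, ?_, ?_, fun y => (hFG y).trans (le_raise G a S y), ?_, ?_, ?_⟩
    · intro y z hyz
      by_cases h : y ∈ S
      · rw [raise_mem h, raise_mem (hS1 hyz h)]
        exact max_le_max (hG hyz) le_rfl
      · rw [raise_notMem h]
        exact (hG hyz).trans (le_raise G a S z)
    · intro y
      by_cases h : y ∈ S
      · by_cases h2 : a ≤ G y
        · obtain ⟨T, h3, h4, h5⟩ := hgen y
          refine ⟨T, h3, h4, ?_⟩
          rw [raise_mem h, raise_mem (hmem (by rw [h5]; exact h2)), h5]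
        · obtain ⟨T, h3, h4, h5⟩ := hS4 y h
          refine ⟨T, h4, h5, ?_⟩
          rw [raise_mem h, raise_mem h3, max_eq_right (not_le.mp h2).le,
            max_eq_right ((hG h4).trans (not_le.mp h2).le)]
      · obtain ⟨T, h3, h4, h5⟩ := hgen y
        refine ⟨T, h3, h4, ?_⟩
        rw [raise_notMem h, raise_notMem (fun h6 => h (hS1 h3 h6)), h5]
    · intro y
      by_cases h : y ∈ S
      · rw [raise_mem h]
        rcases max_choice (G y) a with h2 | h2
        · rw [h2]
          rcases hval y with h3 | h3
          · exact Or.inl h3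
          · exact Or.inr (mem_insert_of_mem h3)
        · rw [h2]
          exact Or.inr (mem_insert_self _ _)
      · rw [raise_notMem h]
        rcases hval y with h3 | h3
        · exact Or.inl h3
        · exact Or.inr (mem_insert_of_mem h3)
    · intro r hr
      rcases mem_insert.mp hr with rfl | h
      · rw [hleva]
        exact hS2
      · rw [hlev r (ha r h)]
        exact hcl r h
    · intro r hr
      have h1 := hcount a ha
      have hra : r < a := hr a (mem_insert_self _ _)
      have h2 : (smallOut c (lev (raise G a S) r)).card ≤ (smallOut c S).card := by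
        apply card_le_card
        intro T hT
        rw [mem_smallOut] at hT ⊢
        refine ⟨hT.1, fun h => hT.2 ?_⟩
        show r ≤ raise G a S T
        rw [raise_mem h]
        exact hra.le.trans (le_max_right _ _)
      have h3 : (nz M ^ k) (ind {y | F y < raise G a S y}) ∅
          ≤ (nz M ^ k) (ind {y | F y < G y}) ∅ + (nz M ^ k) (ind (S \ lev G a)) ∅ := by
        refine le_trans ?_ (nz_pow_union M k {y | F y < G y} (S \ lev G a) ∅)
        apply nz_pow_mono
        apply ind_mono
        intro y hy
        by_cases h4 : F y < G y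
        · exact Or.inl h4
        · right
          have hy' : F y < raise G a S y := hy
          by_cases h : y ∈ S
          · refine ⟨h, fun h5 => h4 ?_⟩
            have h6 : a ≤ G y := h5
            rw [raise_mem h, max_eq_left h6] at hy'
            exact hy'
          · rw [raise_notMem h] at hy'
            exact absurd hy' h4
      have h4 : ((smallOut c (lev (raise G a S) r)).card : ℝ) ≤ (smallOut c S).card := by
        exact_mod_cast h2
      have h5 := mul_le_mul_of_nonneg_right h4 (by positivity : (0 : ℝ) ≤ (1 / 2) ^ k)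
      linarith

/-- **Closure of a monotone real function of sets.** -/
theorem exists_rclosure (M k c : ℕ) {F : Finset V → ℝ} (hF : Monotone F) (hg : RGen c F) :
    ∃ G : Finset V → ℝ, Monotone G ∧ RGen c G ∧ (∀ y, F y ≤ G y) ∧
      (∀ z, Closed M k c (lev G (G z))) ∧
      (nz M ^ k) (ind {y | F y < G y}) ∅
        ≤ ((Fintype.card V : ℝ) + 1) ^ c * (1 / 2 : ℝ) ^ k := by
  classical
  obtain ⟨G, h1, h2, h3, h4, h5, h6⟩ := closure_levels M k c hF hg (univ.image F)
  refine ⟨G, h1, h2, h3, fun z => h5 _ ?_, ?_⟩
  · rcases h4 z with h | h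
    · rw [h]
      exact mem_image_of_mem F (mem_univ z)
    · exact h
  · have hne : (univ.image F : Finset ℝ).Nonempty := ⟨F ∅, mem_image_of_mem F (mem_univ _)⟩
    have h7 := h6 ((univ.image F).min' hne - 1) (fun x hx => by
      have := Finset.min'_le _ x hx
      linarith)
    have h8 : (0 : ℝ) ≤ (smallOut c (lev G ((univ.image F).min' hne - 1))).card *
        (1 / 2 : ℝ) ^ k := by positivity
    linarith

/-- The sets of size `l` at which `G` is larger than at all smaller sets. -/
noncomputable def smin (G : Finset V → ℝ) (l : ℕ) : Finset (Finset V) :=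
  open Classical in univ.filter (fun T => T.card = l ∧ ∀ T', T' ⊂ T → G T' < G T)

theorem mem_smin {G : Finset V → ℝ} {l : ℕ} {T : Finset V} :
    T ∈ smin G l ↔ T.card = l ∧ ∀ T', T' ⊂ T → G T' < G T := by
  simp [smin]

/-- Links of the minimal sets of all levels are small. -/
theorem rlink_card (M k c : ℕ) {G : Finset V → ℝ} (hG : Monotone G)
    (hcl : ∀ z, Closed M k c (lev G (G z))) {l : ℕ} (hl : l ≤ c) :
    ∀ d : ℕ, ∀ B : Finset V, B.card + d = l →
      (((smin G l).filter (fun T => B ⊆ T)).card : ℝ) ≤ Dk M d := by
  intro d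
  induction d using Nat.strong_induction_on with
  | _ d ih =>
    intro B hBd
    by_contra hcon
    rw [not_le] at hcon
    set F := (smin G l).filter (fun T => B ⊆ T) with hF
    rcases Nat.eq_zero_or_pos d with h0 | h0
    · subst h0
      have : F ⊆ {B} := by
        intro T hT
        rw [hF, mem_filter, mem_smin] at hT
        rw [mem_singleton]
        exact (Finset.eq_of_subset_of_card_le hT.2 (by omega)).symm
      have h1 : F.card ≤ 1 := (card_le_card this).trans_eq (card_singleton B)
      rw [Dk_zero] at hcon
      have : (F.card : ℝ) ≤ 1 := by exact_mod_cast h1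
      linarith
    · have hB : ∀ T ∈ F, B ⊆ T := fun T hT => (mem_filter.mp hT).2
      have hd : ∀ T ∈ F, (T \ B).card = d := by
        intro T hT
        have h1 := mem_filter.mp hT
        have h2 := (mem_smin.mp h1.1).1
        rw [Finset.card_sdiff_of_subset h1.2]
        omega
      have hlink : ∀ J : Finset V, J.Nonempty → Disjoint J B → J.card ≤ d →
          ((F.filter (fun T => B ∪ J ⊆ T)).card : ℝ) ≤ Dk M (d - J.card) := by
        intro J hJ hJB hJd
        have hJ1 : 0 < J.card := card_pos.mpr hJ
        have h1 := ih (d - J.card) (by omega) (B ∪ J) (by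
          rw [Finset.card_union_of_disjoint hJB.symm]; omega)
        refine le_trans ?_ h1
        have : F.filter (fun T => B ∪ J ⊆ T) ⊆ (smin G l).filter (fun T => B ∪ J ⊆ T) := by
          intro T hT
          rw [mem_filter] at hT ⊢
          exact ⟨(mem_filter.mp hT.1).1, hT.2⟩
        exact_mod_cast card_le_card this
      have hFpos : (0 : ℝ) < F.card := (Dk_pos M d).trans hcon
      have hne : F.Nonempty := by
        rw [← card_pos]
        exact_mod_cast hFpos
      obtain ⟨T₀, hT₀, hmin⟩ := Finset.exists_min_image F G hne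
      have hhalf : ∀ x, B ⊆ x → 1 / 2 ≤ nz M (ind (lev G (G T₀))) x := by
        intro x hx
        have h1 := second_moment M d F B hB hd hlink hx
        have h2 : nz M (ind {y | ∃ T ∈ F, T ⊆ y}) x ≤ nz M (ind (lev G (G T₀))) x := by
          apply nz_mono
          apply ind_mono
          rintro y ⟨T, hT, hTy⟩
          exact (hmin T hT).trans (hG hTy)
        have h3 := nz_ind_nonneg M {y | ∃ T ∈ F, T ⊆ y} x
        have h4 : (F.card : ℝ) ≤ nz M (ind {y | ∃ T ∈ F, T ⊆ y}) x * (2 * F.card) :=
          h1.trans (mul_le_mul_of_nonneg_left (by linarith) h3)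
        by_contra h5
        rw [not_le] at h5
        have h6 : nz M (ind {y | ∃ T ∈ F, T ⊆ y}) x < 1 / 2 := lt_of_le_of_lt h2 h5
        nlinarith
      have hBS : B ∈ lev G (G T₀) :=
        hcl T₀ B (by omega) (amplify M k (lev_upper hG _) hhalf B (Subset.refl _))
      have h1 := mem_filter.mp hT₀
      have h2 := mem_smin.mp h1.1
      have h4 : B ⊂ T₀ := by
        refine Finset.ssubset_iff_subset_ne.mpr ⟨h1.2, ?_⟩
        intro h3
        rw [h3] at hBd
        omega
      exact absurd (h2.2 B h4) (not_lt.mpr hBS)

theorem smin_card (M k c : ℕ) {G : Finset V → ℝ} (hG : Monotone G)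
    (hcl : ∀ z, Closed M k c (lev G (G z))) {l : ℕ} (hl : l ≤ c) :
    ((smin G l).card : ℝ) ≤ Dk M l := by
  have := rlink_card M k c hG hcl hl l ∅ (by simp)
  simpa using this

end Pool.Agent.RC
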