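import Pool.Agent.RC.Defs
import Pool.Agent.NegLim.Abstract

/-!
# Monotone real computations without NOT gates
-/

set_option autoImplicit false

namespace Pool.Agent.RC

open Pool.Agent.NegLim

variable {V W : Type}

/-- The functions computed for free: variables and real constants. -/
def baseR (V : Type) : Set ((V → Bool) → ℝ) :=
  {f | (∃ v : V, f = fun x => if x v then 1 else 0) ∨ ∃ c : ℝ, f = fun _ => c}

/-- `RComp s C`: the functions in `C` are computed by a straight line program with `s` gates,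
monotone functions of two real numbers. -/
inductive RComp : ℕ → Set ((V → Bool) → ℝ) → Prop
  | base : RComp 0 (baseR V)
  | gate {s : ℕ} {C : Set ((V → Bool) → ℝ)} {f g : (V → Bool) → ℝ} (φ : ℝ × ℝ →o ℝ) :
      RComp s C → f ∈ C → g ∈ C → RComp (s + 1) (insert (fun x => φ (f x, g x)) C)

/-- `h` is a threshold of a real function computed with at most `s` gates. -/
def RFun (s : ℕ) (h : (V → Bool) → Bool) : Prop :=
  ∃ s' ≤ s, ∃ C, RComp s' C ∧ ∃ f ∈ C, ∃ ψ : ℝ →o Bool, ∀ x, h x = ψ (f x)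

theorem RComp.base_subset {s : ℕ} {C : Set ((V → Bool) → ℝ)} (h : RComp s C) :
    baseR V ⊆ C := by
  induction h with
  | base => exact Set.Subset.refl _
  | gate _ _ _ _ ih => exact ih.trans (Set.subset_insert _ _)

theorem RComp.const_mem {s : ℕ} {C : Set ((V → Bool) → ℝ)} (h : RComp s C) (c : ℝ) :
    (fun _ => c) ∈ C := h.base_subset (Or.inr ⟨c, rfl⟩)

theorem RComp.var_mem {s : ℕ} {C : Set ((V → Bool) → ℝ)} (h : RComp s C) (v : V) :
    (fun x : V → Bool => if x v then (1 : ℝ) else 0) ∈ C := h.base_subset (Or.inl ⟨v, rfl⟩)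

theorem RComp.monotone {s : ℕ} {C : Set ((V → Bool) → ℝ)} (h : RComp s C) :
    ∀ f ∈ C, Monotone f := by
  induction h with
  | base =>
    rintro f (⟨v, rfl⟩ | ⟨c, rfl⟩)
    · intro x y hxy
      have h1 : x v = true → y v = true := fun hx => by
        have h2 := hxy v
        rw [hx] at h2
        exact Bool.eq_true_of_true_le h2
      show (if x v then (1 : ℝ) else 0) ≤ if y v then 1 else 0
      by_cases hx : x v = true
      · rw [if_pos hx, if_pos (h1 hx)]
      · rw [if_neg hx]
        split_ifs <;> norm_num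
    · intro x y _
      exact le_refl c
  | gate φ _ hf hg ih =>
    rintro a (rfl | ha)
    · intro x y hxy
      exact φ.monotone ⟨ih _ hf hxy, ih _ hg hxy⟩
    · exact ih a ha

theorem RFun.monotone {s : ℕ} {h : (V → Bool) → Bool} (hh : RFun s h) : Monotone h := by
  obtain ⟨s', -, C, hC, f, hf, ψ, hψ⟩ := hh
  intro x y hxy
  rw [hψ, hψ]
  exact ψ.monotone (hC.monotone f hf hxy)

theorem RFun.mono {s t : ℕ} {h : (V → Bool) → Bool} (hst : s ≤ t) (hh : RFun s h) :
    RFun t h := by
  obtain ⟨s', hs', rest⟩ := hh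
  exact ⟨s', hs'.trans hst, rest⟩

theorem RFun.congr {s : ℕ} {h h' : (V → Bool) → Bool} (hh : RFun s h) (e : ∀ x, h' x = h x) :
    RFun s h' := by
  obtain ⟨s', hs', C, hC, f, hf, ψ, hψ⟩ := hh
  exact ⟨s', hs', C, hC, f, hf, ψ, fun x => (e x).trans (hψ x)⟩

/-- Two programs after each other. -/
theorem RComp.append {s t : ℕ} {C D : Set ((V → Bool) → ℝ)} (hC : RComp s C) (hD : RComp t D) :
    ∃ E, RComp (s + t) E ∧ C ⊆ E ∧ D ⊆ E := by
  induction hD with
  | base => exact ⟨C, hC, Set.Subset.refl _, hC.base_subset⟩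
  | @gate t D f g φ _ hf hg ih =>
    obtain ⟨E, hE, hCE, hDE⟩ := ih
    refine ⟨_, RComp.gate φ hE (hDE hf) (hDE hg), hCE.trans (Set.subset_insert _ _), ?_⟩
    exact Set.insert_subset_insert hDE

/-- Substitution of variables and constants. -/
theorem RComp.subst {s : ℕ} {C : Set ((V → Bool) → ℝ)} (hC : RComp s C) (σ : V → Lit W) :
    ∃ D : Set ((W → Bool) → ℝ), RComp s D ∧
      ∀ f ∈ C, (fun y : W → Bool => f fun v => (σ v).val y) ∈ D := by
  induction hC with
  | base =>
    refine ⟨_, RComp.base, ?_⟩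
    rintro f (⟨v, rfl⟩ | ⟨c, rfl⟩)
    · cases hσ : σ v with
      | var w =>
        refine Or.inl ⟨w, ?_⟩
        funext y
        simp only [hσ, Lit.val]
      | const b =>
        refine Or.inr ⟨if b then 1 else 0, ?_⟩
        funext y
        simp only [hσ, Lit.val]
    · exact Or.inr ⟨c, rfl⟩
  | @gate s C f g φ _ hf hg ih =>
    obtain ⟨D, hD, hCD⟩ := ih
    refine ⟨_, RComp.gate φ hD (hCD f hf) (hCD g hg), ?_⟩
    rintro a (rfl | ha)
    · exact Or.inl rfl
    · exact Or.inr (hCD a ha)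

theorem RFun.subst {s : ℕ} {h : (V → Bool) → Bool} (hh : RFun s h) (σ : V → Lit W) :
    RFun s fun y : W → Bool => h fun v => (σ v).val y := by
  obtain ⟨s', hs', C, hC, f, hf, ψ, hψ⟩ := hh
  obtain ⟨D, hD, hCD⟩ := hC.subst σ
  exact ⟨s', hs', D, hD, _, hCD f hf, ψ, fun y => hψ _⟩

/-- A threshold as a monotone function. -/
noncomputable def thr (θ : ℝ) : ℝ →o Bool where
  toFun a := decide (θ ≤ a)
  monotone' := by
    intro a b hab
    by_cases h : θ ≤ a
    · have : θ ≤ b := h.trans hab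
      simp [h, this]
    · simp [h]

theorem thr_iff {θ a : ℝ} : thr θ a = true ↔ θ ≤ a := by
  simp [thr]

end Pool.Agent.RC
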