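import Pool.Agent.RC.Defs
import Pool.Agent.RC.Comp
import Pool.Agent.NTN.WideSlices

/-!
# Every function is computed by a small real circuit with few NOT gates

`w = const - u` for two increasing sums `u, w` of variables, negated variables outside `U` and the
negated number of ones in `U`, found by binary search; so `(u, w)` runs through an antichain.
-/

set_option autoImplicit false
set_option linter.unusedSectionVars false

namespace Pool.Agent.RC

open Pool.Agent.NegLim Pool.Agent.NTR Pool.Agent.NTN Pool.Agent.NTN.Wsl Finset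

section build

variable {V : Type}

theorem rv_length (x : V → Bool) (C : RCircuit V) (vals : List ℝ) :
    (rvals x C vals).length = vals.length + C.length := by
  induction C generalizing vals with
  | nil => rfl
  | cons g C ih =>
    simp only [rvals, ih, List.length_append, List.length_cons, List.length_nil]
    omega

theorem rv_append (x : V → Bool) (C D : RCircuit V) (vals : List ℝ) :
    rvals x (C ++ D) vals = rvals x D (rvals x C vals) := by
  induction C generalizing vals with
  | nil => rfl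
  | cons g C ih => simp only [List.cons_append, rvals]; exact ih _

theorem rv_snoc (x : V → Bool) (C : RCircuit V) (g : RGate V) :
    rvals x (C ++ [g]) [] = rvals x C [] ++ [g.val x (rvals x C [])] := by
  rw [rv_append]
  rfl

theorem rnot_snoc (C : RCircuit V) (g : RGate V) (x : V → Bool) :
    RCircuit.notVals (C ++ [g]) x
      = RCircuit.notVals C x ++ (if g.isNot then [g.val x (rvals x C [])] else []) := by
  unfold RCircuit.notVals
  rw [rv_snoc, List.zip_append (by rw [rv_length]; simp), List.filter_append, List.map_append]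
  refine congrArg _ ?_
  cases h : g.isNot <;> simp [h]

/-- The wire refers to a gate below `n`, or to a variable or constant. -/
def Ok (n : ℕ) : Wire V → Prop
  | .gate i => i < n
  | _ => True

theorem wval_append (x : V → Bool) (l l' : List ℝ) {w : Wire V} (hw : Ok l.length w) :
    wval x (l ++ l') w = wval x l w := by
  cases w with
  | var v => rfl
  | const b => rfl
  | gate i =>
    simp only [wval]
    exact List.getD_append _ _ _ _ hw

/-- A real circuit with at most `n` gates, `t` NOT gates with values `ν` computes the functions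
of the family. -/
def RHas (ν : (V → Bool) → List ℝ) (n t : ℕ) (Φ : Set ((V → Bool) → ℝ)) : Prop :=
  ∃ C : RCircuit V, C.size ≤ n ∧ C.negs = t ∧ (∀ x, C.notVals x = ν x) ∧
    ∀ F ∈ Φ, ∃ w : Wire V, Ok C.length w ∧ ∀ x, C.val x w = F x

variable {ν : (V → Bool) → List ℝ} {n t : ℕ} {Φ : Set ((V → Bool) → ℝ)}

theorem RHas.mono {Ψ : Set ((V → Bool) → ℝ)} {m : ℕ} (h : RHas ν n t Φ) (hnm : n ≤ m)
    (hs : Ψ ⊆ Φ) : RHas ν m t Ψ := by
  obtain ⟨C, h1, h2, h3, h4⟩ := h
  exact ⟨C, h1.trans hnm, h2, h3, fun F hF => h4 F (hs hF)⟩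

/-- The variables and the constants `0, 1`. -/
def vars (V : Type) : Set ((V → Bool) → ℝ) :=
  {F | (∃ v : V, F = fun x => if x v then 1 else 0) ∨ F = (fun _ => 0) ∨ F = fun _ => 1}

theorem rhas_vars : RHas (V := V) (fun _ => []) 0 0 (vars V) := by
  refine ⟨[], by simp [RCircuit.size], by simp [RCircuit.negs], fun x => rfl, ?_⟩
  rintro F (⟨v, rfl⟩ | rfl | rfl)
  · exact ⟨.var v, trivial, fun x => rfl⟩
  · exact ⟨.const false, trivial, fun x => by simp [RCircuit.val, wval]⟩
  · exact ⟨.const true, trivial, fun x => by simp [RCircuit.val, wval]⟩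

theorem val_snoc_old (C : RCircuit V) (g : RGate V) (x : V → Bool) {w : Wire V}
    (hw : Ok C.length w) : RCircuit.val (C ++ [g]) x w = RCircuit.val C x w := by
  unfold RCircuit.val
  rw [rv_snoc, wval_append]
  rw [rv_length]
  simpa using hw

theorem val_snoc_new (C : RCircuit V) (g : RGate V) (x : V → Bool) :
    RCircuit.val (C ++ [g]) x (.gate C.length) = g.val x (rvals x C []) := by
  have hl : (rvals x C []).length = C.length := by rw [rv_length]; simp
  unfold RCircuit.val
  rw [rv_snoc]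
  simp only [wval]
  rw [List.getD_eq_getElem _ _ (by rw [List.length_append, hl]; simp),
    List.getElem_append_right (by rw [hl])]
  simp only [hl, Nat.sub_self, List.getElem_cons_zero]

theorem Ok.succ {m : ℕ} {w : Wire V} (h : Ok m w) : Ok (m + 1) w := by
  cases w with
  | var v => trivial
  | const b => trivial
  | gate i => exact Nat.lt_succ_of_lt h

/-- A monotone gate. -/
theorem RHas.gate (h : RHas ν n t Φ) {F G : (V → Bool) → ℝ} (hF : F ∈ Φ) (hG : G ∈ Φ)
    (φ : ℝ × ℝ →o ℝ) : RHas ν (n + 1) t (insert (fun x => φ (F x, G x)) Φ) := by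
  obtain ⟨C, h1, h2, h3, h4⟩ := h
  obtain ⟨a, ha, ha'⟩ := h4 F hF
  obtain ⟨b, hb, hb'⟩ := h4 G hG
  refine ⟨C ++ [.mono φ a b], ?_, ?_, ?_, ?_⟩
  · unfold RCircuit.size at h1 ⊢
    simp only [List.length_append, List.length_cons, List.length_nil]
    omega
  · unfold RCircuit.negs at h2 ⊢
    rw [List.countP_append, h2]
    simp [RGate.isNot]
  · intro x
    rw [rnot_snoc, h3]
    simp [RGate.isNot]
  · rintro E (rfl | hE)
    · refine ⟨.gate C.length, by simp [Ok], fun x => ?_⟩
      rw [val_snoc_new]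
      have e1 := ha' x
      have e2 := hb' x
      unfold RCircuit.val at e1 e2
      simp only [RGate.val, e1, e2]
    · obtain ⟨c, hc, hc'⟩ := h4 E hE
      refine ⟨c, ?_, fun x => by rw [val_snoc_old C _ x hc, hc']⟩
      rw [List.length_append]
      exact hc.succ

/-- A NOT gate. -/
theorem RHas.not (h : RHas ν n t Φ) {F : (V → Bool) → ℝ} (hF : F ∈ Φ) (ψ : ℝ →o Bool) :
    RHas (fun x => ν x ++ [if ψ (F x) then 0 else 1]) (n + 1) (t + 1)
      (insert (fun x => if ψ (F x) then 0 else 1) Φ) := by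
  obtain ⟨C, h1, h2, h3, h4⟩ := h
  obtain ⟨a, ha, ha'⟩ := h4 F hF
  have hval : ∀ x, (RGate.not ψ a).val x (rvals x C []) = if ψ (F x) then 0 else 1 := by
    intro x
    have e1 := ha' x
    unfold RCircuit.val at e1
    simp only [RGate.val, e1]
  refine ⟨C ++ [.not ψ a], ?_, ?_, ?_, ?_⟩
  · unfold RCircuit.size at h1 ⊢
    simp only [List.length_append, List.length_cons, List.length_nil]
    omega
  · unfold RCircuit.negs at h2 ⊢
    rw [List.countP_append, h2]
    simp [RGate.isNot]
  · intro x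
    rw [rnot_snoc, h3, hval]
    simp [RGate.isNot]
  · rintro E (rfl | hE)
    · exact ⟨.gate C.length, by simp [Ok], fun x => by rw [val_snoc_new, hval]⟩
    · obtain ⟨c, hc, hc'⟩ := h4 E hE
      refine ⟨c, ?_, fun x => by rw [val_snoc_old C _ x hc, hc']⟩
      rw [List.length_append]
      exact hc.succ

/-- `(a, b) ↦ a + c b`, `0 ≤ c`. -/
noncomputable def addMul (c : ℝ) (hc : 0 ≤ c) : ℝ × ℝ →o ℝ where
  toFun p := p.1 + c * p.2
  monotone' := by
    rintro ⟨a, b⟩ ⟨a', b'⟩ ⟨h1, h2⟩
    exact add_le_add h1 (mul_le_mul_of_nonneg_left h2 hc)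

theorem addMul_apply (c : ℝ) (hc : 0 ≤ c) (a b : ℝ) : addMul c hc (a, b) = a + c * b := rfl

/-- Sums with nonnegative coefficients. -/
theorem RHas.sum (h : RHas ν n t Φ) {F₀ : (V → Bool) → ℝ} (hF₀ : F₀ ∈ Φ) {K : Type}
    (c : K → ℝ) (hc : ∀ k, 0 ≤ c k) (F : K → (V → Bool) → ℝ) (W : Finset K)
    (hF : ∀ k ∈ W, F k ∈ Φ) :
    RHas ν (n + W.card) t (insert (fun x => F₀ x + ∑ k ∈ W, c k * F k x) Φ) := by
  classical
  induction W using Finset.induction_on with
  | empty =>
    refine h.mono (by simp) ?_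
    rintro E (rfl | hE)
    · simpa using hF₀
    · exact hE
  | insert k W hk ih =>
    have h1 := ih fun i hi => hF i (Finset.mem_insert_of_mem hi)
    have h2 := h1.gate (F := fun x => F₀ x + ∑ k ∈ W, c k * F k x) (G := F k)
      (Or.inl rfl) (Or.inr (hF k (Finset.mem_insert_self k W))) (addMul (c k) (hc k))
    refine h2.mono (by rw [Finset.card_insert_of_notMem hk]; omega) ?_
    rintro E (rfl | hE)
    · left
      funext x
      rw [addMul_apply, Finset.sum_insert hk]
      ring
    · exact Or.inr (Or.inr hE)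

/-- Negated variables. -/
theorem RHas.nots (h : RHas ν n t Φ) (hb : vars V ⊆ Φ) (l : List V) :
    RHas (fun x => ν x ++ l.map fun v => if x v then (0 : ℝ) else 1) (n + l.length)
      (t + l.length) (Φ ∪ {F | ∃ v ∈ l, F = fun x => if x v then 0 else 1}) := by
  induction l using List.reverseRecOn with
  | nil =>
    refine ⟨h.choose, ?_⟩
    obtain ⟨h1, h2, h3, h4⟩ := h.choose_spec
    refine ⟨by simpa using h1, by simpa using h2, fun x => by simpa using h3 x, ?_⟩
    rintro F (hF | ⟨v, hv, -⟩)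
    · exact h4 F hF
    · simp at hv
  | append_singleton l v ih =>
    have h1 := ih.not (F := fun x => if x v then 1 else 0) (Or.inl (hb (Or.inl ⟨v, rfl⟩)))
      (thr 1)
    have e1 : ∀ x : V → Bool, (if thr 1 (if x v then (1 : ℝ) else 0) then (0 : ℝ) else 1)
        = if x v then 0 else 1 := by
      intro x
      cases x v <;> simp [thr]
    obtain ⟨C, h2, h3, h4, h5⟩ := h1
    refine ⟨C, ?_, ?_, fun x => ?_, ?_⟩
    · rw [List.length_append]
      simpa [Nat.add_assoc] using h2
    · rw [List.length_append]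
      simpa [Nat.add_assoc] using h3
    · rw [h4 x]
      show ν x ++ List.map (fun v => if x v = true then (0 : ℝ) else 1) l
        ++ [if thr 1 (if x v then (1 : ℝ) else 0) then (0 : ℝ) else 1]
        = ν x ++ List.map (fun v => if x v = true then (0 : ℝ) else 1) (l ++ [v])
      rw [e1 x, List.map_append, List.append_assoc]
      rfl
    · rintro F (hF | ⟨u, hu, rfl⟩)
      · exact h5 F (Or.inr (Or.inl hF))
      · rcases List.mem_append.1 hu with hu | hu
        · exact h5 _ (Or.inr (Or.inr ⟨u, hu, rfl⟩))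
        · rw [List.mem_singleton] at hu
          subst hu
          refine h5 _ (Or.inl ?_)
          funext x
          exact (e1 x).symm

end build

/-! ### Binary search for the number of ones -/

/-- The negation of the digit `m` of `c`. -/
noncomputable def nb (m c : ℕ) : ℝ := if (c / 2 ^ m) % 2 = 1 then 0 else 1

/-- What is found after the digits from `L` down to `m`. -/
noncomputable def fnd (L m c : ℕ) : ℝ := 2 ^ L - 2 ^ m * (((c / 2 ^ m : ℕ) : ℝ) + 1)

theorem fnd_top {L c : ℕ} (h : c < 2 ^ L) : fnd L L c = 0 := by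
  unfold fnd
  rw [Nat.div_eq_of_lt h]
  simp

theorem fnd_zero (L c : ℕ) : fnd L 0 c = 2 ^ L - 1 - c := by
  unfold fnd
  simp
  ring

theorem div_step (m c : ℕ) : c / 2 ^ m = 2 * (c / 2 ^ (m + 1)) + (c / 2 ^ m) % 2 := by
  have h1 : c / 2 ^ (m + 1) = c / 2 ^ m / 2 := by
    rw [pow_succ, Nat.div_div_eq_div_mul]
  rw [h1]
  omega

theorem fnd_step (L m c : ℕ) : fnd L m c = fnd L (m + 1) c + 2 ^ m * nb m c := by
  have h1 := div_step m c
  have h2 : ((c / 2 ^ m : ℕ) : ℝ) = 2 * ((c / 2 ^ (m + 1) : ℕ) : ℝ)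
      + (((c / 2 ^ m) % 2 : ℕ) : ℝ) := by
    exact_mod_cast h1
  unfold fnd nb
  rcases Nat.mod_two_eq_zero_or_one (c / 2 ^ m) with h3 | h3
  · rw [h3] at h2
    rw [if_neg (by omega), h2, pow_succ]
    push_cast
    ring
  · rw [h3] at h2
    rw [if_pos h3, h2, pow_succ]
    push_cast
    ring

theorem nb_thr {L m c : ℕ} :
    (if thr (2 ^ L - 2 ^ m) ((c : ℝ) + fnd L (m + 1) c) then (0 : ℝ) else 1) = nb m c := by
  have h4 : c = 2 ^ m * (c / 2 ^ m) + c % 2 ^ m := (Nat.div_add_mod c (2 ^ m)).symm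
  have h5 : c % 2 ^ m < 2 ^ m := Nat.mod_lt _ (by positivity)
  have h1 := div_step m c
  have h2 : ((c / 2 ^ m : ℕ) : ℝ) = 2 * ((c / 2 ^ (m + 1) : ℕ) : ℝ)
      + (((c / 2 ^ m) % 2 : ℕ) : ℝ) := by
    exact_mod_cast h1
  have h4' : (c : ℝ) = 2 ^ m * ((c / 2 ^ m : ℕ) : ℝ) + ((c % 2 ^ m : ℕ) : ℝ) := by
    exact_mod_cast h4
  have h5' : ((c % 2 ^ m : ℕ) : ℝ) < 2 ^ m := by exact_mod_cast h5
  have h6' : (0 : ℝ) ≤ ((c % 2 ^ m : ℕ) : ℝ) := by positivity
  have key : thr (2 ^ L - 2 ^ m) ((c : ℝ) + fnd L (m + 1) c) = true ↔ (c / 2 ^ m) % 2 = 1 := by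
    rw [thr_iff]
    unfold fnd
    rw [pow_succ]
    rcases Nat.mod_two_eq_zero_or_one (c / 2 ^ m) with h3 | h3
    · rw [h3] at h2
      push_cast at h2
      constructor
      · intro h7
        exfalso
        rw [h2] at h4'
        nlinarith
      · intro h7
        omega
    · rw [h3] at h2
      push_cast at h2
      refine ⟨fun _ => h3, fun _ => ?_⟩
      rw [h2] at h4'
      nlinarith
  unfold nb
  by_cases h7 : (c / 2 ^ m) % 2 = 1
  · rw [if_pos h7, if_pos (key.2 h7)]
  · rw [if_neg h7, if_neg (fun h8 => h7 (key.1 h8))]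

section search

variable {V : Type} [DecidableEq V] {ν : (V → Bool) → List ℝ} {n t : ℕ}
  {Φ : Set ((V → Bool) → ℝ)}

/-- The binary search. -/
theorem RHas.search (h : RHas ν n t Φ) (U : Finset V) (L : ℕ)
    (hc : (fun x => (cnt U x : ℝ)) ∈ Φ) (h0 : (fun x => fnd L L (cnt U x)) ∈ Φ) :
    ∀ s, s ≤ L → ∃ (ν' : (V → Bool) → List ℝ) (Ψ : Set ((V → Bool) → ℝ)), Φ ⊆ Ψ ∧
      (fun x => fnd L (L - s) (cnt U x)) ∈ Ψ ∧
      (∀ x, ν' x = ν x ++ (List.range s).map fun i => nb (L - 1 - i) (cnt U x)) ∧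
      RHas ν' (n + 3 * s) (t + s) Ψ := by
  intro s
  induction s with
  | zero =>
    intro _
    exact ⟨ν, Φ, Set.Subset.refl _, by simpa using h0, fun x => by simp, by simpa using h⟩
  | succ s ih =>
    intro hs
    obtain ⟨ν', Ψ, h1, h2, h3, h4⟩ := ih (by omega)
    obtain ⟨m, hm⟩ : ∃ m, m = L - (s + 1) := ⟨_, rfl⟩
    have hm1 : L - s = m + 1 := by omega
    have hm2 : L - 1 - s = m := by omega
    rw [hm1] at h2
    have g1 := h4.gate (h1 hc) h2 (addMul 1 (by norm_num))
    have g2 := g1.not (Or.inl rfl) (thr (2 ^ L - 2 ^ m))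
    have g3 := g2.gate (F := fun x => fnd L (m + 1) (cnt U x)) (Or.inr (Or.inr h2)) (Or.inl rfl)
      (addMul (2 ^ m) (by positivity))
    have e1 : ∀ x : V → Bool, (if thr (2 ^ L - 2 ^ m) (addMul 1 (by norm_num)
        ((cnt U x : ℝ), fnd L (m + 1) (cnt U x))) then (0 : ℝ) else 1) = nb m (cnt U x) := by
      intro x
      rw [addMul_apply, one_mul]
      exact nb_thr
    refine ⟨_, _, ?_, ?_, ?_, g3.mono (by omega) (Set.Subset.refl _)⟩
    · exact fun F hF => Or.inr (Or.inr (Or.inr (h1 hF)))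
    · left
      funext x
      rw [← hm, addMul_apply, e1, fnd_step]
    · intro x
      rw [e1, h3, List.range_succ, List.map_append, List.append_assoc]
      simp [hm2]

end search

section final

variable {V : Type} [Fintype V] [DecidableEq V]

/-- The place of a variable. -/
noncomputable def plc (v : V) : ℕ := (Fintype.equivFin V v : ℕ)

theorem plc_lt (v : V) : plc v < Fintype.card V := (Fintype.equivFin V v).isLt

theorem plc_inj : Function.Injective (plc : V → ℕ) := by
  intro v w h
  exact (Fintype.equivFin V).injective (Fin.ext h)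

/-- The number with the digits `x`. -/
noncomputable def code (x : V → Bool) : ℝ := ∑ v : V, 2 ^ plc v * (if x v then 1 else 0)

theorem code_inj {x y : V → Bool} (h : code x = code y) : x = y := by
  have h1 : ∀ z : V → Bool, code z = ((∑ i ∈ (univ.filter fun v => z v = true).image plc,
      2 ^ i : ℕ) : ℝ) := by
    intro z
    rw [Finset.sum_image fun a _ b _ hab => plc_inj hab, Finset.sum_filter]
    push_cast
    unfold code
    refine Finset.sum_congr rfl fun v _ => ?_
    cases z v <;> simp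
  rw [h1, h1] at h
  have h2 := geomSum_injective (n := 2) le_rfl (Nat.cast_injective h)
  have h3 := Finset.image_injective plc_inj h2
  funext v
  have h4 : (v ∈ univ.filter fun v => x v = true) ↔ v ∈ univ.filter fun v => y v = true := by
    rw [h3]
  simp only [Finset.mem_filter, Finset.mem_univ, true_and] at h4
  cases hx : x v <;> cases hy : y v <;> simp_all

open Classical in
/-- The monotone function with the values `f` on the antichain. -/
noncomputable def anti (f : (V → Bool) → Bool) (u w : (V → Bool) → ℝ) : ℝ × ℝ →o ℝ where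
  toFun p := if ∃ z, f z = true ∧ u z ≤ p.1 ∧ w z ≤ p.2 then 1 else 0
  monotone' := by
    rintro ⟨a, b⟩ ⟨a', b'⟩ ⟨h1, h2⟩
    show (if ∃ z, f z = true ∧ u z ≤ a ∧ w z ≤ b then (1 : ℝ) else 0)
      ≤ if ∃ z, f z = true ∧ u z ≤ a' ∧ w z ≤ b' then 1 else 0
    by_cases h : ∃ z, f z = true ∧ u z ≤ a ∧ w z ≤ b
    · obtain ⟨z, h3, h4, h5⟩ := h
      rw [if_pos ⟨z, h3, h4, h5⟩, if_pos ⟨z, h3, h4.trans h1, h5.trans h2⟩]
    · rw [if_neg h]
      split_ifs <;> norm_num

theorem anti_apply (f : (V → Bool) → Bool) (w : (V → Bool) → ℝ) (K : ℝ)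
    (hw : ∀ x, w x = K - code x) (x : V → Bool) :
    anti f code w (code x, w x) = if f x then 1 else 0 := by
  have h1 : (∃ z, f z = true ∧ code z ≤ code x ∧ w z ≤ w x) ↔ f x = true := by
    constructor
    · rintro ⟨z, h1, h2, h3⟩
      rw [hw, hw] at h3
      have h4 : z = x := code_inj (le_antisymm h2 (by linarith))
      rw [← h4]
      exact h1
    · intro h
      exact ⟨x, h, le_rfl, le_rfl⟩
  show (if ∃ z, f z = true ∧ code z ≤ code x ∧ w z ≤ w x then (1 : ℝ) else 0) = _
  by_cases h : f x = true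
  · rw [if_pos (h1.2 h), if_pos h]
  · rw [if_neg (fun h2 => h (h1.1 h2)), if_neg h]

theorem cnt_cast (U : Finset V) (x : V → Bool) :
    (cnt U x : ℝ) = ∑ v ∈ U, (if x v then (1 : ℝ) else 0) := by
  unfold cnt
  rw [Finset.card_filter]
  push_cast
  rfl

/-- **Every function** of `n` variables is computed by a real circuit with at most `6 n + 5` gates
in which at most `log |U| + 1` NOT gates see the variables in `U`, and the NOT gates change their
values at most `|U|` times on `U`. -/
theorem exists_real (f : (V → Bool) → Bool) (U : Finset V) :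
    ∃ (D : RCircuit V) (o : Wire V), D.size ≤ 6 * Fintype.card V + 5 ∧
      (∀ x, D.val x o = if f x then 1 else 0) ∧
      ChangesOn U (fun x => D.notVals x) (U.card + 1) ∧
      D.negs ≤ (Fintype.card V - U.card) + (Nat.log 2 U.card + 1) ∧
      ∃ J : Finset ℕ, J.card ≤ Nat.log 2 U.card + 1 ∧
        ∀ i, i ∉ J → ∀ x y, (∀ v, v ∉ U → x v = y v) →
          (D.notVals x)[i]? = (D.notVals y)[i]? := by
  obtain ⟨l, hl⟩ : ∃ l, l = (Uᶜ : Finset V).toList := ⟨_, rfl⟩
  have hlU : ∀ v, v ∈ l ↔ v ∉ U := by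
    intro v
    rw [hl, Finset.mem_toList, Finset.mem_compl]
  have hll : l.length = Fintype.card V - U.card := by
    rw [hl, Finset.length_toList, Finset.card_compl]
  have hUc : U.card ≤ Fintype.card V := Finset.card_le_univ U
  obtain ⟨L, hL⟩ : ∃ L, L = Nat.log 2 U.card + 1 := ⟨_, rfl⟩
  have hUL : U.card < 2 ^ L := hL ▸ Nat.lt_pow_succ_log_self (by norm_num) _
  -- the negated variables outside `U`
  have h0 := (rhas_vars (V := V)).nots (Set.Subset.refl _) l
  -- the number of ones in `U`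
  have h1 := h0.sum (F₀ := fun _ => 0) (Or.inl (Or.inr (Or.inl rfl))) (fun _ : V => (1 : ℝ))
    (fun _ => zero_le_one) (fun v x => if x v then 1 else 0) U
    (fun v _ => Or.inl (Or.inl ⟨v, rfl⟩))
  obtain ⟨ν, Ψ, hΨ, hN, hν, h2⟩ := h1.search U L
    (Or.inl (by
      funext x
      rw [cnt_cast]
      simp))
    (Or.inr (Or.inl (Or.inr (Or.inl (by
      funext x
      exact fnd_top ((cnt_le U x).trans_lt hUL)))))) L le_rfl
  rw [Nat.sub_self] at hN
  have hvar : ∀ v, (fun x : V → Bool => if x v then (1 : ℝ) else 0) ∈ Ψ := fun v =>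
    hΨ (Or.inr (Or.inl (Or.inl ⟨v, rfl⟩)))
  have hz : (fun _ : V → Bool => (0 : ℝ)) ∈ Ψ := hΨ (Or.inr (Or.inl (Or.inr (Or.inl rfl))))
  have hnv : ∀ v, v ∉ U → (fun x : V → Bool => if x v then (0 : ℝ) else 1) ∈ Ψ := fun v hv =>
    hΨ (Or.inr (Or.inr ⟨v, (hlU v).2 hv, rfl⟩))
  -- the first sum
  have h3 := h2.sum hz (fun v : V => (2 : ℝ) ^ plc v) (fun _ => by positivity)
    (fun v x => if x v then 1 else 0) univ (fun v _ => hvar v)
  -- the second sum
  have hpl : ∀ v : V, (2 : ℝ) ^ plc v ≤ 2 ^ Fintype.card V := fun v =>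
    pow_le_pow_right₀ (by norm_num) (plc_lt v).le
  have h4 := h3.sum (F₀ := fun _ => 0) (Or.inr hz)
    (fun v : V => (2 : ℝ) ^ Fintype.card V - 2 ^ plc v) (fun v => sub_nonneg.2 (hpl v))
    (fun v x => if x v then 1 else 0) U (fun v _ => Or.inr (hvar v))
  have h5 := h4.gate (Or.inl rfl) (Or.inr (Or.inr hN))
    (addMul (2 ^ Fintype.card V) (by positivity))
  have h6 := h5.sum (Or.inl rfl) (fun v : V => (2 : ℝ) ^ plc v) (fun _ => by positivity)
    (fun v x => if x v then 0 else 1) Uᶜ
    (fun v hv => Or.inr (Or.inr (Or.inr (hnv v (Finset.mem_compl.1 hv)))))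
  obtain ⟨w, hw⟩ : ∃ w : (V → Bool) → ℝ, w = fun x =>
      addMul (2 ^ Fintype.card V) (by positivity)
        (0 + ∑ k ∈ U, (2 ^ Fintype.card V - 2 ^ plc k) * (if x k then (1 : ℝ) else 0),
          fnd L 0 (cnt U x)) + ∑ k ∈ Uᶜ, 2 ^ plc k * (if x k then (0 : ℝ) else 1) := ⟨_, rfl⟩
  have hwx : ∀ x, w x = (2 ^ Fintype.card V * (2 ^ L - 1) + ∑ k ∈ Uᶜ, (2 : ℝ) ^ plc k)
      - code x := by
    intro x
    have e1 : code x = ∑ v ∈ U, 2 ^ plc v * (if x v then (1 : ℝ) else 0)
        + ∑ v ∈ Uᶜ, 2 ^ plc v * (if x v then (1 : ℝ) else 0) := by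
      unfold code
      rw [Finset.sum_add_sum_compl]
    have e2 : ∑ k ∈ Uᶜ, 2 ^ plc k * (if x k then (0 : ℝ) else 1)
        = ∑ k ∈ Uᶜ, (2 : ℝ) ^ plc k - ∑ v ∈ Uᶜ, 2 ^ plc v * (if x v then (1 : ℝ) else 0) := by
      rw [← Finset.sum_sub_distrib]
      refine Finset.sum_congr rfl fun v _ => ?_
      cases x v <;> simp
    have e3 : ∑ k ∈ U, (2 ^ Fintype.card V - 2 ^ plc k) * (if x k then (1 : ℝ) else 0)
        = 2 ^ Fintype.card V * (cnt U x : ℝ)
          - ∑ v ∈ U, 2 ^ plc v * (if x v then (1 : ℝ) else 0) := by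
      rw [cnt_cast, Finset.mul_sum, ← Finset.sum_sub_distrib]
      refine Finset.sum_congr rfl fun v _ => ?_
      ring
    rw [hw]
    simp only
    rw [addMul_apply, e1, e2, e3, fnd_zero]
    ring
  have h7 := h6.gate (F := fun x => 0 + ∑ k : V, 2 ^ plc k * (if x k then (1 : ℝ) else 0))
    (G := w) (Or.inr (Or.inr (Or.inr (Or.inl rfl)))) (Or.inl hw) (anti f code w)
  obtain ⟨D, g1, g2, g3, g4⟩ := h7
  obtain ⟨o, -, ho⟩ := g4 _ (Or.inl rfl)
  have hnot : ∀ x, D.notVals x = (l.map fun v => if x v then (0 : ℝ) else 1)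
      ++ (List.range L).map fun i => nb (L - 1 - i) (cnt U x) := by
    intro x
    rw [g3, hν]
    rfl
  refine ⟨D, o, ?_, fun x => ?_, ?_, ?_, Finset.Ico l.length (l.length + L), ?_, ?_⟩
  · refine g1.trans ?_
    rw [hll, Finset.card_univ, Finset.card_compl]
    rcases Nat.eq_zero_or_pos U.card with h8 | h8
    · rw [h8] at hL ⊢
      simp at hL
      omega
    · have h9 : Nat.log 2 U.card < U.card := Nat.log_lt_self 2 (by omega)
      omega
  · rw [ho x]
    have e1 : (0 + ∑ k : V, 2 ^ plc k * (if x k then (1 : ℝ) else 0)) = code x := zero_add _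
    simp only [e1]
    exact anti_apply f w _ hwx x
  · have h8 := changesOn_wide (U := U) (d := 1) (fun x => D.notVals x) (by
      rintro x y ⟨h9, h10⟩
      simp only [Nat.div_one] at h10
      rw [hnot, hnot, h10]
      refine congrArg (· ++ _) (List.map_congr_left fun v hv => ?_)
      rw [h9 v ((hlU v).1 hv)])
    rwa [Nat.div_one] at h8
  · rw [g2, hll]
    omega
  · rw [Nat.card_Ico]
    omega
  · intro i hi x y hxy
    rw [hnot, hnot]
    rcases Nat.lt_or_ge i l.length with h8 | h8
    · rw [List.getElem?_append_left (by simpa using h8),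
        List.getElem?_append_left (by simpa using h8)]
      refine congrArg (·[i]?) (List.map_congr_left fun v hv => ?_)
      rw [hxy v ((hlU v).1 hv)]
    · have h9 : l.length + L ≤ i := by
        by_contra h10
        exact hi (Finset.mem_Ico.2 ⟨h8, by omega⟩)
      rw [List.getElem?_eq_none (by simp; omega), List.getElem?_eq_none (by simp; omega)]

end final

end Pool.Agent.RC
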