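import Pool.Agent.NegLim.Defs

/-!
# Circuits whose gates are all monotone functions of two real numbers, and NOT gates: definitions
-/

set_option autoImplicit false

namespace Pool.Agent.RC

open Pool.Agent.NegLim

/-- A gate: any monotone function `φ` of two real numbers, or a NOT gate: the negation of a
monotone function `ψ` of a real number with the values `0, 1`. -/
inductive RGate (V : Type) : Type
  | mono (φ : ℝ × ℝ →o ℝ) (a b : Wire V) : RGate V
  | not (ψ : ℝ →o Bool) (a : Wire V) : RGate V

/-- The value of a wire at the input `x`, if `vals` lists the values of the gates computed so
far. -/
noncomputable def wval {V : Type} (x : V → Bool) (vals : List ℝ) : Wire V → ℝ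
  | .var v => if x v then 1 else 0
  | .const b => if b then 1 else 0
  | .gate i => vals.getD i 0

/-- The value of a gate. -/
noncomputable def RGate.val {V : Type} (x : V → Bool) (vals : List ℝ) : RGate V → ℝ
  | .mono φ a b => φ (wval x vals a, wval x vals b)
  | .not ψ a => if ψ (wval x vals a) then 0 else 1

/-- Is this gate a NOT gate? -/
def RGate.isNot {V : Type} : RGate V → Bool
  | .mono _ _ _ => false
  | .not _ _ => true

/-- A real circuit is a list of gates; gates are numbered `0, 1, 2, ...` in the order of the
list. -/
abbrev RCircuit (V : Type) : Type := List (RGate V)

/-- The values of the gates of a real circuit at the input `x`, given the list `vals` of the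
values of gates computed before. -/
noncomputable def rvals {V : Type} (x : V → Bool) : RCircuit V → List ℝ → List ℝ
  | [], vals => vals
  | g :: C, vals => rvals x C (vals ++ [g.val x vals])

/-- The value of the wire `a` of the real circuit `C` at the input `x`. -/
noncomputable def RCircuit.val {V : Type} (C : RCircuit V) (x : V → Bool) (a : Wire V) : ℝ :=
  wval x (rvals x C []) a

/-- The size of a real circuit: its number of gates. -/
def RCircuit.size {V : Type} (C : RCircuit V) : ℕ := C.length

/-- The number of NOT gates of a real circuit. -/
def RCircuit.negs {V : Type} (C : RCircuit V) : ℕ := C.countP RGate.isNot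

/-- The list of the values of the NOT gates of the real circuit `C` at the input `x`. -/
noncomputable def RCircuit.notVals {V : Type} (C : RCircuit V) (x : V → Bool) : List ℝ :=
  ((List.zip C (rvals x C [])).filter (fun p => p.1.isNot)).map Prod.snd

end Pool.Agent.RC
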