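import Pool.Agent.RC.Mono
import Pool.Agent.NegLim.Dom

/-!
# The domination theorem for monotone real computations, with the spread lemma
-/

set_option autoImplicit false
set_option linter.unusedSectionVars false

namespace Pool.Agent.RC

open Pool.Agent.NegLim Finset
open scoped BigOperators

variable {V : Type} [Fintype V] [DecidableEq V]

/-- A closure with the exact count. -/
theorem closure_count2 (M t k c : ℕ) (n : ℕ) :
    ∀ F : Set (Finset V), IsUpperSet F → Gen c F → (smallOut c F).card ≤ n →
      ∃ S : Set (Finset V), IsUpperSet S ∧ BClosed M t k c S ∧ F ⊆ S ∧ Gen c S ∧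
        (nz M ^ (t * k)) (ind (S \ F)) ∅ + (smallOut c S).card * (1 / 4 : ℝ) ^ k
          ≤ (smallOut c F).card * (1 / 4 : ℝ) ^ k := by
  have h0 : ∀ F : Set (Finset V), (nz M ^ (t * k)) (ind (F \ F)) ∅ = 0 := by
    intro F
    have : ind (F \ F) = fun _ : Finset V => (0 : ℝ) := by
      funext y; rw [ind_of_notMem]; simp
    rw [this, nz_pow_const]
  induction n with
  | zero =>
    intro F hF hg hn
    refine ⟨F, hF, ?_, Set.Subset.refl F, hg, by rw [h0 F, zero_add]⟩
    intro T hT _
    by_contra hTF
    have : T ∈ smallOut c F := mem_smallOut.mpr ⟨hT, hTF⟩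
    rw [Nat.le_zero, card_eq_zero] at hn
    rw [hn] at this
    exact absurd this (notMem_empty T)
  | succ n ih =>
    intro F hF hg hn
    by_cases hcl : BClosed M t k c F
    · exact ⟨F, hF, hcl, Set.Subset.refl F, hg, by rw [h0 F, zero_add]⟩
    · unfold BClosed at hcl
      push Not at hcl
      obtain ⟨T, hTc, hTp, hTF⟩ := hcl
      set F' : Set (Finset V) := F ∪ {y | T ⊆ y} with hF'
      have hup : IsUpperSet F' := by
        apply hF.union
        intro a b hab ha
        exact Subset.trans ha hab
      have hg' : Gen c F' := by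
        rintro y (hy | hy)
        · obtain ⟨T1, h1, h2, h3⟩ := hg y hy
          exact ⟨T1, Or.inl h1, h2, h3⟩
        · exact ⟨T, Or.inr (Subset.refl T), hy, hTc⟩
      have hlt : (smallOut c F').card < (smallOut c F).card := by
        apply card_lt_card
        refine ⟨?_, ?_⟩
        · intro U hU
          rw [mem_smallOut] at hU ⊢
          exact ⟨hU.1, fun h => hU.2 (Or.inl h)⟩
        · intro h
          have h2 := h (mem_smallOut.mpr ⟨hTc, hTF⟩)
          rw [mem_smallOut] at h2
          exact h2.2 (Or.inr (Subset.refl T))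
      obtain ⟨S, hS1, hS2, hS3, hS4, hS5⟩ := ih F' hup hg' (by omega)
      refine ⟨S, hS1, hS2, (Set.subset_union_left).trans hS3, hS4, ?_⟩
      have hle : ind (S \ F) ≤ ind (S \ F') + fun y => 1 - ind F (T ∪ y) := by
        intro y
        simp only [Pi.add_apply]
        have hb := ind_le_one F (T ∪ y)
        have hc := ind_nonneg (S \ F') y
        by_cases hy : y ∈ S \ F
        · rw [ind_of_mem hy]
          by_cases hyT : T ⊆ y
          · have : T ∪ y ∉ F := by
              rw [union_eq_right.mpr hyT]; exact hy.2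
            rw [ind_of_notMem this]; linarith
          · have : y ∈ S \ F' := by
              refine ⟨hy.1, ?_⟩
              rintro (h | h)
              · exact hy.2 h
              · exact hyT h
            rw [ind_of_mem this]; linarith
        · rw [ind_of_notMem hy]; linarith
      have h1 := nz_pow_mono M (t * k) hle ∅
      rw [map_add] at h1
      simp only [Pi.add_apply] at h1
      have h2 : (nz M ^ (t * k)) (fun y => 1 - ind F (T ∪ y)) ∅ = 1 - (nz M ^ (t * k)) (ind F) T := by
        have e : (fun y => 1 - ind F (T ∪ y)) = (fun _ => (1 : ℝ)) - fun y => ind F (T ∪ y) := by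
          funext y; simp
        rw [e, map_sub, nz_pow_const]
        simp only [Pi.sub_apply]
        rw [nz_pow_shift, union_empty]
      rw [h2] at h1
      have h3 : ((smallOut c F').card : ℝ) + 1 ≤ (smallOut c F).card := by exact_mod_cast hlt
      have h4 : (0 : ℝ) < (1 / 4 : ℝ) ^ k := by positivity
      have h5 := mul_le_mul_of_nonneg_right h3 h4.le
      linarith

/-- **Closing the levels, from the top.** -/
theorem closure_levels2 (M t k c : ℕ) {F : Finset V → ℝ} (hF : Monotone F) (hg : RGen c F) :
    ∀ L : Finset ℝ, ∃ G : Finset V → ℝ, Monotone G ∧ RGen c G ∧ (∀ y, F y ≤ G y) ∧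
      (∀ y, G y = F y ∨ G y ∈ L) ∧ (∀ r ∈ L, BClosed M t k c (lev G r)) ∧
      ∀ r, (∀ x ∈ L, r < x) →
        (nz M ^ (t * k)) (ind {y | F y < G y}) ∅ + (smallOut c (lev G r)).card * (1 / 4 : ℝ) ^ k
          ≤ ((Fintype.card V : ℝ) + 1) ^ c * (1 / 4 : ℝ) ^ k := by
  intro L
  induction L using Finset.induction_on_min with
  | empty =>
    refine ⟨F, hF, hg, fun y => le_rfl, fun y => Or.inl rfl, by simp, fun r _ => ?_⟩
    have h1 : ind {y | F y < F y} = fun _ : Finset V => (0 : ℝ) := by
      funext y
      rw [ind_of_notMem]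
      exact lt_irrefl (F y)
    rw [h1, nz_pow_const, zero_add]
    apply mul_le_mul_of_nonneg_right _ (by positivity)
    have h2 : (smallOut c (lev F r)).card ≤ (Fintype.card V + 1) ^ c := by
      refine le_trans (card_le_card ?_) (card_small (V := V) c)
      intro T hT
      rw [mem_smallOut] at hT
      simp only [mem_filter, mem_univ, true_and]
      exact hT.1
    exact_mod_cast h2
  | insert a L' ha ih =>
    obtain ⟨G, hG, hgen, hFG, hval, hcl, hcount⟩ := ih
    obtain ⟨S, hS1, hS2, hS3, hS4, hS5⟩ := closure_count2 M t k c _ (lev G a) (lev_upper hG a)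
      (hgen.gen a) le_rfl
    have hmem : ∀ {y}, a ≤ G y → y ∈ S := fun {y} h => hS3 h
    have hlev : ∀ x, a < x → lev (raise G a S) x = lev G x := by
      intro x hx
      ext y
      show x ≤ raise G a S y ↔ x ≤ G y
      by_cases h : y ∈ S
      · rw [raise_mem h, le_max_iff]
        exact ⟨fun h2 => h2.resolve_right (not_le.mpr hx), Or.inl⟩
      · rw [raise_notMem h]
    have hleva : lev (raise G a S) a = S := by
      ext y
      show a ≤ raise G a S y ↔ y ∈ S
      by_cases h : y ∈ S
      · rw [raise_mem h]
        exact ⟨fun _ => h, fun _ => le_max_right _ _⟩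
      · rw [raise_notMem h]
        exact ⟨fun h2 => hmem h2, fun h2 => absurd h2 h⟩
    refine ⟨raise G a S, ?_, ?_, fun y => (hFG y).trans (le_raise G a S y), ?_, ?_, ?_⟩
    · intro y z hyz
      by_cases h : y ∈ S
      · rw [raise_mem h, raise_mem (hS1 hyz h)]
        exact max_le_max (hG hyz) le_rfl
      · rw [raise_notMem h]
        exact (hG hyz).trans (le_raise G a S z)
    · intro y
      by_cases h : y ∈ S
      · by_cases h2 : a ≤ G y
        · obtain ⟨T, h3, h4, h5⟩ := hgen y
          refine ⟨T, h3, h4, ?_⟩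
          rw [raise_mem h, raise_mem (hmem (by rw [h5]; exact h2)), h5]
        · obtain ⟨T, h3, h4, h5⟩ := hS4 y h
          refine ⟨T, h4, h5, ?_⟩
          rw [raise_mem h, raise_mem h3, max_eq_right (not_le.mp h2).le,
            max_eq_right ((hG h4).trans (not_le.mp h2).le)]
      · obtain ⟨T, h3, h4, h5⟩ := hgen y
        refine ⟨T, h3, h4, ?_⟩
        rw [raise_notMem h, raise_notMem (fun h6 => h (hS1 h3 h6)), h5]
    · intro y
      by_cases h : y ∈ S
      · rw [raise_mem h]
        rcases max_choice (G y) a with h2 | h2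
        · rw [h2]
          rcases hval y with h3 | h3
          · exact Or.inl h3
          · exact Or.inr (mem_insert_of_mem h3)
        · rw [h2]
          exact Or.inr (mem_insert_self _ _)
      · rw [raise_notMem h]
        rcases hval y with h3 | h3
        · exact Or.inl h3
        · exact Or.inr (mem_insert_of_mem h3)
    · intro r hr
      rcases mem_insert.mp hr with rfl | h
      · rw [hleva]
        exact hS2
      · rw [hlev r (ha r h)]
        exact hcl r h
    · intro r hr
      have h1 := hcount a ha
      have hra : r < a := hr a (mem_insert_self _ _)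
      have h2 : (smallOut c (lev (raise G a S) r)).card ≤ (smallOut c S).card := by
        apply card_le_card
        intro T hT
        rw [mem_smallOut] at hT ⊢
        refine ⟨hT.1, fun h => hT.2 ?_⟩
        show r ≤ raise G a S T
        rw [raise_mem h]
        exact hra.le.trans (le_max_right _ _)
      have h3 : (nz M ^ (t * k)) (ind {y | F y < raise G a S y}) ∅
          ≤ (nz M ^ (t * k)) (ind {y | F y < G y}) ∅ + (nz M ^ (t * k)) (ind (S \ lev G a)) ∅ := by
        refine le_trans ?_ (nz_pow_union M (t * k) {y | F y < G y} (S \ lev G a) ∅)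
        apply nz_pow_mono
        apply ind_mono
        intro y hy
        by_cases h4 : F y < G y
        · exact Or.inl h4
        · right
          have hy' : F y < raise G a S y := hy
          by_cases h : y ∈ S
          · refine ⟨h, fun h5 => h4 ?_⟩
            have h6 : a ≤ G y := h5
            rw [raise_mem h, max_eq_left h6] at hy'
            exact hy'
          · rw [raise_notMem h] at hy'
            exact absurd hy' h4
      have h4 : ((smallOut c (lev (raise G a S) r)).card : ℝ) ≤ (smallOut c S).card := by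
        exact_mod_cast h2
      have h5 := mul_le_mul_of_nonneg_right h4 (by positivity : (0 : ℝ) ≤ (1 / 4) ^ k)
      linarith

/-- **Closure of a monotone real function of sets.** -/
theorem exists_rclosure2 (M t k c : ℕ) {F : Finset V → ℝ} (hF : Monotone F) (hg : RGen c F) :
    ∃ G : Finset V → ℝ, Monotone G ∧ RGen c G ∧ (∀ y, F y ≤ G y) ∧
      (∀ z, BClosed M t k c (lev G (G z))) ∧
      (nz M ^ (t * k)) (ind {y | F y < G y}) ∅
        ≤ ((Fintype.card V : ℝ) + 1) ^ c * (1 / 4 : ℝ) ^ k := by
  classical
  obtain ⟨G, h1, h2, h3, h4, h5, h6⟩ := closure_levels2 M t k c hF hg (univ.image F)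
  refine ⟨G, h1, h2, h3, fun z => h5 _ ?_, ?_⟩
  · rcases h4 z with h | h
    · rw [h]
      exact mem_image_of_mem F (mem_univ z)
    · exact h
  · have hne : (univ.image F : Finset ℝ).Nonempty := ⟨F ∅, mem_image_of_mem F (mem_univ _)⟩
    have h7 := h6 ((univ.image F).min' hne - 1) (fun x hx => by
      have := Finset.min'_le _ x hx
      linarith)
    have h8 : (0 : ℝ) ≤ (smallOut c (lev G ((univ.image F).min' hne - 1))).card *
        (1 / 4 : ℝ) ^ k := by positivity
    linarith

/-- Links of the minimal sets of all levels are small. -/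
theorem rlink_card2 (M t k c : ℕ) {G : Finset V → ℝ} (hG : Monotone G)
    (hcl : ∀ z, BClosed M t k c (lev G (G z))) (hcL : c < 2 ^ t) {l : ℕ} (hl : l ≤ c) :
    ∀ d : ℕ, ∀ B : Finset V, B.card + d = l →
      (((smin G l).filter (fun T => B ⊆ T)).card : ℝ) ≤ Kb M ^ d := by
  intro d
  induction d using Nat.strong_induction_on with
  | _ d ih =>
    intro B hBd
    by_contra hcon
    rw [not_le] at hcon
    set F := (smin G l).filter (fun T => B ⊆ T) with hF
    rcases Nat.eq_zero_or_pos d with h0 | h0
    · subst h0
      have : F ⊆ {B} := by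
        intro T hT
        rw [hF, mem_filter, mem_smin] at hT
        rw [mem_singleton]
        exact (Finset.eq_of_subset_of_card_le hT.2 (by omega)).symm
      have h1 : F.card ≤ 1 := (card_le_card this).trans_eq (card_singleton B)
      rw [pow_zero] at hcon
      have : (F.card : ℝ) ≤ 1 := by exact_mod_cast h1
      linarith
    · have hB : ∀ T ∈ F, B ⊆ T := fun T hT => (mem_filter.mp hT).2
      have hd : ∀ T ∈ F, (T \ B).card ≤ d := by
        intro T hT
        have h1 := mem_filter.mp hT
        have h2 := (mem_smin.mp h1.1).1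
        rw [Finset.card_sdiff_of_subset h1.2]
        omega
      have hKd : (0 : ℝ) < Kb M ^ d := pow_pos (Kb_pos M) d
      have hFpos : (0 : ℝ) < F.card := hKd.trans hcon
      have hsp : ∀ J : Finset V, ((F.filter (fun T => J ⊆ T \ B)).card : ℝ)
          ≤ (F.card : ℝ) * (1 / Kb M) ^ J.card := by
        intro J
        rcases J.eq_empty_or_nonempty with hJ | hJ
        · subst hJ
          rw [card_empty, pow_zero, mul_one]
          exact_mod_cast card_filter_le _ _
        · by_cases hJB : Disjoint J B
          · by_cases hJd : J.card ≤ d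
            · have hJ1 : 0 < J.card := card_pos.mpr hJ
              have h1 := ih (d - J.card) (by omega) (B ∪ J) (by
                rw [Finset.card_union_of_disjoint hJB.symm]; omega)
              have h2 : F.filter (fun T => J ⊆ T \ B) ⊆ (smin G l).filter (fun T => B ∪ J ⊆ T) := by
                intro T hT
                rw [mem_filter] at hT ⊢
                refine ⟨(mem_filter.mp hT.1).1, union_subset (hB T hT.1) (hT.2.trans sdiff_subset)⟩
              have h3 : ((F.filter (fun T => J ⊆ T \ B)).card : ℝ) ≤ Kb M ^ (d - J.card) :=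
                le_trans (by exact_mod_cast card_le_card h2) h1
              refine h3.trans ?_
              have h4 : Kb M ^ (d - J.card) = Kb M ^ d * (1 / Kb M) ^ J.card := by
                obtain ⟨i, hi⟩ := Nat.exists_eq_add_of_le hJd
                rw [hi, Nat.add_sub_cancel_left, pow_add, mul_comm (Kb M ^ J.card), mul_assoc,
                  ← mul_pow, mul_one_div, div_self (Kb_pos M).ne', one_pow, mul_one]
              rw [h4]
              apply mul_le_mul_of_nonneg_right hcon.le
              have := Kb_pos M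
              positivity
            · have : F.filter (fun T => J ⊆ T \ B) = ∅ := by
                rw [Finset.filter_eq_empty_iff]
                intro T hT hJT
                have := (card_le_card hJT).trans (hd T hT)
                exact hJd this
              rw [this]
              have := Kb_pos M
              simp only [card_empty, Nat.cast_zero]
              positivity
          · have : F.filter (fun T => J ⊆ T \ B) = ∅ := by
              rw [Finset.filter_eq_empty_iff]
              intro T _ hJT
              apply hJB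
              exact disjoint_of_subset_left hJT sdiff_disjoint
            rw [this]
            have := Kb_pos M
            simp only [card_empty, Nat.cast_zero]
            positivity
      have hne : F.Nonempty := by
        rw [← card_pos]
        exact_mod_cast hFpos
      obtain ⟨T₀, hT₀, hmin⟩ := Finset.exists_min_image F G hne
      have hhit : ∀ x, B ⊆ x → 1 - (1 / 4 : ℝ) ≤ (nz M ^ t) (ind (lev G (G T₀))) x := by
        intro x hx
        have h1 := spread_hit M (Kb M) (le_of_eq rfl) t d (by omega) (Finset V)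
          (fun T => T \ B) F (F.card : ℝ) hFpos hd hsp x
        rw [div_self hFpos.ne'] at h1
        have h2 : (0 : ℝ) ≤ (1 / 4) ^ d := by positivity
        have h3 : (nz M ^ t) (ind (hitSet (fun T => T \ B) F)) x
            ≤ (nz M ^ t) (ind (lev G (G T₀))) x := by
          apply nz_pow_le_of
          intro y hy
          by_cases hyH : y ∈ hitSet (fun T => T \ B) F
          · obtain ⟨T, hT, hTy⟩ := hyH
            have h4 : y ∈ lev G (G T₀) := by
              have h5 : T ⊆ y := by
                intro v hv
                by_cases hvB : v ∈ B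
                · exact hy (hx hvB)
                · exact hTy (mem_sdiff.mpr ⟨hv, hvB⟩)
              exact (hmin T hT).trans (hG h5)
            rw [ind_of_mem h4]
            exact ind_le_one _ _
          · rw [ind_of_notMem hyH]
            exact ind_nonneg _ _
        linarith
      have hBS : B ∈ lev G (G T₀) := hcl T₀ B (by omega)
        (amplify_block M t k (lev_upper hG _) (by norm_num) hhit B (Subset.refl _))
      have h1 := mem_filter.mp hT₀
      have h2 := mem_smin.mp h1.1
      have h4 : B ⊂ T₀ := by
        refine Finset.ssubset_iff_subset_ne.mpr ⟨h1.2, ?_⟩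
        intro h3
        rw [h3] at hBd
        omega
      exact absurd (h2.2 B h4) (not_lt.mpr hBS)

theorem smin_card2 (M t k c : ℕ) {G : Finset V → ℝ} (hG : Monotone G)
    (hcl : ∀ z, BClosed M t k c (lev G (G z))) (hcL : c < 2 ^ t) {l : ℕ} (hl : l ≤ c) :
    ((smin G l).card : ℝ) ≤ Kb M ^ l := by
  have := rlink_card2 M t k c hG hcl hcL hl l ∅ (by simp)
  simpa using this

section dist

variable {Y : Type} [Fintype Y] [Nonempty Y] (cw : Y → Finset V)

/-- Trimming costs little for the random set `cw y`, all levels together. -/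
theorem rtrim_error2 (M t k w : ℕ) (q : ℝ) (hq0 : 0 < q) (hq : 256 * ((M : ℝ) + 1) ≤ q)
    (hwL : 2 * w < 2 ^ t) (hsp : Spread cw w q) {G : Finset V → ℝ} (hG : Monotone G)
    (hcl : ∀ z, BClosed M t k (2 * w) (lev G (G z))) (hgen : RGen (2 * w) G) :
    (𝔼 y : Y, ind {y | rtrim G w y < G y} (cw y)) ≤ (1 / 4 : ℝ) ^ w := by
  have h1 := expect_le_fam cw (smin G) (fun l T hT => (mem_smin.mp hT).1) hsp
    (Finset.Ioc w (2 * w)) (fun l hl => (Finset.mem_Ioc.mp hl).2) {y | rtrim G w y < G y} (by
      intro y hy
      obtain ⟨T, hT1, hT2, hT3⟩ := hgen (cw y)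
      obtain ⟨T0, h3, h4, h5⟩ := exists_smin hG T
      have h6 : T0.card ≤ 2 * w := (card_le_card h3).trans hT2
      refine ⟨T0.card, Finset.mem_Ioc.mpr ⟨?_, h6⟩, T0, mem_smin.mpr ⟨rfl, h5⟩, h3.trans hT1⟩
      by_contra h8
      have h9 : G T0 ≤ rtrim G w (cw y) := le_rtrim (h3.trans hT1) (not_lt.mp h8)
      rw [h4, hT3] at h9
      exact absurd hy (not_lt.mpr h9))
  have h2 : ∀ l ∈ Finset.Ioc w (2 * w), ((smin G l).card : ℝ) * (1 / q) ^ l
        ≤ (1 / 4 : ℝ) ^ l := by
    intro l hl
    rw [Finset.mem_Ioc] at hl
    have h3 := smin_card2 M t k (2 * w) hG hcl hwL (l := l) hl.2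
    have h5 : Kb M ^ l * (1 / q) ^ l ≤ (1 / 4 : ℝ) ^ l := by
      rw [← mul_pow]
      apply pow_le_pow_left₀
      · have := Kb_pos M; positivity
      · unfold Kb
        rw [mul_one_div, div_le_div_iff₀ hq0 (by norm_num)]
        linarith
    have h6 : (0 : ℝ) ≤ (1 / q) ^ l := by positivity
    exact (mul_le_mul_of_nonneg_right h3 h6).trans h5
  refine h1.trans ((Finset.sum_le_sum h2).trans ?_)
  have h7 : ∀ n : ℕ, ∑ l ∈ Finset.Ioc w (w + n), (1 / 4 : ℝ) ^ l
      = ((1 / 4) ^ w - (1 / 4) ^ (w + n)) / 3 := by
    intro n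
    induction n with
    | zero => simp
    | succ n ih =>
      rw [← add_assoc, Finset.sum_Ioc_succ_top (by omega), ih]
      ring
  have h8 := h7 w
  rw [← two_mul] at h8
  rw [h8]
  have h9 : (0 : ℝ) ≤ (1 / 4) ^ (2 * w) := by positivity
  have h10 : (0 : ℝ) ≤ (1 / 4) ^ w := by positivity
  linarith

/-- Approximators. -/
def RGood2 (M t k w : ℕ) (A : Finset V → ℝ) : Prop :=
  Monotone A ∧ RGen w A ∧
    ∀ z, (𝔼 y : Y, ind (lev A (A z)) (cw y)) ≤ (nz M ^ (t * k)) (ind (lev A (A z))) ∅

/-- One gate. -/
theorem rgate_approx2 (M t k w : ℕ) (q : ℝ) (hq0 : 0 < q) (hk : 1 ≤ t * k)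
    (hq : 256 * ((M : ℝ) + 1) ≤ q) (hwL : 2 * w < 2 ^ t)
    (hsp : Spread cw w q) {F : Finset V → ℝ} (hF : Monotone F) (hgen : RGen (2 * w) F) :
    ∃ (A : Finset V → ℝ) (N P : Set (Finset V)), RGood2 cw M t k w A ∧
      (nz M ^ (t * k)) (ind N) ∅ ≤ ((Fintype.card V : ℝ) + 1) ^ (2 * w) * (1 / 4 : ℝ) ^ k ∧
      (𝔼 y : Y, ind P (cw y)) ≤ (1 / 4 : ℝ) ^ w ∧
      (∀ W, W ∉ N → A W ≤ F W) ∧ (∀ y, y ∉ P → F y ≤ A y) := by
  obtain ⟨G, hG, hGgen, hFG, hcl, hN⟩ := exists_rclosure2 M t k (2 * w) hF hgen
  refine ⟨rtrim G w, {y | F y < G y}, {y | rtrim G w y < G y},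
    ⟨rtrim_mono G w, rtrim_gen G w, ?_⟩, hN,
    rtrim_error2 cw M t k w q hq0 hq hwL hsp hG hcl hGgen, ?_, ?_⟩
  · intro z
    obtain ⟨T, -, -, hT⟩ := exists_rtrim G w z
    rw [lev_rtrim hG, hT]
    exact dominated2 cw M t k w q hq0 hk hq hwL hsp (lev_upper hG _) (hcl T)
  · intro W hW
    exact (rtrim_le hG w W).trans (not_lt.mp hW)
  · intro y hy
    exact (hFG y).trans (not_lt.mp hy)

theorem rgood_const2 (M t k w : ℕ) (c : ℝ) : RGood2 cw M t k w (fun _ : Finset V => c) := by
  refine ⟨fun _ _ _ => le_rfl, fun y => ⟨∅, empty_subset y, by simp, rfl⟩, fun z => ?_⟩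
  have h1 : ind (lev (fun _ : Finset V => c) c) = fun _ => (1 : ℝ) := by
    funext y
    rw [ind_of_mem]
    exact le_refl c
  rw [h1, nz_pow_const]
  simp

/-- The approximation method. -/
theorem rapprox_method2 (M t k w : ℕ) (q : ℝ) (hq0 : 0 < q) (hk : 1 ≤ t * k) (hw : 1 ≤ w)
    (hq : 256 * ((M : ℝ) + 1) ≤ q) (hwL : 2 * w < 2 ^ t) (hsp : Spread cw w q) (x : Finset V)
    {s : ℕ} {C : Set ((V → Bool) → ℝ)} (hC : RComp s C) :
    ∃ N P : Set (Finset V),
      (nz M ^ (t * k)) (ind N) ∅ ≤ s * (((Fintype.card V : ℝ) + 1) ^ (2 * w) * (1 / 4 : ℝ) ^ k) ∧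
      (𝔼 y : Y, ind P (cw y)) ≤ s * (1 / 4 : ℝ) ^ w ∧
      ∀ g ∈ C, ∃ A : Finset V → ℝ, RGood2 cw M t k w A ∧
        (∀ W, W ∉ N → A W ≤ g (chi (x ∪ W))) ∧ (∀ y, y ∉ P → g (chi (x ∪ y)) ≤ A y) := by
  have hind0 : ind (∅ : Set (Finset V)) = fun _ => (0 : ℝ) := by
    funext y; rw [ind_of_notMem]; simp
  have hw1 : (1 : ℝ) ≤ w := by exact_mod_cast hw
  induction hC with
  | base =>
    refine ⟨∅, ∅, ?_, ?_, ?_⟩
    · rw [hind0, nz_pow_const]; simp
    · rw [hind0]; simp
    · rintro g (⟨v, rfl⟩ | ⟨c, rfl⟩)
      · by_cases hv : v ∈ x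
        · refine ⟨fun _ => 1, rgood_const2 cw M t k w 1, ?_, ?_⟩
          · intro W _
            have h1 : chi (x ∪ W) v = true := by simp [chi, hv]
            simp only [h1, if_true]
            exact le_rfl
          · intro y _
            show (if chi (x ∪ y) v then (1 : ℝ) else 0) ≤ 1
            split_ifs <;> norm_num
        · refine ⟨fun y => if v ∈ y then 1 else 0, ⟨?_, ?_, ?_⟩, ?_, ?_⟩
          · intro y z hyz
            show (if v ∈ y then (1 : ℝ) else 0) ≤ if v ∈ z then 1 else 0
            by_cases h : v ∈ y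
            · rw [if_pos h, if_pos (hyz h)]
            · rw [if_neg h]
              split_ifs <;> norm_num
          · intro y
            by_cases h : v ∈ y
            · exact ⟨{v}, by simpa using h, by simpa using hw, by simp [h]⟩
            · exact ⟨∅, empty_subset y, by simp, by simp [h]⟩
          · intro z
            by_cases h : v ∈ z
            · have e1 : lev (fun y : Finset V => if v ∈ y then (1 : ℝ) else 0)
                  (if v ∈ z then 1 else 0) = {y | v ∈ y} := by
                ext y
                show (if v ∈ z then (1 : ℝ) else 0) ≤ (if v ∈ y then 1 else 0) ↔ v ∈ y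
                rw [if_pos h]
                by_cases h2 : v ∈ y
                · simp [h2]
                · simp only [h2, if_false, iff_false]
                  norm_num
              show (𝔼 y : Y, ind (lev (fun y : Finset V => if v ∈ y then (1 : ℝ) else 0)
                  (if v ∈ z then 1 else 0)) (cw y)) ≤ (nz M ^ (t * k)) (ind (lev (fun y : Finset V =>
                    if v ∈ y then (1 : ℝ) else 0) (if v ∈ z then 1 else 0))) ∅
              rw [e1]
              have h1 : (𝔼 y : Y, ind {y | v ∈ y} (cw y)) ≤ 1 / q := by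
                have h2 := hsp {v} (by simp; omega)
                rw [card_singleton, pow_one] at h2
                refine le_trans (Finset.expect_le_expect fun y _ => ?_) h2
                by_cases hvy : v ∈ cw y
                · rw [ind_of_mem (show cw y ∈ {y | v ∈ y} from hvy),
                    if_pos (by simpa using hvy)]
                · rw [ind_of_notMem (show cw y ∉ {y | v ∈ y} from hvy)]
                  split_ifs <;> norm_num
              have h3 : (1 : ℝ) / (M + 1) ≤ nz M (ind {y | v ∈ y}) ∅ := by
                have h4 := expect_subset_zset M ({v} : Finset V)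
                rw [card_singleton, pow_one] at h4
                rw [← h4, nz_apply]
                refine Finset.expect_le_expect fun ω _ => ?_
                by_cases hvz : ({v} : Finset V) ⊆ zset M ω
                · rw [if_pos hvz, ind_of_mem]
                  simp only [empty_union, Set.mem_ofPred_eq]
                  exact hvz (mem_singleton_self v)
                · rw [if_neg hvz]; exact ind_nonneg _ _
              have h5 : nz M (ind {y | v ∈ y}) ∅ ≤ (nz M ^ (t * k)) (ind {y | v ∈ y}) ∅ := by
                have h6 : IsUpperSet {y : Finset V | v ∈ y} := by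
                  intro a b hab ha
                  exact hab ha
                have := nz_pow_ind_mono_exp M hk h6 ∅
                rwa [pow_one] at this
              refine h1.trans (le_trans ?_ (h3.trans h5))
              apply one_div_le_one_div_of_le (by positivity)
              have : (0 : ℝ) ≤ (M : ℝ) + 1 := by positivity
              nlinarith
            · have e1 : ind (lev (fun y : Finset V => if v ∈ y then (1 : ℝ) else 0)
                  (if v ∈ z then 1 else 0)) = fun _ => (1 : ℝ) := by
                funext y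
                rw [ind_of_mem]
                show (if v ∈ z then (1 : ℝ) else 0) ≤ if v ∈ y then 1 else 0
                rw [if_neg h]
                split_ifs <;> norm_num
              show (𝔼 y : Y, ind (lev (fun y : Finset V => if v ∈ y then (1 : ℝ) else 0)
                  (if v ∈ z then 1 else 0)) (cw y)) ≤ (nz M ^ (t * k)) (ind (lev (fun y : Finset V =>
                    if v ∈ y then (1 : ℝ) else 0) (if v ∈ z then 1 else 0))) ∅
              rw [e1, nz_pow_const]
              simp
          · intro W _
            show (if v ∈ W then (1 : ℝ) else 0) ≤ if chi (x ∪ W) v then 1 else 0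
            by_cases h : v ∈ W
            · have : chi (x ∪ W) v = true := by simp [chi, h]
              rw [if_pos h, if_pos this]
            · rw [if_neg h]
              split_ifs <;> norm_num
          · intro y _
            show (if chi (x ∪ y) v then (1 : ℝ) else 0) ≤ if v ∈ y then 1 else 0
            by_cases h : v ∈ y
            · rw [if_pos h]
              split_ifs <;> norm_num
            · have : chi (x ∪ y) v = false := by simp [chi, h, hv]
              rw [this, if_neg h]
              norm_num
      · exact ⟨fun _ => c, rgood_const2 cw M t k w c, fun W _ => le_rfl, fun y _ => le_rfl⟩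
  | @gate s C f g φ _ hf hg ih =>
    obtain ⟨N, P, hN, hP, hA⟩ := ih
    obtain ⟨A, ⟨hA1, hA2, _⟩, hA4, hA5⟩ := hA f hf
    obtain ⟨B, ⟨hB1, hB2, _⟩, hB4, hB5⟩ := hA g hg
    have hmono : Monotone fun y : Finset V => φ (A y, B y) :=
      fun y z hyz => φ.monotone ⟨hA1 hyz, hB1 hyz⟩
    have hgen : RGen (2 * w) fun y : Finset V => φ (A y, B y) := by
      intro y
      obtain ⟨T1, h1, h2, h3⟩ := hA2 y
      obtain ⟨T2, h4, h5, h6⟩ := hB2 y
      have e1 : A (T1 ∪ T2) = A y := le_antisymm (hA1 (union_subset h1 h4)) (by
        rw [← h3]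
        exact hA1 subset_union_left)
      have e2 : B (T1 ∪ T2) = B y := le_antisymm (hB1 (union_subset h1 h4)) (by
        rw [← h6]
        exact hB1 subset_union_right)
      refine ⟨T1 ∪ T2, union_subset h1 h4, ?_, ?_⟩
      · have := card_union_le T1 T2
        omega
      · simp only [e1, e2]
    obtain ⟨A', N', P', h1, h2, h3, h4, h5⟩ :=
      rgate_approx2 cw M t k w q hq0 hk hq hwL hsp hmono hgen
    refine ⟨N ∪ N', P ∪ P', ?_, ?_, ?_⟩
    · have := nz_pow_union M (t * k) N N' (∅ : Finset V)
      push_cast
      linarith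
    · have := expect_union cw P P'
      push_cast
      linarith
    · rintro a (rfl | ha)
      · refine ⟨A', h1, ?_, ?_⟩
        · intro W hW
          refine (h4 W (fun h => hW (Or.inr h))).trans (φ.monotone ⟨?_, ?_⟩)
          · exact hA4 W (fun h => hW (Or.inl h))
          · exact hB4 W (fun h => hW (Or.inl h))
        · intro y hy
          refine le_trans (φ.monotone ⟨?_, ?_⟩) (h5 y (fun h => hy (Or.inr h)))
          · exact hA5 y (fun h => hy (Or.inl h))
          · exact hB5 y (fun h => hy (Or.inl h))
      · obtain ⟨D, hD1, hD2, hD3⟩ := hA a ha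
        exact ⟨D, hD1, fun W hW => hD2 W (fun h => hW (Or.inl h)),
          fun y hy => hD3 y (fun h => hy (Or.inl h))⟩

/-- **Domination**, for thresholds of monotone real computations. -/
theorem rdomination2 (M t k w : ℕ) (q : ℝ) (hq0 : 0 < q) (hk : 1 ≤ t * k) (hw : 1 ≤ w)
    (hq : 256 * ((M : ℝ) + 1) ≤ q) (hwL : 2 * w < 2 ^ t) (hsp : Spread cw w q)
    (hkw : ((Fintype.card V : ℝ) + 1) ^ (2 * w) * (1 / 4 : ℝ) ^ k ≤ (1 / 4 : ℝ) ^ w)
    {s : ℕ} {C : Set ((V → Bool) → ℝ)} (hC : RComp s C) {g : (V → Bool) → ℝ} (hg : g ∈ C)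
    (ψ : ℝ →o Bool) {h : (V → Bool) → Bool} (hψ : ∀ z, h z = ψ (g z)) (x : Finset V) :
    (𝔼 y : Y, ind (tset h) (x ∪ cw y)) ≤ (nz M ^ (t * k)) (ind (tset h)) x
      + s * (2 * (1 / 4 : ℝ) ^ w) := by
  obtain ⟨N, P, hN, hP, hA⟩ := rapprox_method2 cw M t k w q hq0 hk hw hq hwL hsp x hC
  obtain ⟨A, ⟨_, _, hA3⟩, hA4, hA5⟩ := hA g hg
  -- the level set of the approximator
  obtain ⟨S, hS, hSdom⟩ : ∃ S : Set (Finset V), (∀ y, ψ (A y) = true ↔ y ∈ S) ∧
      (𝔼 y : Y, ind S (cw y)) ≤ (nz M ^ (t * k)) (ind S) ∅ := by
    rcases thr_levels A ψ with h0 | ⟨z, hz⟩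
    · refine ⟨∅, fun y => by simp [h0 y], ?_⟩
      have hind0 : ind (∅ : Set (Finset V)) = fun _ => (0 : ℝ) := by
        funext y; rw [ind_of_notMem]; simp
      rw [hind0, nz_pow_const]
      simp
    · exact ⟨_, hz, hA3 z⟩
  have hup : ∀ y, y ∉ P → x ∪ y ∈ tset h → y ∈ S := by
    intro y hy hyh
    rw [← hS]
    have h1 : h (chi (x ∪ y)) = true := hyh
    rw [hψ] at h1
    have h2 := ψ.monotone (hA5 y hy)
    rw [h1] at h2
    exact Bool.eq_true_of_true_le h2
  have hdn : ∀ W, W ∉ N → W ∈ S → x ∪ W ∈ tset h := by
    intro W hW hWS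
    rw [← hS] at hWS
    have h2 := ψ.monotone (hA4 W hW)
    rw [hWS] at h2
    show h (chi (x ∪ W)) = true
    rw [hψ]
    exact Bool.eq_true_of_true_le h2
  have h1 : (𝔼 y : Y, ind (tset h) (x ∪ cw y))
      ≤ (𝔼 y : Y, ind S (cw y)) + (𝔼 y : Y, ind P (cw y)) := by
    rw [← Finset.expect_add_distrib]
    refine Finset.expect_le_expect fun y _ => ?_
    by_cases h3 : x ∪ cw y ∈ tset h
    · rw [ind_of_mem h3]
      by_cases h2 : cw y ∈ P
      · rw [ind_of_mem h2]; linarith [ind_nonneg S (cw y)]
      · rw [ind_of_mem (hup _ h2 h3)]; linarith [ind_nonneg P (cw y)]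
    · rw [ind_of_notMem h3]; linarith [ind_nonneg S (cw y), ind_nonneg P (cw y)]
  have h2 : (nz M ^ (t * k)) (ind S) ∅ ≤ (nz M ^ (t * k)) (ind (tset h)) x + (nz M ^ (t * k)) (ind N) ∅ := by
    have h3 : ind S ≤ (fun W => ind (tset h) (x ∪ W)) + ind N := by
      intro W
      simp only [Pi.add_apply]
      by_cases h5 : W ∈ S
      · rw [ind_of_mem h5]
        by_cases h2 : W ∈ N
        · rw [ind_of_mem h2]; linarith [ind_nonneg (tset h) (x ∪ W)]
        · rw [ind_of_mem (hdn _ h2 h5)]; linarith [ind_nonneg N W]
      · rw [ind_of_notMem h5]; linarith [ind_nonneg (tset h) (x ∪ W), ind_nonneg N W]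
    have h4 := nz_pow_mono M (t * k) h3 ∅
    rw [map_add] at h4
    simp only [Pi.add_apply] at h4
    rwa [nz_pow_shift, union_empty] at h4
  have h5 : (s : ℝ) * (((Fintype.card V : ℝ) + 1) ^ (2 * w) * (1 / 4 : ℝ) ^ k)
      ≤ s * (1 / 4 : ℝ) ^ w := mul_le_mul_of_nonneg_left hkw (by positivity)
  linarith

end dist

end Pool.Agent.RC
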