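import Pool.Agent.RC.Event
import Pool.Agent.NTN.Dual

/-!
# Duality for real circuits
-/

set_option autoImplicit false

namespace Pool.Agent.RC

open Pool.Agent.NegLim Pool.Agent.NTR Pool.Agent.NTN

variable {V : Type}

/-- The dual of a monotone function of two real numbers. -/
noncomputable def dualPhi (φ : ℝ × ℝ →o ℝ) : ℝ × ℝ →o ℝ where
  toFun p := 1 - φ (1 - p.1, 1 - p.2)
  monotone' := by
    intro p q hpq
    have h : φ (1 - q.1, 1 - q.2) ≤ φ (1 - p.1, 1 - p.2) :=
      φ.monotone ⟨sub_le_sub_left hpq.1 1, sub_le_sub_left hpq.2 1⟩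
    exact sub_le_sub_left h 1

/-- The dual of a monotone function of a real number with the values `0, 1`. -/
noncomputable def dualPsi (ψ : ℝ →o Bool) : ℝ →o Bool where
  toFun t := !ψ (1 - t)
  monotone' := by
    intro a b hab
    have h : ψ (1 - b) ≤ ψ (1 - a) := ψ.monotone (sub_le_sub_left hab 1)
    show (!ψ (1 - a)) ≤ !ψ (1 - b)
    revert h
    cases ψ (1 - a) <;> cases ψ (1 - b) <;> decide

theorem dualPhi_val (φ : ℝ × ℝ →o ℝ) (a b : ℝ) : dualPhi φ (1 - a, 1 - b) = 1 - φ (a, b) := by
  show 1 - φ (1 - (1 - a), 1 - (1 - b)) = _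
  rw [sub_sub_cancel, sub_sub_cancel]

theorem dualPsi_val (ψ : ℝ →o Bool) (a : ℝ) : dualPsi ψ (1 - a) = !ψ a := by
  show (!ψ (1 - (1 - a))) = _
  rw [sub_sub_cancel]

/-- The dual gate, if `n` gates have been computed before. -/
noncomputable def dualRGate (n : ℕ) : RGate V → RGate V
  | .mono φ a b => .mono (dualPhi φ) (dualWire n a) (dualWire n b)
  | .not ψ a => .not (dualPsi ψ) (dualWire n a)

/-- The dual circuit, if `n` gates have been computed before. -/
noncomputable def dualR : ℕ → RCircuit V → RCircuit V
  | _, [] => []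
  | n, g :: C => dualRGate n g :: dualR (n + 1) C

/-- The dual value. -/
noncomputable def flip1 (a : ℝ) : ℝ := 1 - a

theorem dualWire_wval (x : V → Bool) (l : List ℝ) (a : Wire V) :
    wval x (l.map flip1) (dualWire l.length a) = 1 - wval (fun v => !x v) l a := by
  cases a with
  | var v =>
    show (if x v = true then (1 : ℝ) else 0) = 1 - if (!x v) = true then (1 : ℝ) else 0
    cases x v <;> simp
  | const b =>
    show (if (!b) = true then (1 : ℝ) else 0) = 1 - if b = true then (1 : ℝ) else 0
    cases b <;> simp
  | gate i =>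
    by_cases h : i < l.length
    · simp only [dualWire, if_pos h, wval]
      rw [List.getD_eq_getElem _ _ (by simpa using h), List.getD_eq_getElem _ _ h,
        List.getElem_map]
      rfl
    · simp only [dualWire, if_neg h, wval]
      rw [List.getD_eq_default _ _ (not_lt.mp h)]
      norm_num

theorem dualRGate_val (x : V → Bool) (l : List ℝ) (a : RGate V) :
    (dualRGate l.length a).val x (l.map flip1) = 1 - a.val (fun v => !x v) l := by
  cases a with
  | mono φ a b =>
    show dualPhi φ (wval x (l.map flip1) (dualWire l.length a),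
      wval x (l.map flip1) (dualWire l.length b)) = _
    rw [dualWire_wval, dualWire_wval, dualPhi_val]
    rfl
  | not ψ a =>
    show (if dualPsi ψ (wval x (l.map flip1) (dualWire l.length a)) = true then (0 : ℝ) else 1)
      = 1 - if ψ (wval (fun v => !x v) l a) = true then (0 : ℝ) else 1
    rw [dualWire_wval, dualPsi_val]
    cases ψ (wval (fun v => !x v) l a) <;> simp

theorem dualR_vals (x : V → Bool) (C : RCircuit V) : ∀ l : List ℝ,
    rvals x (dualR l.length C) (l.map flip1) = (rvals (fun v => !x v) C l).map flip1 := by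
  induction C with
  | nil => intro l; rfl
  | cons a C ih =>
    intro l
    have h1 := ih (l ++ [a.val (fun v => !x v) l])
    rw [List.length_append, List.length_singleton, List.map_append, List.map_singleton] at h1
    simp only [dualR, rvals]
    rw [dualRGate_val]
    exact h1

theorem dualR_length (C : RCircuit V) : ∀ n, (dualR n C).length = C.length := by
  induction C with
  | nil => intro n; rfl
  | cons a C ih => intro n; simp [dualR, ih]

theorem dualRGate_isNot (n : ℕ) (a : RGate V) : (dualRGate n a).isNot = a.isNot := by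
  cases a <;> rfl

/-- The value of the dual circuit. -/
theorem dualR_val (C : RCircuit V) (out : Wire V) (x : V → Bool) :
    RCircuit.val (dualR 0 C) x (dualWire C.length out)
      = 1 - RCircuit.val C (fun v => !x v) out := by
  have h1 := dualR_vals x C []
  have h2 := dualWire_wval x (rvals (fun v => !x v) C []) out
  rw [rvals_length] at h2
  simp only [List.length_nil, List.map_nil, zero_add] at h1 h2
  unfold RCircuit.val
  rw [h1, h2]

theorem filter_dualR (C : RCircuit V) : ∀ (n : ℕ) (l : List ℝ),
    ((List.zip (dualR n C) (l.map flip1)).filter (fun p => p.1.isNot)).map Prod.snd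
      = (((List.zip C l).filter (fun p => p.1.isNot)).map Prod.snd).map flip1 := by
  induction C with
  | nil => intro n l; rfl
  | cons a C ih =>
    intro n l
    cases l with
    | nil => rfl
    | cons b l =>
      rw [dualR, List.map_cons, List.zip_cons_cons, List.zip_cons_cons, List.filter_cons,
        List.filter_cons, dualRGate_isNot]
      split_ifs
      · rw [List.map_cons, List.map_cons, List.map_cons, ih]
      · rw [ih]

/-- The values of the NOT gates of the dual circuit. -/
theorem dualR_notVals (C : RCircuit V) (x : V → Bool) :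
    RCircuit.notVals (dualR 0 C) x = (RCircuit.notVals C (fun v => !x v)).map flip1 := by
  have h1 := dualR_vals x C []
  simp only [List.length_nil, List.map_nil] at h1
  unfold RCircuit.notVals
  rw [h1, filter_dualR]

theorem RComp.dual {s : ℕ} {C : Set ((V → Bool) → ℝ)} (hC : RComp s C) :
    ∃ D : Set ((V → Bool) → ℝ), RComp s D ∧ ∀ f ∈ C, (fun x : V → Bool => 1 - f fun v => !x v) ∈ D := by
  induction hC with
  | base =>
    refine ⟨_, RComp.base, ?_⟩
    rintro f (⟨v, rfl⟩ | ⟨c, rfl⟩)
    · refine Or.inl ⟨v, ?_⟩
      funext x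
      show 1 - (if (!x v) = true then (1 : ℝ) else 0) = if x v = true then (1 : ℝ) else 0
      cases x v <;> simp
    · exact Or.inr ⟨1 - c, rfl⟩
  | @gate s C f g φ _ hf hg ih =>
    obtain ⟨D, hD, hCD⟩ := ih
    refine ⟨_, RComp.gate (dualPhi φ) hD (hCD f hf) (hCD g hg), ?_⟩
    rintro a (rfl | ha)
    · refine Or.inl ?_
      funext x
      exact (dualPhi_val φ _ _).symm
    · exact Or.inr (hCD a ha)

theorem RFun.dual {s : ℕ} {h : (V → Bool) → Bool} (hh : RFun s h) :
    RFun s fun x : V → Bool => !h fun v => !x v := by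
  obtain ⟨s', hs', C, hC, f, hf, ψ, hψ⟩ := hh
  obtain ⟨D, hD, hCD⟩ := hC.dual
  refine ⟨s', hs', D, hD, _, hCD f hf, dualPsi ψ, fun x => ?_⟩
  show (!h fun v => !x v) = dualPsi ψ (1 - f fun v => !x v)
  rw [hψ, dualPsi_val]

end Pool.Agent.RC
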