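import Pool.Agent.RC.Comp
import Pool.Agent.NegLim.Flips

/-!
# Boolean circuits are real circuits
-/

set_option autoImplicit false

namespace Pool.Agent.RC

open Pool.Agent.NegLim

/-- Minimum and maximum. -/
noncomputable def minGate : ℝ × ℝ →o ℝ where
  toFun p := min p.1 p.2
  monotone' := fun _ _ h => min_le_min h.1 h.2

noncomputable def maxGate : ℝ × ℝ →o ℝ where
  toFun p := max p.1 p.2
  monotone' := fun _ _ h => max_le_max h.1 h.2

/-- The real gate of a Boolean gate. -/
noncomputable def realGate {V : Type} : Gate V → RGate V
  | .and a b => .mono minGate a b
  | .or a b => .mono maxGate a b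
  | .not a => .not (thr 1) a

/-- The number `1` or `0` of a Boolean value. -/
def num (b : Bool) : ℝ := if b then 1 else 0

theorem wval_num {V : Type} (x : V → Bool) (l : List Bool) (a : Wire V) :
    wval x (l.map num) a = num (a.val x l) := by
  cases a with
  | var v => rfl
  | const b => rfl
  | gate i =>
    show (l.map num).getD i 0 = num (l.getD i false)
    rcases Nat.lt_or_ge i l.length with h | h
    · rw [List.getD_eq_getElem _ _ (by simpa using h), List.getD_eq_getElem _ _ h,
        List.getElem_map]
    · rw [List.getD_eq_default _ _ (by simpa using h), List.getD_eq_default _ _ h]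
      rfl

theorem realGate_val {V : Type} (x : V → Bool) (l : List Bool) (g : Gate V) :
    (realGate g).val x (l.map num) = num (g.val x l) := by
  cases g with
  | and a b =>
    show min (wval x _ a) (wval x _ b) = _
    rw [wval_num, wval_num]
    show min (num (a.val x l)) (num (b.val x l)) = num (a.val x l && b.val x l)
    unfold num
    rcases Bool.eq_false_or_eq_true (a.val x l) with h1 | h1 <;>
      rcases Bool.eq_false_or_eq_true (b.val x l) with h2 | h2 <;> rw [h1, h2] <;> simp
  | or a b =>
    show max (wval x _ a) (wval x _ b) = _
    rw [wval_num, wval_num]
    show max (num (a.val x l)) (num (b.val x l)) = num (a.val x l || b.val x l)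
    unfold num
    rcases Bool.eq_false_or_eq_true (a.val x l) with h1 | h1 <;>
      rcases Bool.eq_false_or_eq_true (b.val x l) with h2 | h2 <;> rw [h1, h2] <;> simp
  | not a =>
    show (if thr 1 (wval x _ a) then (0 : ℝ) else 1) = _
    rw [wval_num]
    show (if decide ((1 : ℝ) ≤ num (a.val x l)) = true then (0 : ℝ) else 1) = num (!a.val x l)
    unfold num
    rcases Bool.eq_false_or_eq_true (a.val x l) with h1 | h1 <;> rw [h1] <;> simp

theorem rvals_real {V : Type} (x : V → Bool) (C : Circuit V) (l : List Bool) :
    rvals x (C.map realGate) (l.map num) = (gateVals x C l).map num := by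
  induction C generalizing l with
  | nil => rfl
  | cons g C ih =>
    simp only [List.map_cons, rvals, gateVals]
    rw [realGate_val, ← ih]
    simp

theorem isNot_real {V : Type} (g : Gate V) : (realGate g).isNot = g.isNot := by
  cases g <;> rfl

theorem zip_filter_real {V : Type} (C : Circuit V) (l : List Bool) :
    ((List.zip (C.map realGate) (l.map num)).filter (fun p => p.1.isNot)).map Prod.snd
      = (((List.zip C l).filter (fun p => p.1.isNot)).map Prod.snd).map num := by
  induction C generalizing l with
  | nil => simp
  | cons g C ih =>
    cases l with
    | nil => simp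
    | cons b l =>
      simp only [List.map_cons, List.zip_cons_cons, List.filter_cons, isNot_real]
      cases g.isNot
      · simpa using ih l
      · simp only [if_true, List.map_cons]
        rw [ih l]

/-- **Every Boolean circuit is a real circuit** of the same size, with the same values. -/
theorem exists_real_circuit {V : Type} (C : Circuit V) :
    ∃ D : RCircuit V, D.size = C.size ∧
      (∀ x o, D.val x o = if C.val x o then 1 else 0) ∧
      ∀ x, D.notVals x = (C.notVals x).map fun b => if b then 1 else 0 := by
  refine ⟨C.map realGate, by simp [RCircuit.size, Circuit.size], fun x o => ?_, fun x => ?_⟩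
  · unfold RCircuit.val Circuit.val
    have h1 := rvals_real x C []
    simp only [List.map_nil] at h1
    rw [h1, wval_num]
    rfl
  · unfold RCircuit.notVals Circuit.notVals
    have h1 := rvals_real x C []
    simp only [List.map_nil] at h1
    rw [h1, zip_filter_real]
    rfl

end Pool.Agent.RC
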