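import Pool.Agent.RC.Comp
import Pool.Agent.NTN.AvgClass

/-!
# The event that the values of the NOT gates of a real circuit change
-/

set_option autoImplicit false

namespace Pool.Agent.RC

open Pool.Agent.NegLim Pool.Agent.NTR Pool.Agent.NTN

variable {V : Type}

theorem rvals_append (x : V → Bool) (C D : RCircuit V) (vals : List ℝ) :
    rvals x (C ++ D) vals = rvals x D (rvals x C vals) := by
  induction C generalizing vals with
  | nil => rfl
  | cons g C ih => simp only [List.cons_append, rvals, ih]

theorem rvals_length (x : V → Bool) (C : RCircuit V) (vals : List ℝ) :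
    (rvals x C vals).length = vals.length + C.length := by
  induction C generalizing vals with
  | nil => rfl
  | cons g C ih =>
    simp only [rvals, ih, List.length_append, List.length_cons, List.length_nil]
    omega

theorem rnotVals_snoc (C : RCircuit V) (a : RGate V) (x : V → Bool) :
    RCircuit.notVals (C ++ [a]) x
      = RCircuit.notVals C x ++ (if a.isNot then [a.val x (rvals x C [])] else []) := by
  unfold RCircuit.notVals
  rw [rvals_append]
  have h1 : rvals x [a] (rvals x C []) = rvals x C [] ++ [a.val x (rvals x C [])] := rfl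
  rw [h1, List.zip_append (by rw [rvals_length]; simp), List.filter_append, List.map_append]
  congr 1
  cases h : a.isNot <;> simp [h]

/-- The function computed at a wire, if `fs` lists the functions computed by the gates. -/
noncomputable def wfun (fs : List ((V → Bool) → ℝ)) : Wire V → (V → Bool) → ℝ
  | .var v => fun x => if x v then 1 else 0
  | .const b => fun _ => if b then 1 else 0
  | .gate i => fs.getD i fun _ => 0

theorem wval_wfun (fs : List ((V → Bool) → ℝ)) (z : V → Bool) (a : Wire V) :
    wval z (fs.map fun f => f z) a = wfun fs a z := by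
  cases a with
  | var v => rfl
  | const b => rfl
  | gate i =>
    show (fs.map fun f => f z).getD i 0 = (fs.getD i fun _ => 0) z
    rcases Nat.lt_or_ge i fs.length with h | h
    · rw [List.getD_eq_getElem _ _ (by simpa using h), List.getD_eq_getElem _ _ h,
        List.getElem_map]
    · rw [List.getD_eq_default _ _ (by simpa using h), List.getD_eq_default _ _ h]

theorem wfun_mem {s : ℕ} {D : Set ((V → Bool) → ℝ)} (hD : RComp s D)
    {fs : List ((V → Bool) → ℝ)} (hfs : ∀ f ∈ fs, f ∈ D) (a : Wire V) : wfun fs a ∈ D := by
  cases a with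
  | var v => exact hD.var_mem v
  | const b => exact hD.const_mem _
  | gate i =>
    show fs.getD i (fun _ => 0) ∈ D
    rcases Nat.lt_or_ge i fs.length with h | h
    · rw [List.getD_eq_getElem _ _ h]
      exact hfs _ (List.getElem_mem h)
    · rw [List.getD_eq_default _ _ h]
      exact hD.const_mem 0

/-- The maximum of a real number and a decided one. -/
noncomputable def orGate (ψ : ℝ →o Bool) : ℝ × ℝ →o ℝ where
  toFun p := max p.1 (if ψ p.2 = true then 1 else 0)
  monotone' := by
    intro p q hpq
    refine max_le_max hpq.1 ?_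
    have h1 := ψ.monotone hpq.2
    by_cases hp : ψ p.2 = true
    · have hq : ψ q.2 = true := by
        rw [hp] at h1
        exact Bool.eq_true_of_true_le h1
      rw [if_pos hp, if_pos hq]
    · rw [if_neg hp]
      split_ifs <;> norm_num

theorem orGate_val (ψ : ℝ →o Bool) {a b : ℝ} (ha : a = 0 ∨ a = 1) :
    (orGate ψ (a, b) = 0 ∨ orGate ψ (a, b) = 1) ∧
      (orGate ψ (a, b) = 1 ↔ a = 1 ∨ ψ b = true) := by
  show (max a (if ψ b = true then (1 : ℝ) else 0) = 0 ∨ max a (if ψ b = true then (1 : ℝ) else 0) = 1)
    ∧ (max a (if ψ b = true then (1 : ℝ) else 0) = 1 ↔ a = 1 ∨ ψ b = true)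
  rcases ha with rfl | rfl <;> by_cases hb : ψ b = true <;> simp [hb]

/-- **Local description.** With the NOT gates replaced by their values at `x` the circuit computes
the functions `fs`; the function `F` is `1` at `z ≥ x` if and only if the values of the NOT gates
at `z` and at `x` differ. -/
theorem rlocal (C : RCircuit V) (x : V → Bool) :
    ∃ (s : ℕ) (D : Set ((V → Bool) → ℝ)) (fs : List ((V → Bool) → ℝ)) (F : (V → Bool) → ℝ),
      s ≤ C.size ∧ RComp s D ∧ (∀ f ∈ fs, f ∈ D) ∧ F ∈ D ∧
      (∀ z, F z = 0 ∨ F z = 1) ∧
      (∀ z, x ≤ z → (F z = 1 ↔ C.notVals z ≠ C.notVals x)) ∧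
      (∀ z, x ≤ z → F z ≠ 1 → rvals z C [] = fs.map fun f => f z) := by
  induction C using List.reverseRecOn with
  | nil =>
    refine ⟨0, _, [], fun _ => 0, by simp [RCircuit.size], RComp.base, by simp,
      Or.inr ⟨0, rfl⟩, fun z => Or.inl rfl, fun z _ => ?_, fun z _ _ => rfl⟩
    simp [RCircuit.notVals]
  | append_singleton C a ih =>
    obtain ⟨s, D, fs, F, hs, hD, hfs, hF, h01, hnot, hval⟩ := ih
    have hsz : RCircuit.size (C ++ [a]) = RCircuit.size C + 1 := by simp [RCircuit.size]
    have hxF : F x ≠ 1 := fun h => (hnot x le_rfl).1 h rfl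
    have hrun : ∀ z, rvals z (C ++ [a]) [] = rvals z C [] ++ [a.val z (rvals z C [])] :=
      fun z => by rw [rvals_append]; rfl
    cases a with
    | mono φ a b =>
      refine ⟨s + 1, _, fs ++ [fun z => φ (wfun fs a z, wfun fs b z)], F, by rw [hsz]; omega,
        RComp.gate φ hD (wfun_mem hD hfs a) (wfun_mem hD hfs b), ?_, Or.inr hF, h01,
        fun z hz => ?_, fun z hz hzF => ?_⟩
      · intro f hf
        rw [List.mem_append, List.mem_singleton] at hf
        rcases hf with hf | hf
        · exact Or.inr (hfs f hf)
        · exact Or.inl hf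
      · rw [rnotVals_snoc, rnotVals_snoc]
        simp only [RGate.isNot, Bool.false_eq_true, if_false, List.append_nil]
        exact hnot z hz
      · rw [hrun z, hval z hz hzF, List.map_append, List.map_singleton]
        congr 2
        show φ (wval z _ a, wval z _ b) = _
        rw [wval_wfun, wval_wfun]
    | not ψ a =>
      have hmono : Monotone (wfun fs a) := hD.monotone _ (wfun_mem hD hfs a)
      have hnv : ∀ z, x ≤ z → F z ≠ 1 →
          (RGate.not ψ a).val z (rvals z C []) = if ψ (wfun fs a z) = true then 0 else 1 := by
        intro z hz hzF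
        rw [hval z hz hzF]
        show (if ψ (wval z _ a) = true then (0 : ℝ) else 1) = _
        rw [wval_wfun]
      have hxv := hnv x le_rfl hxF
      have hnotC : ∀ z, x ≤ z → F z ≠ 1 → RCircuit.notVals C z = RCircuit.notVals C x := by
        intro z hz hzF
        by_contra h
        exact hzF ((hnot z hz).2 h)
      by_cases hx : ψ (wfun fs a x) = true
      · have hz1 : ∀ z, x ≤ z → ψ (wfun fs a z) = true := fun z hz => by
          have h1 := ψ.monotone (hmono hz)
          rw [hx] at h1
          exact Bool.eq_true_of_true_le h1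
        refine ⟨s, D, fs ++ [fun _ => 0], F, by rw [hsz]; omega, hD, ?_, hF, h01,
          fun z hz => ?_, fun z hz hzF => ?_⟩
        · intro f hf
          rw [List.mem_append, List.mem_singleton] at hf
          rcases hf with hf | hf
          · exact hfs f hf
          · rw [hf]
            exact hD.const_mem 0
        · rw [rnotVals_snoc, rnotVals_snoc]
          simp only [RGate.isNot, if_true]
          constructor
          · intro h h2
            exact (hnot z hz).1 h (List.append_inj' h2 rfl).1
          · intro h
            by_contra hzF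
            apply h
            rw [hnotC z hz hzF, hnv z hz hzF, hxv, if_pos (hz1 z hz), if_pos hx]
        · rw [hrun z, hnv z hz hzF, hval z hz hzF, List.map_append, List.map_singleton,
            if_pos (hz1 z hz)]
      · refine ⟨s + 1, _, fs ++ [fun _ => 1], fun z => orGate ψ (F z, wfun fs a z),
          by rw [hsz]; omega, RComp.gate (orGate ψ) hD hF (wfun_mem hD hfs a), ?_, Or.inl rfl,
          fun z => (orGate_val ψ (h01 z)).1, fun z hz => ?_, fun z hz hzF => ?_⟩
        · intro f hf
          rw [List.mem_append, List.mem_singleton] at hf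
          rcases hf with hf | hf
          · exact Or.inr (hfs f hf)
          · rw [hf]
            exact Or.inr (hD.const_mem 1)
        · rw [(orGate_val ψ (h01 z)).2, rnotVals_snoc, rnotVals_snoc]
          simp only [RGate.isNot, if_true]
          rw [hxv, if_neg hx]
          constructor
          · rintro (h | h) h2
            · exact (hnot z hz).1 h (List.append_inj' h2 rfl).1
            · have h3 := List.append_inj' h2 rfl
              have hzF : F z ≠ 1 := fun h4 => (hnot z hz).1 h4 h3.1
              have h4 := h3.2
              rw [hnv z hz hzF, if_pos h] at h4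
              simp at h4
          · intro h
            by_contra hcon
            rw [not_or] at hcon
            apply h
            rw [hnotC z hz hcon.1, hnv z hz hcon.1, if_neg hcon.2]
        · rw [Ne, (orGate_val ψ (h01 z)).2, not_or] at hzF
          rw [hrun z, hnv z hz hzF.1, hval z hz hzF.1, List.map_append, List.map_singleton,
            if_neg hzF.2]

/-- The values only grow as long as the NOT gates keep their values. -/
theorem rval_le_of_notVals (C : RCircuit V) {x z : V → Bool} (hxz : x ≤ z)
    (h : C.notVals z = C.notVals x) (a : Wire V) : C.val x a ≤ C.val z a := by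
  obtain ⟨s, D, fs, F, -, hD, hfs, -, -, hnot, hval⟩ := rlocal C x
  have hxF : F x ≠ 1 := fun h1 => (hnot x le_rfl).1 h1 rfl
  have hzF : F z ≠ 1 := fun h1 => (hnot z hxz).1 h1 h
  unfold RCircuit.val
  rw [hval x le_rfl hxF, hval z hxz hzF, wval_wfun, wval_wfun]
  exact hD.monotone _ (wfun_mem hD hfs a) hxz

/-- The event that the values of the NOT gates or the output change. -/
theorem rlocal_out (C : RCircuit V) (x : V → Bool) (out : Wire V) (ψ : ℝ →o Bool) :
    ∃ H : (V → Bool) → Bool, RFun (C.size + 1) H ∧ ∀ z, x ≤ z → (H z = true ↔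
      (C.notVals z, ψ (C.val z out)) ≠ (C.notVals x, ψ (C.val x out))) := by
  obtain ⟨s, D, fs, F, hs, hD, hfs, hF, h01, hnot, hval⟩ := rlocal C x
  have hxF : F x ≠ 1 := fun h1 => (hnot x le_rfl).1 h1 rfl
  have hmono : Monotone (wfun fs out) := hD.monotone _ (wfun_mem hD hfs out)
  have hv : ∀ z, x ≤ z → F z ≠ 1 → C.val z out = wfun fs out z := by
    intro z hz hzF
    unfold RCircuit.val
    rw [hval z hz hzF, wval_wfun]
  have hxv := hv x le_rfl hxF
  have hle : ∀ {a : ℝ}, (a = 0 ∨ a = 1) → (thr 1 a = true ↔ a = 1) := by
    intro a ha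
    rw [thr_iff]
    rcases ha with rfl | rfl <;> norm_num
  have hnotC : ∀ z, x ≤ z → F z ≠ 1 → C.notVals z = C.notVals x := by
    intro z hz hzF
    by_contra h
    exact hzF ((hnot z hz).2 h)
  by_cases hx : ψ (wfun fs out x) = true
  · have hz1 : ∀ z, x ≤ z → ψ (wfun fs out z) = true := fun z hz => by
      have h1 := ψ.monotone (hmono hz)
      rw [hx] at h1
      exact Bool.eq_true_of_true_le h1
    refine ⟨fun z => thr 1 (F z), ⟨s, by omega, D, hD, F, hF, thr 1, fun z => rfl⟩,
      fun z hz => ?_⟩
    rw [hle (h01 z)]
    constructor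
    · intro h h2
      exact (hnot z hz).1 h (Prod.ext_iff.mp h2).1
    · intro h
      by_contra hzF
      apply h
      rw [hnotC z hz hzF, hv z hz hzF, hxv, hz1 z hz, hx]
  · refine ⟨fun z => thr 1 (orGate ψ (F z, wfun fs out z)), ⟨s + 1, by omega, _,
      RComp.gate (orGate ψ) hD hF (wfun_mem hD hfs out), _, Or.inl rfl, thr 1, fun z => rfl⟩,
      fun z hz => ?_⟩
    rw [hle (orGate_val ψ (h01 z)).1, (orGate_val ψ (h01 z)).2]
    constructor
    · rintro (h | h) h2
      · exact (hnot z hz).1 h (Prod.ext_iff.mp h2).1
      · have h3 := Prod.ext_iff.mp h2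
        have hzF : F z ≠ 1 := fun h4 => (hnot z hz).1 h4 h3.1
        have h4 := h3.2
        simp only at h4
        rw [hv z hz hzF, hxv, h] at h4
        exact hx h4.symm
    · intro h
      by_contra hcon
      rw [not_or] at hcon
      apply h
      rw [hnotC z hz hcon.1, hv z hz hcon.1, hxv]
      rw [Bool.not_eq_true] at hx
      have h5 := hcon.2
      rw [Bool.not_eq_true] at h5
      rw [hx, h5]

open Classical in
/-- **The event that the state changes inside a block.** -/
theorem revent {ι β : Type} {r : ℕ} (C : RCircuit ι) (out : Wire ι) (ψ : ℝ →o Bool)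
    (φ : ι → (Fin r × β) ⊕ Bool) (i : Fin r) (X : Fin r × β → Bool)
    (hX : ∀ e, X (i, e) = false) :
    ∃ H : (β → Bool) → Bool, RFun (C.size + 1) H ∧ ∀ u, H u = true ↔
      (C.notVals (fun v => Sum.elim (put X i u) id (φ v)),
        ψ (C.val (fun v => Sum.elim (put X i u) id (φ v)) out))
      ≠ (C.notVals (fun v => Sum.elim X id (φ v)),
        ψ (C.val (fun v => Sum.elim X id (φ v)) out)) := by
  obtain ⟨H, hH, h1⟩ := rlocal_out C (fun v => Sum.elim X id (φ v)) out ψ
  let σ : ι → Lit β := fun v => match φ v with
    | .inl (j, b) => if j = i then .var b else .const (X (j, b))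
    | .inr c => .const c
  have hσ : ∀ (u : β → Bool) (v : ι), (σ v).val u = Sum.elim (put X i u) id (φ v) := by
    intro u v
    show (match φ v with
      | .inl (j, b) => if j = i then Lit.var b else Lit.const (X (j, b))
      | .inr c => Lit.const c : Lit β).val u = _
    rcases φ v with ⟨j, b⟩ | c
    · show (if j = i then Lit.var b else Lit.const (X (j, b)) : Lit β).val u = put X i u (j, b)
      unfold put
      by_cases hj : j = i
      · rw [if_pos hj, if_pos hj]
        rfl
      · rw [if_neg hj, if_neg hj]
        rfl
    · rfl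
  refine ⟨_, hH.subst σ, fun u => ?_⟩
  have e : (fun v => (σ v).val u) = fun v => Sum.elim (put X i u) id (φ v) :=
    funext fun v => hσ u v
  rw [e]
  refine h1 _ fun v => ?_
  show Sum.elim X id (φ v) ≤ Sum.elim (put X i u) id (φ v)
  rcases φ v with ⟨j, b⟩ | c
  · show X (j, b) ≤ put X i u (j, b)
    unfold put
    by_cases hj : j = i
    · subst hj
      rw [hX b]
      exact Bool.false_le _
    · rw [if_neg (by exact hj)]
  · exact le_refl _

end Pool.Agent.RC
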