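import Pool.Agent.RC.Event
import Pool.Agent.NTR.FreeNots

/-!
# Few NOT gates which depend on `U` change rarely on `U`: real circuits
-/

set_option autoImplicit false

namespace Pool.Agent.RC

open Pool.Agent.NegLim Pool.Agent.NTR Finset

variable {V : Type}

theorem wval_le {x y : V → Bool} (h : x ≤ y) {l l' : List ℝ}
    (hl : List.Forall₂ (· ≤ ·) l l') (a : Wire V) : wval x l a ≤ wval y l' a := by
  cases a with
  | var v =>
    show (if x v = true then (1 : ℝ) else 0) ≤ if y v = true then 1 else 0
    by_cases hx : x v = true
    · have hy : y v = true := by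
        have h2 := h v
        rw [hx] at h2
        exact Bool.eq_true_of_true_le h2
      rw [if_pos hx, if_pos hy]
    · rw [if_neg hx]
      split_ifs <;> norm_num
  | const b => exact le_refl _
  | gate i =>
    show l.getD i 0 ≤ l'.getD i 0
    by_cases hi : i < l.length
    · have hi' : i < l'.length := by rw [← hl.length_eq]; exact hi
      rw [List.getD_eq_getElem _ _ hi, List.getD_eq_getElem _ _ hi']
      exact (List.forall₂_iff_get.1 hl).2 i hi hi'
    · have hi' : ¬ i < l'.length := by rw [← hl.length_eq]; exact hi
      rw [List.getD_eq_default _ _ (not_lt.mp hi), List.getD_eq_default _ _ (not_lt.mp hi')]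

/-- The first NOT gate whose value differs at `x ≤ y` goes from `1` to `0`. -/
theorem rnotVals_first (C : RCircuit V) {x y : V → Bool} (h : x ≤ y) :
    (RCircuit.notVals C x = RCircuit.notVals C y ∧
      List.Forall₂ (· ≤ ·) (rvals x C []) (rvals y C [])) ∨
    ∃ i : ℕ, (∀ j : ℕ, j < i → (RCircuit.notVals C x)[j]? = (RCircuit.notVals C y)[j]?) ∧
      (RCircuit.notVals C x)[i]? = some 1 ∧ (RCircuit.notVals C y)[i]? = some 0 := by
  induction C using List.reverseRecOn with
  | nil => exact Or.inl ⟨rfl, List.Forall₂.nil⟩
  | append_singleton C a ih =>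
    rcases ih with ⟨h1, h2⟩ | ⟨i, h1, h2, h3⟩
    · have hg : ∀ z : V → Bool, rvals z (C ++ [a]) [] =
          rvals z C [] ++ [a.val z (rvals z C [])] := fun z => by rw [rvals_append]; rfl
      cases a with
      | mono φ b c =>
        refine Or.inl ⟨?_, ?_⟩
        · rw [rnotVals_snoc, rnotVals_snoc, h1]
          simp [RGate.isNot]
        · rw [hg, hg]
          refine List.rel_append h2 (List.Forall₂.cons ?_ List.Forall₂.nil)
          exact φ.monotone ⟨wval_le h h2 b, wval_le h h2 c⟩
      | not ψ b =>
        have hb := ψ.monotone (wval_le h h2 b)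
        by_cases he : ψ (wval x (rvals x C []) b) = ψ (wval y (rvals y C []) b)
        · have e : (RGate.not ψ b).val x (rvals x C []) = (RGate.not ψ b).val y (rvals y C []) := by
            show (if ψ (wval x (rvals x C []) b) = true then (0 : ℝ) else 1)
              = if ψ (wval y (rvals y C []) b) = true then (0 : ℝ) else 1
            rw [he]
          refine Or.inl ⟨?_, ?_⟩
          · rw [rnotVals_snoc, rnotVals_snoc, h1, e]
          · rw [hg, hg]
            exact List.rel_append h2 (List.Forall₂.cons (le_of_eq e) List.Forall₂.nil)
        · have hx : ψ (wval x (rvals x C []) b) = false := by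
            cases hx : ψ (wval x (rvals x C []) b)
            · rfl
            · rw [hx] at hb he
              exact absurd (top_le_iff.mp hb).symm he
          have hy : ψ (wval y (rvals y C []) b) = true := by
            cases hy : ψ (wval y (rvals y C []) b)
            · rw [hx, hy] at he
              exact absurd rfl he
            · rfl
          have ex : (RGate.not ψ b).val x (rvals x C []) = 1 := by
            show (if ψ (wval x (rvals x C []) b) = true then (0 : ℝ) else 1) = 1
            rw [hx]
            simp
          have ey : (RGate.not ψ b).val y (rvals y C []) = 0 := by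
            show (if ψ (wval y (rvals y C []) b) = true then (0 : ℝ) else 1) = 0
            rw [hy]
            simp
          refine Or.inr ⟨(RCircuit.notVals C x).length, ?_, ?_, ?_⟩
          · intro j hj
            rw [rnotVals_snoc, rnotVals_snoc, h1]
            rw [h1] at hj
            rw [List.getElem?_append_left hj, List.getElem?_append_left hj]
          · rw [rnotVals_snoc, ex]
            simp [RGate.isNot]
          · rw [rnotVals_snoc, ey, ← h1]
            simp [RGate.isNot]
    · refine Or.inr ⟨i, ?_, ?_, ?_⟩
      · intro j hj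
        have hix : i < (RCircuit.notVals C x).length := (List.getElem?_eq_some_iff.1 h2).1
        have hiy : i < (RCircuit.notVals C y).length := (List.getElem?_eq_some_iff.1 h3).1
        rw [rnotVals_snoc, rnotVals_snoc, List.getElem?_append_left (hj.trans hix),
          List.getElem?_append_left (hj.trans hiy)]
        exact h1 j hj
      · rw [rnotVals_snoc, List.getElem?_append_left (List.getElem?_eq_some_iff.1 h2).1]
        exact h2
      · rw [rnotVals_snoc, List.getElem?_append_left (List.getElem?_eq_some_iff.1 h3).1]
        exact h3

/-- A potential bounds the number of changes. -/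
theorem changesOn_pot {W : Type} {U : Finset V} {w : (V → Bool) → W} (P : (V → Bool) → ℕ) {r : ℕ}
    (hP : ∀ x, P x < r)
    (hstep : ∀ x y : V → Bool, x ≤ y → (∀ v, v ∉ U → x v = y v) →
      P y ≤ P x ∧ (w x ≠ w y → P y < P x)) : ChangesOn U w r := by
  classical
  intro x hx hU n
  have hst : ∀ k, P (x (k + 1)) ≤ P (x k) ∧ (w (x k) ≠ w (x (k + 1)) → P (x (k + 1)) < P (x k)) :=
    fun k => hstep _ _ (hx (Nat.le_succ k)) fun v hv => (hU k v hv).trans (hU (k + 1) v hv).symm
  have key : ∀ m, {k | k < m ∧ w (x k) ≠ w (x (k + 1))}.ncard + P (x m) ≤ P (x 0) := by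
    intro m
    induction m with
    | zero => simp
    | succ m ih =>
      by_cases hm : w (x m) ≠ w (x (m + 1))
      · have h1 : {k | k < m + 1 ∧ w (x k) ≠ w (x (k + 1))} =
            insert m {k | k < m ∧ w (x k) ≠ w (x (k + 1))} := by
          ext k
          simp only [Set.mem_ofPred_eq, Set.mem_insert_iff]
          constructor
          · rintro ⟨h2, h3⟩
            rcases Nat.lt_succ_iff_lt_or_eq.1 h2 with h4 | h4
            · exact Or.inr ⟨h4, h3⟩
            · exact Or.inl h4
          · rintro (rfl | h2)
            · exact ⟨Nat.lt_succ_self _, hm⟩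
            · exact ⟨h2.1.trans (Nat.lt_succ_self _), h2.2⟩
        have h2 := Set.ncard_insert_le m {k | k < m ∧ w (x k) ≠ w (x (k + 1))}
        rw [← h1] at h2
        have h3 := (hst m).2 hm
        omega
      · have h1 : {k | k < m + 1 ∧ w (x k) ≠ w (x (k + 1))} =
            {k | k < m ∧ w (x k) ≠ w (x (k + 1))} := by
          ext k
          simp only [Set.mem_ofPred_eq]
          constructor
          · rintro ⟨h2, h3⟩
            rcases Nat.lt_succ_iff_lt_or_eq.1 h2 with h4 | h4
            · exact ⟨h4, h3⟩
            · rw [h4] at h3
              exact absurd h3 hm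
          · rintro ⟨h2, h3⟩
            exact ⟨h2.trans (Nat.lt_succ_self _), h3⟩
        rw [h1]
        have h3 := (hst m).1
        omega
  have h1 := key n
  have h2 := hP (x 0)
  show {k | k < n ∧ w (x k) ≠ w (x (k + 1))}.ncard < r
  omega

open Classical in
/-- If all NOT gates but the ones numbered by `J` do not depend on the variables in `U`, then the
values of the NOT gates change fewer than `2 ^ |J|` times along every increasing sequence of inputs
which agree outside `U`. -/
theorem rchangesOn_free (C : RCircuit V) (U : Finset V) (J : Finset ℕ)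
    (hJ : ∀ i, i ∉ J → ∀ x y : V → Bool, (∀ v, v ∉ U → x v = y v) →
      (C.notVals x)[i]? = (C.notVals y)[i]?) {r : ℕ} (hr : 2 ^ J.card ≤ r) :
    ChangesOn U (fun x => C.notVals x) r := by
  refine changesOn_pot
    (fun x => pot J fun i => decide (((RCircuit.notVals C x)[i]?).getD 0 = 1))
    (fun x => (pot_lt J _).trans_le hr) fun x y hxy hU => ?_
  rcases rnotVals_first C hxy with ⟨h1, -⟩ | ⟨i, h1, h2, h3⟩
  · refine ⟨?_, fun h => absurd h1 h⟩
    rw [h1]
  · have hiJ : i ∈ J := by
      by_contra hi
      have := hJ i hi x y hU
      rw [h2, h3] at this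
      simp at this
    have hlt : pot J (fun i => decide (((RCircuit.notVals C y)[i]?).getD 0 = 1)) <
        pot J fun i => decide (((RCircuit.notVals C x)[i]?).getD 0 = 1) := by
      refine pot_step J _ _ i hiJ (fun j hj => ?_) ?_ ?_
      · rw [h1 j hj]
      · rw [h2]
        simp
      · rw [h3]
        simp
    exact ⟨hlt.le, fun _ => hlt⟩

end Pool.Agent.RC
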