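import Pool.Agent.RC.HiddenReal
import Pool.Agent.NTR.AvgPlain
import Pool.Agent.NTN.AvgClass

/-!
# Real monotone circuits: hard distributions and disjunctions
-/

set_option autoImplicit false

namespace Pool.Agent.RC.Avg

open Pool.Agent.NegLim Finset
open scoped BigOperators

/-- the sum of a real number and a decision, monotone in both -/
private noncomputable def addDec (ψ : ℝ →o Bool) : ℝ × ℝ →o ℝ where
  toFun p := p.1 + if ψ p.2 then 1 else 0
  monotone' := by
    intro p q hpq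
    have h1 : p.1 ≤ q.1 := hpq.1
    have h2 : ψ p.2 ≤ ψ q.2 := ψ.monotone hpq.2
    show (p.1 + if ψ p.2 then (1 : ℝ) else 0) ≤ q.1 + if ψ q.2 then (1 : ℝ) else 0
    have h3 : (if ψ p.2 then (1 : ℝ) else 0) ≤ if ψ q.2 then (1 : ℝ) else 0 := by
      cases hp : ψ p.2 <;> cases hq : ψ q.2
      · simp
      · simp
      · rw [hp, hq] at h2
        exact absurd h2 (by decide)
      · simp
    linarith

/-- the number of functions of a list which are `1`, as a real function -/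
private theorem count_comp {β : Type} {Z : ℕ} (L : List ((β → Bool) → Bool))
    (hL : ∀ H ∈ L, RFun Z H) : ∃ s ≤ L.length * (Z + 1), ∃ C, RComp s C ∧
      (fun u => ((L.countP (fun H => H u) : ℕ) : ℝ)) ∈ C := by
  induction L with
  | nil =>
    refine ⟨0, Nat.zero_le _, _, RComp.base, Or.inr ⟨0, ?_⟩⟩
    funext u
    simp
  | cons H L ih =>
    obtain ⟨s, hs, C, hC, hf⟩ := ih fun H' hH' => hL H' (List.mem_cons_of_mem _ hH')
    obtain ⟨s', hs', C', hC', f, hf', ψ, hψ⟩ := hL H List.mem_cons_self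
    obtain ⟨E, hE, h1, h2⟩ := hC.append hC'
    refine ⟨s + s' + 1, ?_, _, RComp.gate (addDec ψ) hE (h1 hf) (h2 hf'), Or.inl ?_⟩
    · rw [List.length_cons, Nat.add_mul]
      omega
    · funext u
      show ((List.countP (fun H => H u) (H :: L) : ℕ) : ℝ) =
        (L.countP (fun H => H u) : ℝ) + if ψ (f u) then 1 else 0
      rw [List.countP_cons, ← hψ u]
      push_cast
      split_ifs <;> simp

/-- a threshold of a list of functions -/
theorem rfun_thresh {β : Type} {Z : ℕ} (L : List ((β → Bool) → Bool)) (hL : ∀ H ∈ L, RFun Z H)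
    (θ : ℕ) (g : (β → Bool) → Bool) (hg : ∀ u, g u = true ↔ θ ≤ L.countP (fun H => H u)) :
    RFun (L.length * (Z + 1)) g := by
  obtain ⟨s, hs, C, hC, hf⟩ := count_comp L hL
  refine ⟨s, hs, C, hC, _, hf, thr θ, fun u => ?_⟩
  rw [Bool.eq_iff_iff, hg, thr_iff]
  exact_mod_cast Iff.rfl

theorem rfun_const {β : Type} (Z : ℕ) (b : Bool) : RFun Z (fun _ : β → Bool => b) := by
  refine ⟨0, Nat.zero_le _, _, RComp.base, fun _ => if b then 1 else 0, Or.inr ⟨_, rfl⟩, thr 1,
    fun u => ?_⟩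
  rw [Bool.eq_iff_iff, thr_iff]
  cases b <;> norm_num

lemma sum_filter_bv' {X : Type} [Fintype X] (D : X → ℝ) (H : X → Bool) :
    ∑ u with H u = true, D u = ∑ u, D u * NTR.bv (H u) := by
  rw [Finset.sum_filter]
  refine Finset.sum_congr rfl fun u _ => ?_
  cases H u <;> simp [NTR.bv]

open Classical in
/-- **Hard distributions.** -/
theorem rhard_dist {β : Type} [Fintype β] (g : (β → Bool) → Bool) {δ : ℝ} (h0 : 0 < δ)
    (h1 : δ < 1) (k Z : ℕ) (hk : 3 * (Fintype.card β : ℝ) ≤ k * δ ^ 2)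
    (hM : ¬ RFun (k * (Z + 1)) g) :
    ∃ D₀ D₁ : (β → Bool) → ℝ, (∀ u, 0 ≤ D₀ u) ∧ ∑ u, D₀ u = 1 ∧
      (∀ u, D₀ u ≠ 0 → g u = false) ∧ (∀ u, 0 ≤ D₁ u) ∧ ∑ u, D₁ u = 1 ∧
      (∀ u, D₁ u ≠ 0 → g u = true) ∧
      ∀ H : (β → Bool) → Bool, RFun Z H →
        ∑ u with H u = true, D₁ u ≤ ∑ u with H u = true, D₀ u + δ := by
  by_contra hcon
  push Not at hcon
  have hAdv : NTR.Adv g {H | RFun Z H} δ := by
    intro D₀ D₁ e1 e2 e3 e4 e5 e6
    obtain ⟨H, e7, e9⟩ := hcon D₀ D₁ e1 e2 e3 e4 e5 e6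
    refine ⟨H, e7, ?_⟩
    rw [← sum_filter_bv', ← sum_filter_bv']
    exact e9
  have hne : (NTR.prs g).Nonempty := by
    by_contra hemp
    rw [Finset.not_nonempty_iff_eq_empty] at hemp
    have h2 : ∀ Y Z, ¬ (g Y = true ∧ g Z = false) := by
      intro Y Z hYZ
      have : (Y, Z) ∈ NTR.prs g := NTR.mem_prs.mpr hYZ
      rw [hemp] at this
      exact absurd this (Finset.notMem_empty _)
    by_cases h3 : g (fun _ => false) = true
    · refine hM ((rfun_const _ true).congr fun u => ?_)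
      by_contra h7
      exact h2 (fun _ => false) u ⟨h3, by simpa using h7⟩
    · refine hM ((rfun_const _ false).congr fun u => ?_)
      by_contra h7
      exact h2 u (fun _ => false) ⟨by simpa using h7, by simpa using h3⟩
  obtain ⟨L, θ, hL, hLS, hg⟩ := NTR.boosting h0 h1 hAdv hne k (NTR.boost_number g hne h0 h1 k hk)
  have h4 := rfun_thresh L hLS θ g hg
  rw [hL] at h4
  exact hM h4

/-- Disjunctions of few functions. -/
theorem rfun_orSet {β : Type} {S A : ℕ} {H : (β → Bool) → Bool}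
    (h : H ∈ NTN.orSet (realClass S) β A) : RFun (A * (S + 1)) H := by
  obtain ⟨Gs, h1, h2, h3⟩ := h
  obtain ⟨s', D, F, e1, e2, e3, e4, e5⟩ := RC.or_list (S := S) Gs fun G hG => by
    obtain ⟨C, out, ψ, h0, hS, hF⟩ := h2 G hG
    exact RC.rfun_of_circuit C out ψ h0 hS hF
  refine ⟨s', e1.trans (Nat.mul_le_mul_right _ h1), D, e2, F, e3, thr 1, fun u => ?_⟩
  rw [Bool.eq_iff_iff, thr_iff, h3, ← e5 u]
  rcases e4 u with h | h <;> rw [h] <;> norm_num

end Pool.Agent.RC.Avg
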