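import Pool.Agent.RC.HiddenAvgDist
import Pool.Agent.AVZ.Main

/-!
# Clique, real gates: missing edges must be seen on average

For some distribution on inputs equal outside `U`, nondeterministic circuits with real gates and few
accepting guesses which see few missing edges in `U` are right with probability close to `1 / 2`.
-/

set_option autoImplicit false

namespace Pool.Agent.RC

open Finset Pool.Agent.NegLim Pool.Agent.NTR Pool.Agent.NTR.Gen Pool.Agent.NWE Pool.Agent.GB24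
  Pool.Agent.NTN Pool.Agent.GB24.Loc Pool.Agent.AVZ
open scoped BigOperators

/-- From a lower bound for the function `g` of one block. -/
theorem hardAvg_real {ι β : Type} [Fintype ι] [DecidableEq ι] [Fintype β] {U : Finset ι}
    {r A S Z : ℕ} (hr : 1 ≤ r) (g : (β → Bool) → Bool) (f : (ι → Bool) → Prop)
    (φ : ι → (Fin r × β) ⊕ Bool) (hφ : ∀ v, v ∉ U → ∃ c, φ v = .inr c)
    (hf : ∀ y : Fin r × β → Bool, f (fun v => Sum.elim y id (φ v)) ↔
      ∀ i, g (fun b => y (i, b)) = true)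
    {δ : ℝ} (h0 : 0 < δ) (h1 : δ < 1) (k : ℕ) (hk : 3 * (Fintype.card β : ℝ) ≤ k * δ ^ 2)
    (hM : ¬ RFun (k * (Z + 1)) g) (hZ : A * (2 * S + 1) ≤ Z) :
    HardAvg f U (fun D => ∃ (C : ICircuit ι) (o : Wire ι),
      C.size ≤ S ∧ ∀ p, D p = decide (0 < (C.range p o).1)) A (δ / 2) (1 / (2 * r)) := by
  classical
  obtain ⟨D₀, D₁, d1, d2, d3, d4, d5, d6, d7⟩ := Avg.rhard_dist g h0 h1 k Z hk hM
  exact avg_sees hr (realClass (2 * S)) g f φ hφ hf D₀ D₁ d1 d2 d3 d4 d5 d6 δ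
    (fun H hH => d7 H ((Avg.rfun_orSet hH).mono hZ)) _ fun D hD => ival_lits D hD

open Classical in
/-- **Clique, real gates, on average**: every set of edges with at least `2 k` endpoints. -/
theorem rclique_avg_sees {s N k : ℕ} (hs : 1 ≤ s) (hk : 1 ≤ k) (U : Finset (Edge N))
    (hU : 2 * k ≤ (ends U).card) :
    ∃ (ρ : Edge N → Bool) (μ : (Edge N → Bool) → ℝ), (∀ x, 0 ≤ μ x) ∧ ∑ x, μ x = 1 ∧
      (∀ x, μ x ≠ 0 → ∀ v, v ∉ U → x v = ρ v) ∧
      ∀ (Y : Type) [Fintype Y] (w : ℕ) (D : Y → (Edge N → Option Bool) → Bool),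
        (∀ y, ∃ (C : ICircuit (Edge N)) (o : Wire (Edge N)),
          C.size ≤ 2 ^ s ∧ ∀ p, D y p = decide (0 < (C.range p o).1)) →
        (∀ x : Edge N → Bool, (∀ v, v ∉ U → x v = ρ v) →
          {y | D y (fun v => some (x v)) = true}.ncard ≤ 2 ^ s) →
        ∑ x with RightSees (HasClique (N / 2)) U w D x, μ x
          ≤ 1 / 2 + (1 / 2) ^ s + (w + 1) *
            ((2 ^ 122 * s ^ 4 * (Nat.log 2 s + 1) ^ 6 : ℕ) : ℝ) / k := by
  change ∃ (ρ : Edge N → Bool) (μ : (Edge N → Bool) → ℝ), (∀ x, 0 ≤ μ x) ∧ ∑ x, μ x = 1 ∧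
      (∀ x, μ x ≠ 0 → ∀ v, v ∉ U → x v = ρ v) ∧
      ∀ (Y : Type) [Fintype Y] (w : ℕ) (D : Y → (Edge N → Option Bool) → Bool),
        (∀ y, ∃ (C : ICircuit (Edge N)) (o : Wire (Edge N)),
          C.size ≤ 2 ^ s ∧ ∀ p, D y p = decide (0 < (C.range p o).1)) →
        (∀ x : Edge N → Bool, (∀ v, v ∉ U → x v = ρ v) →
          {y | D y (fun v => some (x v)) = true}.ncard ≤ 2 ^ s) →
        ∑ x with RightSees (HasClique (N / 2)) U w D x, μ x
          ≤ 1 / 2 + (1 / 2) ^ s + (w + 1) * ((ccz s : ℕ) : ℝ) / k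
  have hk0 : (0 : ℝ) < k := by exact_mod_cast hk
  rcases Nat.eq_zero_or_pos (k / ccz s) with h0 | h0
  · -- the trivial case
    have hlt : k < ccz s := by
      by_contra h
      have := Nat.div_pos (not_lt.1 h) (ccz_pos hs)
      omega
    refine ⟨fun _ => false, fun x => if x = (fun _ => false) then 1 else 0, fun x => ?_, ?_,
      fun x hx v _ => ?_, fun Y _ w D _ _ => ?_⟩
    · dsimp only
      split_ifs <;> norm_num
    · simp
    · by_cases h : x = fun _ => false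
      · rw [h]
      · exact absurd (if_neg h) hx
    · have h1 : ∑ x with RightSees (HasClique (N / 2)) U w D x,
          (if x = (fun _ => false) then (1 : ℝ) else 0) ≤ 1 := by
        refine (Finset.sum_le_sum_of_subset_of_nonneg (Finset.subset_univ _)
          fun x _ _ => ?_).trans (le_of_eq ?_)
        · split_ifs <;> norm_num
        · simp
      have h2 : (1 : ℝ) ≤ (w + 1) * ((ccz s : ℕ) : ℝ) / k := by
        rw [le_div_iff₀ hk0, one_mul]
        have h3 : (k : ℝ) ≤ ((ccz s : ℕ) : ℝ) := by exact_mod_cast hlt.le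
        have h4 : (0 : ℝ) ≤ w := Nat.cast_nonneg w
        nlinarith
      have h3 : (0 : ℝ) ≤ (1 / 2) ^ s := by positivity
      linarith
  · obtain ⟨r, hr⟩ : ∃ r, r = k / ccz s := ⟨_, rfl⟩
    rw [← hr] at h0
    have hn : 2 ≤ nsz s := by
      have := nsz_pos hs
      omega
    have h4 : 4 * (r * nsz s ^ 2) ≤ k := by
      calc 4 * (r * nsz s ^ 2) = r * (4 * nsz s ^ 2) := by ring
        _ = r * ccz s := by rw [ccz_eq]
        _ ≤ k := hr ▸ Nat.div_mul_le_self _ _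
    obtain ⟨φ, hφ1, hφ2⟩ := clique_forest_U h0 hn h4 U hU
    obtain ⟨w', hw'⟩ : ∃ w', w' = 67 * s := ⟨_, rfl⟩
    have e4 : 4 * nsz s ≤ 2 ^ w' := hw' ▸ four_nsz_le hs
    have ebig : 2 ^ 37 * (8 * w') ^ 4 * (Nat.log 2 (nsz s) + 1) ^ 6 ≤ nsz s ^ 2 :=
      hw' ▸ nsz_big hs
    have elog : Nat.log 2 (nsz s) ≤ 8 * w' := hw' ▸ log_nsz_le' hs
    obtain ⟨n, hnn⟩ : ∃ n, n = nsz s := ⟨_, rfl⟩
    have h5 : (0 : ℝ) < (1 / 2) ^ w' := by positivity
    have h6 : ((1 / 2 : ℝ)) ^ w' < 1 := pow_lt_one₀ (by norm_num) (by norm_num) (by omega)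
    have hcardR : (Fintype.card (Edge (nsz s)) : ℝ) ≤ (nsz s : ℝ) ^ 2 := by
      exact_mod_cast card_edge_le (nsz s)
    have hZ : 2 ^ s * (2 * 2 ^ s + 1) ≤ 2 ^ (4 * w') := by
      have h7 : 2 * 2 ^ s + 1 ≤ 2 ^ (s + 2) := by
        have : 1 ≤ 2 ^ s := Nat.one_le_two_pow
        rw [pow_add]
        omega
      calc 2 ^ s * (2 * 2 ^ s + 1) ≤ 2 ^ s * 2 ^ (s + 2) := Nat.mul_le_mul_left _ h7
        _ = 2 ^ (s + (s + 2)) := by rw [← pow_add]
        _ ≤ 2 ^ (4 * w') := Nat.pow_le_pow_right (by norm_num) (by omega)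
    have key := hardAvg_real (A := 2 ^ s) (S := 2 ^ s) (Z := 2 ^ (4 * w')) h0
      (fun u : Edge (nsz s) → Bool => decide (HasClique (nsz s / 2) u)) (HasClique (N / 2)) φ hφ1
      (fun y => by rw [hφ2]; simp) h5 h6 (3 * nsz s ^ 2 * 4 ^ w') (by
        have h7 : ((1 / 2 : ℝ) ^ w') ^ 2 = 1 / 4 ^ w' := by
          rw [← pow_mul, mul_comm, pow_mul, show (1 / 2 : ℝ) ^ 2 = 1 / 4 by norm_num, one_div_pow]
        rw [h7]
        push_cast
        have h8 : (3 * (nsz s : ℝ) ^ 2 * 4 ^ w') * (1 / 4 ^ w') = 3 * (nsz s : ℝ) ^ 2 := by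
          field_simp
        rw [h8]
        linarith) (by
        intro h7
        have h8 := rclique_bound (nsz s) (8 * w') (by omega) elog ebig h7 fun u => by
          rw [decide_eq_true_eq]
        have h9 := inst_numbers (nsz s) w' e4
        have h10 : 3 * nsz s ^ 2 * 4 ^ w' * (2 ^ (4 * w') + 1)
            ≤ 3 * nsz s ^ 2 * 4 ^ w' * (2 ^ (4 * w') + 2 * (3 * nsz s ^ 2 * 4 ^ w')) := by
          rcases Nat.eq_zero_or_pos (3 * nsz s ^ 2 * 4 ^ w') with h11 | h11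
          · rw [h11, zero_mul, zero_mul]
          · exact Nat.mul_le_mul_left _ (by omega)
        exact lt_irrefl _ (h8.trans_lt (h10.trans_lt h9))) hZ
    obtain ⟨ρ, μ, m1, m2, m3, m4⟩ := key
    refine ⟨ρ, μ, m1, m2, m3, fun Y _ w D hD hA => ?_⟩
    have h7 := m4 Y w D hD hA
    refine h7.trans ?_
    have h8 : (1 / 2 : ℝ) ^ w' / 2 ≤ (1 / 2) ^ s := by
      have h9 : ((1 / 2 : ℝ)) ^ w' ≤ (1 / 2) ^ s :=
        pow_le_pow_of_le_one (by norm_num) (by norm_num) (by omega)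
      linarith
    have h9 : (w : ℝ) * (1 / (2 * r)) ≤ (w + 1) * ((ccz s : ℕ) : ℝ) / k := by
      have hr0 : (0 : ℝ) < r := by exact_mod_cast h0
      have h10 : (k : ℝ) ≤ 2 * r * ((ccz s : ℕ) : ℝ) := by
        have h11 : k ≤ 2 * r * ccz s := by
          have h12 := Nat.lt_div_mul_add (a := k) (ccz_pos hs)
          rw [← hr] at h12
          have h13 : ccz s ≤ r * ccz s := Nat.le_mul_of_pos_left _ h0
          have h14 : 2 * r * ccz s = r * ccz s + r * ccz s := by ring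
          omega
        exact_mod_cast h11
      rw [mul_one_div, div_le_div_iff₀ (by positivity) hk0]
      have h11 : (0 : ℝ) ≤ w := Nat.cast_nonneg w
      have h12 : (0 : ℝ) ≤ ((ccz s : ℕ) : ℝ) := Nat.cast_nonneg _
      nlinarith [mul_le_mul_of_nonneg_left h10 h11, mul_nonneg h12 hr0.le]
    linarith

end Pool.Agent.RC
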