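import Pool.Agent.AVZ.Main
import Pool.Agent.GB24.AvgNum
import Pool.Agent.RC.HiddenRealAvg

/-!
# Clique on average: polynomial size circuits with real gates which see few missing edges
-/

set_option autoImplicit false

namespace Pool.Agent.RC

open Finset Pool.Agent.NegLim Pool.Agent.NTR Pool.Agent.NTR.Gen Pool.Agent.NWE Pool.Agent.GB24
  Pool.Agent.NTN Pool.Agent.GB24.Loc Pool.Agent.AVZ
open scoped BigOperators

open Classical in
/-- **Clique, real gates, average case**, for circuits. -/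
theorem rclique_avg_circ {s : ℕ} (hs : 1 ≤ s) {N k : ℕ} (hk : 1 ≤ k) (U : Finset (Edge N))
    (hU : 2 * k ≤ (ends U).card) :
    ∃ (ρ : Edge N → Bool) (μ : (Edge N → Bool) → ℝ), (∀ x, 0 ≤ μ x) ∧ ∑ x, μ x = 1 ∧
      (∀ x, μ x ≠ 0 → ∀ v, v ∉ U → x v = ρ v) ∧
      ∀ (Y : Type) [Fintype Y] (w : ℕ) (C : Y → ICircuit (Edge N)) (o : Y → Wire (Edge N)),
        (∀ y, (C y).size ≤ 2 ^ s) →
        (∀ x : Edge N → Bool, (∀ v, v ∉ U → x v = ρ v) →
          {y | 0 < (C y).val x (o y)}.ncard ≤ 2 ^ s) →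
        ∑ x with RightSees (HasClique (N / 2)) U w
          (fun y p => decide (0 < ((C y).range p (o y)).1)) x, μ x
          ≤ 1 / 2 + (1 / 2) ^ s
            + (w + 1) * (2 ^ 122 * s ^ 4 * (Nat.log 2 s + 1) ^ 6 : ℕ) / k := by
  obtain ⟨ρ, μ, h1, h2, h3, h4⟩ := rclique_avg_sees hs hk U hU
  refine ⟨ρ, μ, h1, h2, h3, fun Y _ w C o hC hA => ?_⟩
  have h5 : ∀ x : Edge N → Bool,
      {y | decide (0 < ((C y).range (fun v => some (x v)) (o y)).1) = true} =
        {y | 0 < (C y).val x (o y)} := by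
    intro x
    ext y
    rw [Set.mem_ofPred_eq, Set.mem_ofPred_eq, range_some]
    simp
  exact h4 Y w (fun y p => decide (0 < ((C y).range p (o y)).1))
    (fun y => ⟨C y, o y, hC y, fun _ => rfl⟩) fun x hx => by
      rw [h5 x]
      exact hA x hx

open Classical in
/-- **Polynomial size circuits with real gates for clique, average case**, any number of guesses of
which at most `N ^ c` accept an input: in every set of edges with `e ≥ (log N) ^ 5` endpoints
`e / (log N) ^ 5` missing edges must be seen, even to be right on 51% of the inputs. -/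
theorem rclique_avg_poly (c : ℕ) : ∃ N₀ : ℕ, ∀ N ≥ N₀, ∀ U : Finset (Edge N),
    Nat.log 2 N ^ 5 ≤ (ends U).card →
    ∃ (ρ : Edge N → Bool) (μ : (Edge N → Bool) → ℝ), (∀ x, 0 ≤ μ x) ∧ ∑ x, μ x = 1 ∧
      (∀ x, μ x ≠ 0 → ∀ v, v ∉ U → x v = ρ v) ∧
      ∀ (Y : Type) [Fintype Y] (C : Y → ICircuit (Edge N)) (o : Y → Wire (Edge N)),
        (∀ y, (C y).size ≤ N ^ c) →
        (∀ x : Edge N → Bool, (∀ v, v ∉ U → x v = ρ v) →
          {y | 0 < (C y).val x (o y)}.ncard ≤ N ^ c) →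
        ∑ x with RightSees (HasClique (N / 2)) U ((ends U).card / Nat.log 2 N ^ 5)
          (fun y p => decide (0 < ((C y).range p (o y)).1)) x, μ x < 51 / 100 := by
  obtain ⟨N₀, hN₀⟩ := avg_numbers c 1 1000 le_rfl (by norm_num)
  refine ⟨N₀, fun N hN U hU => ?_⟩
  obtain ⟨s, hs1, hs2, hs3, hs4⟩ := hN₀ N hN
  rw [one_mul] at hs4
  have hcc : 1 ≤ ccz s := ccz_pos hs1
  have hL : 1 ≤ Nat.log 2 N := by
    by_contra h
    have h1 : Nat.log 2 N = 0 := by omega
    rw [h1] at hs4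
    omega
  have hk : 1 ≤ (ends U).card / 2 := by omega
  obtain ⟨ρ, μ, h1, h2, h3, h4⟩ := rclique_avg_circ hs1 hk U (Nat.mul_div_le _ 2)
  exact ⟨ρ, μ, h1, h2, h3, fun Y _ C o hC hA => (h4 Y _ C o (fun y => (hC y).trans hs3)
    fun x hx => (hA x hx).trans hs3).trans_lt (avg_51 (by omega) hs4 hU hL)⟩

end Pool.Agent.RC
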