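import Pool.Agent.RC.HiddenReal
import Pool.Agent.RC.Converse

/-!
# Clique: many missing edges of EVERY set with many endpoints must be seen, real gates, polynomial
size; and every function has a circuit with `n + 1` real gates
-/

set_option autoImplicit false
set_option linter.unusedSectionVars false

namespace Pool.Agent.RC

open Finset Pool.Agent.NegLim Pool.Agent.NTR Pool.Agent.NTR.Gen Pool.Agent.NWE Pool.Agent.GB24
  Pool.Agent.NTN Pool.Agent.GB24.Loc

/-- **Polynomial size circuits with real gates for clique**: in every set of edges with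
`e ≥ (log N) ^ 5` endpoints `e / (log N) ^ 5` missing edges must be seen, even with
`e / (log N) ^ 5` guessed bits. -/
theorem rclique_poly_count (c : ℕ) : ∃ N₀ : ℕ, ∀ N ≥ N₀, ∀ U : Finset (Edge N),
    Nat.log 2 N ^ 5 ≤ (ends U).card →
    ∃ (ρ : Edge N → Bool) (M : Finset (Edge N → Bool)),
      M.Nonempty ∧ (∀ x ∈ M, HasClique (N / 2) x ∧ ∀ v, v ∉ U → x v = ρ v) ∧
      ∀ (Y : Type) [Fintype Y] (C : Y → ICircuit (Edge N)) (o : Y → Wire (Edge N)),
        Fintype.card Y ≤ 2 ^ ((ends U).card / Nat.log 2 N ^ 5) →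
        (∀ y, (C y).size ≤ N ^ c) →
        (∀ y x, (∀ v, v ∉ U → x v = ρ v) → 0 < (C y).val x (o y) → HasClique (N / 2) x) →
        N ^ c * {x | x ∈ M ∧ AccSees U ((ends U).card / Nat.log 2 N ^ 5)
          (fun y p => decide (0 < ((C y).range p (o y)).1)) x}.ncard ≤ M.card := by
  obtain ⟨L₀, hL₀1, hL₀⟩ := ccz_small (c := 2 * (c + 1)) (by omega)
  refine ⟨2 ^ (L₀ + 1), fun m hm U hU => ?_⟩
  have hm0 : m ≠ 0 := by
    have : 0 < 2 ^ (L₀ + 1) := by positivity
    omega
  set L := Nat.log 2 m with hL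
  have h1 : L₀ + 1 ≤ L := (Nat.le_log_iff_pow_le (by norm_num) hm0).2 hm
  have hmL : m < 2 ^ (L + 1) := Nat.lt_pow_succ_log_self (by norm_num) m
  set s := (c + 1) * (L + 1) with hs
  have hsL : L + 1 ≤ s := by
    rw [hs]
    exact Nat.le_mul_of_pos_left _ (Nat.succ_pos c)
  have hs1 : 1 ≤ s := by omega
  have hms : m ^ c ≤ 2 ^ s := by
    calc m ^ c ≤ (2 ^ (L + 1)) ^ c := Nat.pow_le_pow_left hmL.le c
      _ = 2 ^ ((L + 1) * c) := (pow_mul 2 _ _).symm
      _ ≤ 2 ^ s := Nat.pow_le_pow_right (by norm_num) (by rw [hs]; nlinarith)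
  have h3 : 16 * ccz s ≤ L ^ 5 := by
    have h4 := hL₀ L (by omega)
    have h5 : 2 * (c + 1) * (L + 1) = 2 * s := by rw [hs]; ring
    rw [h5] at h4
    refine le_trans ?_ h4
    have h6 : Nat.log 2 s ≤ Nat.log 2 (2 * s) := Nat.log_mono_right (by omega)
    calc 16 * ccz s = 2 ^ 122 * (2 * s) ^ 4 * (Nat.log 2 s + 1) ^ 6 := by
          unfold ccz
          ring
      _ ≤ 2 ^ 122 * (2 * s) ^ 4 * (Nat.log 2 (2 * s) + 1) ^ 6 :=
          Nat.mul_le_mul_left _ (Nat.pow_le_pow_left (by omega) 6)
      _ = ccz (2 * s) := rfl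
  set e := (ends U).card with he
  have hem : e ≤ m := by
    have := Finset.card_le_univ (ends U)
    rwa [Fintype.card_fin] at this
  have hcc : 0 < ccz s := ccz_pos hs1
  have hL5 : 0 < L ^ 5 := Nat.pow_pos (by omega)
  set w := e / L ^ 5 with hw
  have hw1 : 1 ≤ w := (Nat.one_le_div_iff hL5).2 hU
  have h7 : 8 * w ≤ e / 2 / ccz s := by
    refine (Nat.le_div_iff_mul_le hcc).2 ?_
    have h8 : w * L ^ 5 ≤ e := Nat.div_mul_le_self _ _
    have h9 : w * (16 * ccz s) ≤ e := (Nat.mul_le_mul_left _ h3).trans h8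
    have h10 : 8 * w * ccz s * 2 ≤ e := by
      calc 8 * w * ccz s * 2 = w * (16 * ccz s) := by ring
        _ ≤ e := h9
    omega
  obtain ⟨ρ, M, hM1, hM2, hM3⟩ := rclique_hidden_ends hs1 U (Nat.mul_div_le e 2)
  refine ⟨ρ, M, hM1, hM2, fun Y _ C o hY hC hsound => ?_⟩
  have h11 := hM3 Y w (fun y p => decide (0 < ((C y).range p (o y)).1))
    (fun y => ⟨C y, o y, (hC y).trans hms, fun _ => rfl⟩) (by
      intro y x hx hy
      have h6 : 0 < ((C y).range (fun v => some (x v)) (o y)).1 := by simpa using hy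
      rw [range_some] at h6
      exact hsound y x hx h6)
  change (2 ^ s) ^ (e / 2 / ccz s) * _ ≤ _ at h11
  set c₁ := {x | x ∈ M ∧ AccSees U w
    (fun y p => decide (0 < ((C y).range p (o y)).1)) x}.ncard with hc₁
  have h12 : Fintype.card Y * (e / 2 + 1) ^ w ≤ 2 ^ ((L + 2) * w) := by
    have h13 : e / 2 + 1 ≤ 2 ^ (L + 1) := by omega
    calc Fintype.card Y * (e / 2 + 1) ^ w ≤ 2 ^ w * (2 ^ (L + 1)) ^ w :=
          Nat.mul_le_mul hY (Nat.pow_le_pow_left h13 w)
      _ = 2 ^ ((L + 2) * w) := by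
          rw [← pow_mul, ← pow_add]
          congr 1
          ring
  have h14 : 2 ^ ((L + 2) * w) * 2 ^ s ≤ (2 ^ s) ^ (e / 2 / ccz s) := by
    rw [← pow_add, ← pow_mul]
    refine Nat.pow_le_pow_right (by norm_num) ?_
    have h15 : (L + 2) * w ≤ 2 * s * w := Nat.mul_le_mul_right _ (by omega)
    have h16 : s ≤ s * w := Nat.le_mul_of_pos_right _ hw1
    calc (L + 2) * w + s ≤ 2 * s * w + s * w := Nat.add_le_add h15 h16
      _ = s * (3 * w) := by ring
      _ ≤ s * (e / 2 / ccz s) := Nat.mul_le_mul_left _ (by omega)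
  have h17 : 2 ^ ((L + 2) * w) * (m ^ c * c₁) ≤ 2 ^ ((L + 2) * w) * M.card := by
    calc 2 ^ ((L + 2) * w) * (m ^ c * c₁) ≤ 2 ^ ((L + 2) * w) * (2 ^ s * c₁) :=
          Nat.mul_le_mul_left _ (Nat.mul_le_mul_right _ hms)
      _ = 2 ^ ((L + 2) * w) * 2 ^ s * c₁ := by ring
      _ ≤ (2 ^ s) ^ (e / 2 / ccz s) * c₁ := Nat.mul_le_mul_right _ h14
      _ ≤ Fintype.card Y * (e / 2 + 1) ^ w * M.card := h11
      _ ≤ 2 ^ ((L + 2) * w) * M.card := Nat.mul_le_mul_right _ h12
  exact Nat.le_of_mul_le_mul_left h17 (by positivity)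

/-! ### Every function has a circuit with `n + 1` real gates -/

section

variable {V : Type}

theorem valsR_length (x : V → Bool) (C : ICircuit V) (vals : List ℝ) :
    (valsR x C vals).length = vals.length + C.length := by
  induction C generalizing vals with
  | nil => rfl
  | cons g C ih =>
    simp only [valsR, ih, List.length_append, List.length_cons, List.length_nil]
    omega

theorem valsR_append (x : V → Bool) (C D : ICircuit V) (vals : List ℝ) :
    valsR x (C ++ D) vals = valsR x D (valsR x C vals) := by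
  induction C generalizing vals with
  | nil => rfl
  | cons g C ih => simp only [List.cons_append, valsR]; exact ih _

theorem ival_snoc (C : ICircuit V) (g : IGate V) (x : V → Bool) :
    ICircuit.val (C ++ [g]) x (.gate C.length) = g.val x (valsR x C []) := by
  have hl : (valsR x C []).length = C.length := by rw [valsR_length]; simp
  unfold ICircuit.val
  rw [valsR_append]
  simp only [valsR, wireR]
  rw [List.getD_eq_getElem _ _ (by rw [List.length_append, hl]; simp),
    List.getElem_append_right (by rw [hl])]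
  simp only [hl, Nat.sub_self, List.getElem_cons_zero]

/-- `u + c v` for a wire with the value `u` and a variable `v`. -/
noncomputable def addG (c : ℝ) (hc : 0 ≤ c) (a : Wire V) (v : V) : IGate V :=
  ⟨addMul c hc, true, true, a, .var v⟩

/-- Weighted sums of variables. -/
theorem exists_sum (c : V → ℝ) (hc : ∀ v, 0 ≤ c v) (l : List V) :
    ∃ (C : ICircuit V) (a : Wire V), C.length = l.length ∧
      (∀ x, wireR x (valsR x C []) a = (l.map fun v => c v * (if x v then 1 else 0)).sum) := by
  induction l using List.reverseRecOn with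
  | nil => exact ⟨[], .const false, rfl, fun x => by simp [wireR]⟩
  | append_singleton l v ih =>
    obtain ⟨C, a, h1, h2⟩ := ih
    refine ⟨C ++ [addG (c v) (hc v) a v], .gate C.length, by simp [h1], fun x => ?_⟩
    have h3 := ival_snoc C (addG (c v) (hc v) a v) x
    unfold ICircuit.val at h3
    rw [h3, List.map_append, List.sum_append]
    show addMul (c v) (hc v) (wireR x (valsR x C []) a, if x v then 1 else 0) = _
    rw [addMul_apply, h2 x]
    simp

/-- **Every function of `n` variables has a circuit with `n + 1` real gates.** -/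
theorem exists_ival [Fintype V] [DecidableEq V] (f : (V → Bool) → Bool) :
    ∃ (C : ICircuit V) (o : Wire V), C.size = Fintype.card V + 1 ∧
      ∀ x, C.val x o = if f x then 1 else 0 := by
  obtain ⟨C, a, h1, h2⟩ := exists_sum (fun v : V => (2 : ℝ) ^ plc v) (fun _ => by positivity)
    (univ : Finset V).toList
  have hcode : ∀ x, wireR x (valsR x C []) a = code x := by
    intro x
    rw [h2 x, Finset.sum_map_toList]
    rfl
  obtain ⟨w, hw⟩ : ∃ w : (V → Bool) → ℝ, w = fun x => -code x := ⟨_, rfl⟩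
  refine ⟨C ++ [⟨anti f code w, true, false, a, a⟩], .gate C.length, ?_, fun x => ?_⟩
  · unfold ICircuit.size
    rw [List.length_append, h1, Finset.length_toList, Finset.card_univ]
    rfl
  · rw [ival_snoc]
    show anti f code w (wireR x (valsR x C []) a, -wireR x (valsR x C []) a) = _
    rw [hcode]
    have h3 := anti_apply f w 0 (fun y => by rw [hw]; ring) x
    rw [hw] at h3
    rw [hw]
    exact h3

end

end Pool.Agent.RC
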