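import Pool.Agent.RC.HiddenReal
import Pool.Agent.GB24.HiddenFew

/-!
# Clique: nondeterministic circuits with real gates and few accepting guesses
-/

set_option autoImplicit false

namespace Pool.Agent.RC

open Finset Pool.Agent.NegLim Pool.Agent.NTR Pool.Agent.NTR.Gen Pool.Agent.NWE Pool.Agent.GB24
  Pool.Agent.NTN Pool.Agent.GB24.Loc

/-- **Clique, real gates, few accepting guesses.** -/
theorem rclique_few {s : ℕ} (hs : 1 ≤ s) {N k : ℕ} (U : Finset (Edge N))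
    (hU : 2 * k ≤ (ends U).card) :
    HardFew (HasClique (N / 2)) U
      (fun D => ∃ (C : ICircuit (Edge N)) (o : Wire (Edge N)),
        C.size ≤ 2 ^ s ∧ ∀ p, D p = decide (0 < (C.range p o).1))
      ((U.card + 1) * (k + 1)) ((2 ^ s) ^ (k / (2 ^ 122 * s ^ 4 * (Nat.log 2 s + 1) ^ 6))) :=
  (rclique_hidden_ends hs U hU).few fun D h => by
    obtain ⟨F, hF, h1⟩ := ival_lits D h
    exact ⟨F, (realClass (2 * 2 ^ s)).mono _ F hF, h1⟩

/-- **Polynomial size circuits with real gates for clique**, any number of guesses of which at most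
`N ^ c 2 ^ (e / (log N) ^ 5)` accept an input: in every set of edges with `e ≥ (log N) ^ 5` endpoints
`e / (log N) ^ 5` missing edges must be seen. -/
theorem rclique_poly_few (c : ℕ) : ∃ N₀ : ℕ, ∀ N ≥ N₀, ∀ U : Finset (Edge N),
    Nat.log 2 N ^ 5 ≤ (ends U).card →
    ∃ (ρ : Edge N → Bool) (M : Finset (Edge N → Bool)),
      M.Nonempty ∧ (∀ x ∈ M, HasClique (N / 2) x ∧ ∀ v, v ∉ U → x v = ρ v) ∧
      ∀ (Y : Type) [Fintype Y] (C : Y → ICircuit (Edge N)) (o : Y → Wire (Edge N)),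
        (∀ y, (C y).size ≤ N ^ c) →
        (∀ x, (∀ v, v ∉ U → x v = ρ v) →
          {y | 0 < (C y).val x (o y)}.ncard ≤ N ^ c * 2 ^ ((ends U).card / Nat.log 2 N ^ 5) ∧
            ∀ y, 0 < (C y).val x (o y) → HasClique (N / 2) x) →
        N ^ c * {x | x ∈ M ∧ AccSees U ((ends U).card / Nat.log 2 N ^ 5)
          (fun y p => decide (0 < ((C y).range p (o y)).1)) x}.ncard ≤ M.card := by
  obtain ⟨L₀, hL₀1, hL₀⟩ := ccz_small (c := 2 * (c + 1)) (by omega)
  refine ⟨2 ^ (L₀ + 1), fun m hm U hU => ?_⟩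
  have hm0 : m ≠ 0 := by
    have : 0 < 2 ^ (L₀ + 1) := by positivity
    omega
  set L := Nat.log 2 m with hL
  have h1 : L₀ + 1 ≤ L := (Nat.le_log_iff_pow_le (by norm_num) hm0).2 hm
  have hmL : m < 2 ^ (L + 1) := Nat.lt_pow_succ_log_self (by norm_num) m
  set s := (c + 1) * (L + 1) with hs
  have hsL : L + 1 ≤ s := by
    rw [hs]
    exact Nat.le_mul_of_pos_left _ (Nat.succ_pos c)
  have hs1 : 1 ≤ s := by omega
  have hms : m ^ c ≤ 2 ^ s := by
    calc m ^ c ≤ (2 ^ (L + 1)) ^ c := Nat.pow_le_pow_left hmL.le c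
      _ = 2 ^ ((L + 1) * c) := (pow_mul 2 _ _).symm
      _ ≤ 2 ^ s := Nat.pow_le_pow_right (by norm_num) (by rw [hs]; nlinarith)
  have h3 : 16 * ccz s ≤ L ^ 5 := by
    have h4 := hL₀ L (by omega)
    have h5 : 2 * (c + 1) * (L + 1) = 2 * s := by rw [hs]; ring
    rw [h5] at h4
    refine le_trans ?_ h4
    have h6 : Nat.log 2 s ≤ Nat.log 2 (2 * s) := Nat.log_mono_right (by omega)
    calc 16 * ccz s = 2 ^ 122 * (2 * s) ^ 4 * (Nat.log 2 s + 1) ^ 6 := by
          unfold ccz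
          ring
      _ ≤ 2 ^ 122 * (2 * s) ^ 4 * (Nat.log 2 (2 * s) + 1) ^ 6 :=
          Nat.mul_le_mul_left _ (Nat.pow_le_pow_left (by omega) 6)
      _ = ccz (2 * s) := rfl
  set e := (ends U).card with he
  have hem : e ≤ m := by
    have := Finset.card_le_univ (ends U)
    rwa [Fintype.card_fin] at this
  have hcc : 0 < ccz s := ccz_pos hs1
  have hL5 : 0 < L ^ 5 := Nat.pow_pos (by omega)
  set w := e / L ^ 5 with hw
  have hw1 : 1 ≤ w := (Nat.one_le_div_iff hL5).2 hU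
  have h7 : 8 * w ≤ e / 2 / ccz s := by
    refine (Nat.le_div_iff_mul_le hcc).2 ?_
    have h8 : w * L ^ 5 ≤ e := Nat.div_mul_le_self _ _
    have h9 : w * (16 * ccz s) ≤ e := (Nat.mul_le_mul_left _ h3).trans h8
    have h10 : 8 * w * ccz s * 2 ≤ e := by
      calc 8 * w * ccz s * 2 = w * (16 * ccz s) := by ring
        _ ≤ e := h9
    omega
  obtain ⟨ρ, M, hM1, hM2, hM3⟩ := rclique_few hs1 U (Nat.mul_div_le e 2)
  refine ⟨ρ, M, hM1, hM2, fun Y _ C o hC hf => ?_⟩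
  have e1 : ∀ y (x : Edge m → Bool),
      decide (0 < ((C y).range (fun v => some (x v)) (o y)).1) = true ↔
        0 < (C y).val x (o y) := by
    intro y x
    rw [range_some]
    simp
  have h11 := hM3 Y w (m ^ c * 2 ^ w) (fun y p => decide (0 < ((C y).range p (o y)).1))
    (fun y => ⟨C y, o y, (hC y).trans hms, fun _ => rfl⟩) (by
      intro x hx
      refine ⟨?_, fun y hy => (hf x hx).2 y ((e1 y x).1 hy)⟩
      have h12 := (hf x hx).1
      have h13 : {y | decide (0 < ((C y).range (fun v => some (x v)) (o y)).1) = true} =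
          {y | 0 < (C y).val x (o y)} := by
        ext y
        exact e1 y x
      rw [h13]
      exact h12)
  change (2 ^ s) ^ (e / 2 / ccz s) * _ ≤ _ at h11
  set c₁ := {x | x ∈ M ∧ AccSees U w
    (fun y p => decide (0 < ((C y).range p (o y)).1)) x}.ncard with hc₁
  have h12 : m ^ c * 2 ^ w * ((U.card + 1) * (e / 2 + 1)) ^ w
      ≤ 2 ^ s * 2 ^ ((3 * L + 4) * w) := by
    have h13 : e / 2 + 1 ≤ 2 ^ (L + 1) := by omega
    have h14 : U.card + 1 ≤ 2 ^ (2 * (L + 1)) := by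
      have h15 : U.card ≤ Fintype.card (Edge m) := Finset.card_le_univ U
      have h16 := two_card_edge_le m
      have h17 : m ^ 2 < 2 ^ (2 * (L + 1)) := by
        calc m ^ 2 < (2 ^ (L + 1)) ^ 2 := Nat.pow_lt_pow_left hmL (by norm_num)
          _ = 2 ^ (2 * (L + 1)) := by rw [← pow_mul, mul_comm]
      omega
    calc m ^ c * 2 ^ w * ((U.card + 1) * (e / 2 + 1)) ^ w
        ≤ 2 ^ s * 2 ^ w * (2 ^ (2 * (L + 1)) * 2 ^ (L + 1)) ^ w :=
          Nat.mul_le_mul (Nat.mul_le_mul_right _ hms)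
            (Nat.pow_le_pow_left (Nat.mul_le_mul h14 h13) w)
      _ = 2 ^ s * 2 ^ ((3 * L + 4) * w) := by
          rw [← pow_add, ← pow_add, ← pow_mul, ← pow_add, ← pow_add]
          congr 1
          ring
  have h14 : 2 ^ s * 2 ^ ((3 * L + 4) * w) * 2 ^ s ≤ (2 ^ s) ^ (e / 2 / ccz s) := by
    rw [← pow_add, ← pow_add, ← pow_mul]
    refine Nat.pow_le_pow_right (by norm_num) ?_
    have h15 : (3 * L + 4) * w ≤ 4 * s * w := Nat.mul_le_mul_right _ (by omega)
    have h16 : s ≤ s * w := Nat.le_mul_of_pos_right _ hw1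
    calc s + (3 * L + 4) * w + s ≤ s * w + 4 * s * w + s * w :=
          Nat.add_le_add (Nat.add_le_add h16 h15) h16
      _ = s * (6 * w) := by ring
      _ ≤ s * (e / 2 / ccz s) := Nat.mul_le_mul_left _ (by omega)
  have h17 : 2 ^ s * 2 ^ ((3 * L + 4) * w) * (m ^ c * c₁)
      ≤ 2 ^ s * 2 ^ ((3 * L + 4) * w) * M.card := by
    calc 2 ^ s * 2 ^ ((3 * L + 4) * w) * (m ^ c * c₁)
        ≤ 2 ^ s * 2 ^ ((3 * L + 4) * w) * (2 ^ s * c₁) :=
          Nat.mul_le_mul_left _ (Nat.mul_le_mul_right _ hms)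
      _ = 2 ^ s * 2 ^ ((3 * L + 4) * w) * 2 ^ s * c₁ := by ring
      _ ≤ (2 ^ s) ^ (e / 2 / ccz s) * c₁ := Nat.mul_le_mul_right _ h14
      _ ≤ m ^ c * 2 ^ w * ((U.card + 1) * (e / 2 + 1)) ^ w * M.card := h11
      _ ≤ 2 ^ s * 2 ^ ((3 * L + 4) * w) * M.card := Nat.mul_le_mul_right _ h12
  exact Nat.le_of_mul_le_mul_left h17 (by positivity)

end Pool.Agent.RC
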