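import Pool.Agent.RC.Closure
import Pool.Agent.RC.Comp
import Pool.Agent.NegLim.Chain

/-!
# The domination theorem for monotone real computations
-/

set_option autoImplicit false
set_option linter.unusedSectionVars false

namespace Pool.Agent.RC

open Pool.Agent.NegLim Finset
open scoped BigOperators

variable {V : Type} [Fintype V] [DecidableEq V]

/-- A threshold of a function with finitely many values is never true, or a level set. -/
theorem thr_levels (G : Finset V → ℝ) (ψ : ℝ →o Bool) :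
    (∀ y, ψ (G y) = false) ∨ ∃ z, ∀ y, ψ (G y) = true ↔ y ∈ lev G (G z) := by
  classical
  by_cases h : ∃ y, ψ (G y) = true
  · right
    obtain ⟨y₀, hy₀⟩ := h
    obtain ⟨z, hz, hmin⟩ := Finset.exists_min_image (univ.filter fun y => ψ (G y) = true) G
      ⟨y₀, by simpa using hy₀⟩
    have hz' : ψ (G z) = true := (Finset.mem_filter.mp hz).2
    refine ⟨z, fun y => ⟨fun hy => hmin y (by simpa using hy), fun hy => ?_⟩⟩
    have h1 : ψ (G z) ≤ ψ (G y) := ψ.monotone hy
    rw [hz'] at h1
    exact Bool.eq_true_of_true_le h1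
  · left
    intro y
    by_contra h2
    exact h ⟨y, by simpa using h2⟩

/-- Every set contains a minimal one of the same value. -/
theorem exists_smin {G : Finset V → ℝ} (hG : Monotone G) (T : Finset V) :
    ∃ T₀, T₀ ⊆ T ∧ G T₀ = G T ∧ ∀ T', T' ⊂ T₀ → G T' < G T₀ := by
  obtain ⟨T₀, h1, h2, h3⟩ := exists_min (S := lev G (G T)) T (le_refl (G T))
  have h4 : G T₀ = G T := le_antisymm (hG h1) h2
  exact ⟨T₀, h1, h4, fun T' hT' => by rw [h4]; exact not_le.mp (h3 T' hT')⟩

open Classical in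
/-- The largest value at a subset of size at most `w`. -/
noncomputable def rtrim (G : Finset V → ℝ) (w : ℕ) (y : Finset V) : ℝ :=
  (y.powerset.filter fun T => T.card ≤ w).sup' ⟨∅, by simp⟩ G

theorem le_rtrim {G : Finset V → ℝ} {w : ℕ} {y T : Finset V} (h : T ⊆ y) (hT : T.card ≤ w) :
    G T ≤ rtrim G w y := by
  unfold rtrim
  exact Finset.le_sup' G (by simp [h, hT])

theorem exists_rtrim (G : Finset V → ℝ) (w : ℕ) (y : Finset V) :
    ∃ T, T ⊆ y ∧ T.card ≤ w ∧ rtrim G w y = G T := by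
  classical
  obtain ⟨T, hT, h⟩ := Finset.exists_mem_eq_sup' (s := y.powerset.filter fun T => T.card ≤ w)
    ⟨∅, by simp⟩ G
  have h1 := Finset.mem_filter.mp hT
  exact ⟨T, Finset.mem_powerset.mp h1.1, h1.2, h⟩

theorem rtrim_le {G : Finset V → ℝ} (hG : Monotone G) (w : ℕ) (y : Finset V) :
    rtrim G w y ≤ G y := by
  obtain ⟨T, h1, -, h3⟩ := exists_rtrim G w y
  rw [h3]
  exact hG h1

theorem rtrim_mono (G : Finset V → ℝ) (w : ℕ) : Monotone (rtrim G w) := by
  intro y z hyz
  obtain ⟨T, h1, h2, h3⟩ := exists_rtrim G w y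
  rw [h3]
  exact le_rtrim (h1.trans hyz) h2

theorem rtrim_gen (G : Finset V → ℝ) (w : ℕ) : RGen w (rtrim G w) := by
  intro y
  obtain ⟨T, h1, h2, h3⟩ := exists_rtrim G w y
  exact ⟨T, h1, h2, le_antisymm (rtrim_mono G w h1) (by
    rw [h3]
    exact le_rtrim (Finset.Subset.refl T) h2)⟩

/-- Level sets of the trimmed function. -/
theorem lev_rtrim {G : Finset V → ℝ} (hG : Monotone G) (w : ℕ) (r : ℝ) :
    lev (rtrim G w) r = trim (lev G r) w := by
  ext y
  constructor
  · intro hy
    obtain ⟨T, h1, h2, h3⟩ := exists_rtrim G w y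
    have hT : T ∈ lev G r := by
      show r ≤ G T
      rw [← h3]
      exact hy
    obtain ⟨T₀, h4, h5, h6⟩ := exists_min T hT
    exact ⟨T₀.card, (card_le_card h4).trans h2, T₀, mem_mins.mpr ⟨h5, rfl, h6⟩, h4.trans h1⟩
  · rintro ⟨l, hl, T, hT, hTy⟩
    have h1 := mem_mins.mp hT
    show r ≤ rtrim G w y
    exact (show r ≤ G T from h1.1).trans (le_rtrim hTy (h1.2.1.trans_le hl))

section dist

variable {Y : Type} [Fintype Y] [Nonempty Y] (cw : Y → Finset V)

theorem expect_le_fam (𝒯 : ℕ → Finset (Finset V)) (h𝒯 : ∀ l, ∀ T ∈ 𝒯 l, T.card = l) {w : ℕ}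
    {q : ℝ} (hsp : Spread cw w q) (L : Finset ℕ) (hL : ∀ l ∈ L, l ≤ 2 * w) (A : Set (Finset V))
    (hA : ∀ y : Y, cw y ∈ A → ∃ l ∈ L, ∃ T ∈ 𝒯 l, T ⊆ cw y) :
    (𝔼 y : Y, ind A (cw y)) ≤ ∑ l ∈ L, ((𝒯 l).card : ℝ) * (1 / q) ^ l := by
  have h1 : ∀ y : Y, ind A (cw y) ≤ ∑ l ∈ L, ∑ T ∈ 𝒯 l, (if T ⊆ cw y then (1 : ℝ) else 0) := by
    intro y
    have hnn : ∀ l ∈ L, (0 : ℝ) ≤ ∑ T ∈ 𝒯 l, (if T ⊆ cw y then (1 : ℝ) else 0) := by
      intro l _
      apply Finset.sum_nonneg
      intro T _
      split_ifs <;> norm_num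
    by_cases hy : cw y ∈ A
    · rw [ind_of_mem hy]
      obtain ⟨l, hl, T, hT, hTy⟩ := hA y hy
      have h2 : (1 : ℝ) ≤ ∑ T ∈ 𝒯 l, (if T ⊆ cw y then (1 : ℝ) else 0) := by
        have := Finset.single_le_sum (f := fun T => (if T ⊆ cw y then (1 : ℝ) else 0))
          (s := 𝒯 l) (fun T _ => by split_ifs <;> norm_num) hT
        simpa [hTy] using this
      exact h2.trans (Finset.single_le_sum hnn hl)
    · rw [ind_of_notMem hy]
      exact Finset.sum_nonneg hnn
  refine (Finset.expect_le_expect fun y _ => h1 y).trans ?_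
  rw [Finset.expect_sum_comm]
  refine Finset.sum_le_sum fun l hl => ?_
  rw [Finset.expect_sum_comm]
  have h3 : ∀ T ∈ 𝒯 l, (𝔼 y : Y, (if T ⊆ cw y then (1 : ℝ) else 0)) ≤ (1 / q) ^ l := by
    intro T hT
    have h4 := h𝒯 l T hT
    have := hsp T (by rw [h4]; exact hL l hl)
    rwa [h4] at this
  refine (Finset.sum_le_sum h3).trans ?_
  rw [Finset.sum_const, nsmul_eq_mul]

/-- Trimming costs little for the random set `cw y`, all levels together. -/
theorem rtrim_error (M k w : ℕ) (q : ℝ) (hq0 : 0 < q) (hq : 8 * (w : ℝ) * ((M : ℝ) + 1) ≤ q)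
    (hsp : Spread cw w q) {G : Finset V → ℝ} (hG : Monotone G)
    (hcl : ∀ z, Closed M k (2 * w) (lev G (G z))) (hgen : RGen (2 * w) G) :
    (𝔼 y : Y, ind {y | rtrim G w y < G y} (cw y)) ≤ (1 / 2 : ℝ) ^ w := by
  have h1 := expect_le_fam cw (smin G) (fun l T hT => (mem_smin.mp hT).1) hsp
    (Finset.Ioc w (2 * w)) (fun l hl => (Finset.mem_Ioc.mp hl).2) {y | rtrim G w y < G y} (by
      intro y hy
      obtain ⟨T, hT1, hT2, hT3⟩ := hgen (cw y)
      obtain ⟨T0, h3, h4, h5⟩ := exists_smin hG T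
      have h6 : T0.card ≤ 2 * w := (card_le_card h3).trans hT2
      refine ⟨T0.card, Finset.mem_Ioc.mpr ⟨?_, h6⟩, T0, mem_smin.mpr ⟨rfl, h5⟩, h3.trans hT1⟩
      by_contra h8
      have h9 : G T0 ≤ rtrim G w (cw y) := le_rtrim (h3.trans hT1) (not_lt.mp h8)
      rw [h4, hT3] at h9
      exact absurd hy (not_lt.mpr h9))
  have h2 : ∀ l ∈ Finset.Ioc w (2 * w), ((smin G l).card : ℝ) * (1 / q) ^ l
        ≤ (1 / 2 : ℝ) ^ l := by
    intro l hl
    rw [Finset.mem_Ioc] at hl
    have h3 := smin_card M k (2 * w) hG hcl (l := l) hl.2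
    have h5 := Dk_mul_le M l (2 * w) q (1 / 2) hq0 hl.2 (by push_cast; linarith)
    have h6 : (0 : ℝ) ≤ (1 / q) ^ l := by positivity
    exact (mul_le_mul_of_nonneg_right h3 h6).trans h5
  refine h1.trans ((Finset.sum_le_sum h2).trans ?_)
  have h7 : ∀ n : ℕ, ∑ l ∈ Finset.Ioc w (w + n), (1 / 2 : ℝ) ^ l
      = (1 / 2) ^ w - (1 / 2) ^ (w + n) := by
    intro n
    induction n with
    | zero => simp
    | succ n ih =>
      rw [← add_assoc, Finset.sum_Ioc_succ_top (by omega), ih]
      ring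
  have h8 := h7 w
  rw [← two_mul] at h8
  rw [h8]
  have : (0 : ℝ) ≤ (1 / 2) ^ (2 * w) := by positivity
  linarith

/-- Approximators. -/
def RGood (M k w : ℕ) (A : Finset V → ℝ) : Prop :=
  Monotone A ∧ RGen w A ∧
    ∀ z, (𝔼 y : Y, ind (lev A (A z)) (cw y)) ≤ (nz M ^ k) (ind (lev A (A z))) ∅

/-- One gate. -/
theorem rgate_approx (M k w : ℕ) (q : ℝ) (hq0 : 0 < q) (hk : 1 ≤ k)
    (hq : 8 * (w : ℝ) * ((M : ℝ) + 1) ≤ q)
    (hsp : Spread cw w q) {F : Finset V → ℝ} (hF : Monotone F) (hgen : RGen (2 * w) F) :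
    ∃ (A : Finset V → ℝ) (N P : Set (Finset V)), RGood cw M k w A ∧
      (nz M ^ k) (ind N) ∅ ≤ ((Fintype.card V : ℝ) + 1) ^ (2 * w) * (1 / 2 : ℝ) ^ k ∧
      (𝔼 y : Y, ind P (cw y)) ≤ (1 / 2 : ℝ) ^ w ∧
      (∀ W, W ∉ N → A W ≤ F W) ∧ (∀ y, y ∉ P → F y ≤ A y) := by
  obtain ⟨G, hG, hGgen, hFG, hcl, hN⟩ := exists_rclosure M k (2 * w) hF hgen
  refine ⟨rtrim G w, {y | F y < G y}, {y | rtrim G w y < G y},
    ⟨rtrim_mono G w, rtrim_gen G w, ?_⟩, hN,
    rtrim_error cw M k w q hq0 hq hsp hG hcl hGgen, ?_, ?_⟩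
  · intro z
    obtain ⟨T, -, -, hT⟩ := exists_rtrim G w z
    rw [lev_rtrim hG, hT]
    exact dominated cw M k w q hq0 hk hq hsp (lev_upper hG _) (hcl T)
  · intro W hW
    exact (rtrim_le hG w W).trans (not_lt.mp hW)
  · intro y hy
    exact (hFG y).trans (not_lt.mp hy)

theorem rgood_const (M k w : ℕ) (c : ℝ) : RGood cw M k w (fun _ : Finset V => c) := by
  refine ⟨fun _ _ _ => le_rfl, fun y => ⟨∅, empty_subset y, by simp, rfl⟩, fun z => ?_⟩
  have h1 : ind (lev (fun _ : Finset V => c) c) = fun _ => (1 : ℝ) := by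
    funext y
    rw [ind_of_mem]
    exact le_refl c
  rw [h1, nz_pow_const]
  simp

/-- The approximation method. -/
theorem rapprox_method (M k w : ℕ) (q : ℝ) (hq0 : 0 < q) (hk : 1 ≤ k) (hw : 1 ≤ w)
    (hq : 8 * (w : ℝ) * ((M : ℝ) + 1) ≤ q) (hsp : Spread cw w q) (x : Finset V)
    {s : ℕ} {C : Set ((V → Bool) → ℝ)} (hC : RComp s C) :
    ∃ N P : Set (Finset V),
      (nz M ^ k) (ind N) ∅ ≤ s * (((Fintype.card V : ℝ) + 1) ^ (2 * w) * (1 / 2 : ℝ) ^ k) ∧
      (𝔼 y : Y, ind P (cw y)) ≤ s * (1 / 2 : ℝ) ^ w ∧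
      ∀ g ∈ C, ∃ A : Finset V → ℝ, RGood cw M k w A ∧
        (∀ W, W ∉ N → A W ≤ g (chi (x ∪ W))) ∧ (∀ y, y ∉ P → g (chi (x ∪ y)) ≤ A y) := by
  have hind0 : ind (∅ : Set (Finset V)) = fun _ => (0 : ℝ) := by
    funext y; rw [ind_of_notMem]; simp
  have hw1 : (1 : ℝ) ≤ w := by exact_mod_cast hw
  induction hC with
  | base =>
    refine ⟨∅, ∅, ?_, ?_, ?_⟩
    · rw [hind0, nz_pow_const]; simp
    · rw [hind0]; simp
    · rintro g (⟨v, rfl⟩ | ⟨c, rfl⟩)
      · by_cases hv : v ∈ x
        · refine ⟨fun _ => 1, rgood_const cw M k w 1, ?_, ?_⟩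
          · intro W _
            have h1 : chi (x ∪ W) v = true := by simp [chi, hv]
            simp only [h1, if_true]
            exact le_rfl
          · intro y _
            show (if chi (x ∪ y) v then (1 : ℝ) else 0) ≤ 1
            split_ifs <;> norm_num
        · refine ⟨fun y => if v ∈ y then 1 else 0, ⟨?_, ?_, ?_⟩, ?_, ?_⟩
          · intro y z hyz
            show (if v ∈ y then (1 : ℝ) else 0) ≤ if v ∈ z then 1 else 0
            by_cases h : v ∈ y
            · rw [if_pos h, if_pos (hyz h)]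
            · rw [if_neg h]
              split_ifs <;> norm_num
          · intro y
            by_cases h : v ∈ y
            · exact ⟨{v}, by simpa using h, by simpa using hw, by simp [h]⟩
            · exact ⟨∅, empty_subset y, by simp, by simp [h]⟩
          · intro z
            by_cases h : v ∈ z
            · have e1 : lev (fun y : Finset V => if v ∈ y then (1 : ℝ) else 0)
                  (if v ∈ z then 1 else 0) = {y | v ∈ y} := by
                ext y
                show (if v ∈ z then (1 : ℝ) else 0) ≤ (if v ∈ y then 1 else 0) ↔ v ∈ y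
                rw [if_pos h]
                by_cases h2 : v ∈ y
                · simp [h2]
                · simp only [h2, if_false, iff_false]
                  norm_num
              show (𝔼 y : Y, ind (lev (fun y : Finset V => if v ∈ y then (1 : ℝ) else 0)
                  (if v ∈ z then 1 else 0)) (cw y)) ≤ (nz M ^ k) (ind (lev (fun y : Finset V =>
                    if v ∈ y then (1 : ℝ) else 0) (if v ∈ z then 1 else 0))) ∅
              rw [e1]
              have h1 : (𝔼 y : Y, ind {y | v ∈ y} (cw y)) ≤ 1 / q := by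
                have h2 := hsp {v} (by simp; omega)
                rw [card_singleton, pow_one] at h2
                refine le_trans (Finset.expect_le_expect fun y _ => ?_) h2
                by_cases hvy : v ∈ cw y
                · rw [ind_of_mem (show cw y ∈ {y | v ∈ y} from hvy),
                    if_pos (by simpa using hvy)]
                · rw [ind_of_notMem (show cw y ∉ {y | v ∈ y} from hvy)]
                  split_ifs <;> norm_num
              have h3 : (1 : ℝ) / (M + 1) ≤ nz M (ind {y | v ∈ y}) ∅ := by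
                have h4 := expect_subset_zset M ({v} : Finset V)
                rw [card_singleton, pow_one] at h4
                rw [← h4, nz_apply]
                refine Finset.expect_le_expect fun ω _ => ?_
                by_cases hvz : ({v} : Finset V) ⊆ zset M ω
                · rw [if_pos hvz, ind_of_mem]
                  simp only [empty_union, Set.mem_ofPred_eq]
                  exact hvz (mem_singleton_self v)
                · rw [if_neg hvz]; exact ind_nonneg _ _
              have h5 : nz M (ind {y | v ∈ y}) ∅ ≤ (nz M ^ k) (ind {y | v ∈ y}) ∅ := by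
                have h6 : IsUpperSet {y : Finset V | v ∈ y} := by
                  intro a b hab ha
                  exact hab ha
                have := nz_pow_ind_mono_exp M hk h6 ∅
                rwa [pow_one] at this
              refine h1.trans (le_trans ?_ (h3.trans h5))
              apply one_div_le_one_div_of_le (by positivity)
              have : (0 : ℝ) ≤ (M : ℝ) + 1 := by positivity
              nlinarith
            · have e1 : ind (lev (fun y : Finset V => if v ∈ y then (1 : ℝ) else 0)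
                  (if v ∈ z then 1 else 0)) = fun _ => (1 : ℝ) := by
                funext y
                rw [ind_of_mem]
                show (if v ∈ z then (1 : ℝ) else 0) ≤ if v ∈ y then 1 else 0
                rw [if_neg h]
                split_ifs <;> norm_num
              show (𝔼 y : Y, ind (lev (fun y : Finset V => if v ∈ y then (1 : ℝ) else 0)
                  (if v ∈ z then 1 else 0)) (cw y)) ≤ (nz M ^ k) (ind (lev (fun y : Finset V =>
                    if v ∈ y then (1 : ℝ) else 0) (if v ∈ z then 1 else 0))) ∅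
              rw [e1, nz_pow_const]
              simp
          · intro W _
            show (if v ∈ W then (1 : ℝ) else 0) ≤ if chi (x ∪ W) v then 1 else 0
            by_cases h : v ∈ W
            · have : chi (x ∪ W) v = true := by simp [chi, h]
              rw [if_pos h, if_pos this]
            · rw [if_neg h]
              split_ifs <;> norm_num
          · intro y _
            show (if chi (x ∪ y) v then (1 : ℝ) else 0) ≤ if v ∈ y then 1 else 0
            by_cases h : v ∈ y
            · rw [if_pos h]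
              split_ifs <;> norm_num
            · have : chi (x ∪ y) v = false := by simp [chi, h, hv]
              rw [this, if_neg h]
              norm_num
      · exact ⟨fun _ => c, rgood_const cw M k w c, fun W _ => le_rfl, fun y _ => le_rfl⟩
  | @gate s C f g φ _ hf hg ih =>
    obtain ⟨N, P, hN, hP, hA⟩ := ih
    obtain ⟨A, ⟨hA1, hA2, _⟩, hA4, hA5⟩ := hA f hf
    obtain ⟨B, ⟨hB1, hB2, _⟩, hB4, hB5⟩ := hA g hg
    have hmono : Monotone fun y : Finset V => φ (A y, B y) :=
      fun y z hyz => φ.monotone ⟨hA1 hyz, hB1 hyz⟩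
    have hgen : RGen (2 * w) fun y : Finset V => φ (A y, B y) := by
      intro y
      obtain ⟨T1, h1, h2, h3⟩ := hA2 y
      obtain ⟨T2, h4, h5, h6⟩ := hB2 y
      have e1 : A (T1 ∪ T2) = A y := le_antisymm (hA1 (union_subset h1 h4)) (by
        rw [← h3]
        exact hA1 subset_union_left)
      have e2 : B (T1 ∪ T2) = B y := le_antisymm (hB1 (union_subset h1 h4)) (by
        rw [← h6]
        exact hB1 subset_union_right)
      refine ⟨T1 ∪ T2, union_subset h1 h4, ?_, ?_⟩
      · have := card_union_le T1 T2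
        omega
      · simp only [e1, e2]
    obtain ⟨A', N', P', h1, h2, h3, h4, h5⟩ :=
      rgate_approx cw M k w q hq0 hk hq hsp hmono hgen
    refine ⟨N ∪ N', P ∪ P', ?_, ?_, ?_⟩
    · have := nz_pow_union M k N N' (∅ : Finset V)
      push_cast
      linarith
    · have := expect_union cw P P'
      push_cast
      linarith
    · rintro a (rfl | ha)
      · refine ⟨A', h1, ?_, ?_⟩
        · intro W hW
          refine (h4 W (fun h => hW (Or.inr h))).trans (φ.monotone ⟨?_, ?_⟩)
          · exact hA4 W (fun h => hW (Or.inl h))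
          · exact hB4 W (fun h => hW (Or.inl h))
        · intro y hy
          refine le_trans (φ.monotone ⟨?_, ?_⟩) (h5 y (fun h => hy (Or.inr h)))
          · exact hA5 y (fun h => hy (Or.inl h))
          · exact hB5 y (fun h => hy (Or.inl h))
      · obtain ⟨D, hD1, hD2, hD3⟩ := hA a ha
        exact ⟨D, hD1, fun W hW => hD2 W (fun h => hW (Or.inl h)),
          fun y hy => hD3 y (fun h => hy (Or.inl h))⟩

/-- The family of the sets at which `h` is true. -/
def tset (h : (V → Bool) → Bool) : Set (Finset V) := {z | h (chi z) = true}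

theorem tset_upper {h : (V → Bool) → Bool} (hh : Monotone h) : IsUpperSet (tset h) := by
  intro a b hab ha
  have h1 : chi a ≤ chi b := by
    intro v
    simp only [chi]
    by_cases hv : v ∈ a
    · simp [hv, hab hv]
    · simp [hv]
  have h2 := hh h1
  have h3 : h (chi a) = true := ha
  rw [h3] at h2
  exact Bool.eq_true_of_true_le h2

/-- **Domination**, for thresholds of monotone real computations. -/
theorem rdomination (M k w : ℕ) (q : ℝ) (hq0 : 0 < q) (hk : 1 ≤ k) (hw : 1 ≤ w)
    (hq : 8 * (w : ℝ) * ((M : ℝ) + 1) ≤ q) (hsp : Spread cw w q)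
    (hkw : ((Fintype.card V : ℝ) + 1) ^ (2 * w) * (1 / 2 : ℝ) ^ k ≤ (1 / 2 : ℝ) ^ w)
    {s : ℕ} {C : Set ((V → Bool) → ℝ)} (hC : RComp s C) {g : (V → Bool) → ℝ} (hg : g ∈ C)
    (ψ : ℝ →o Bool) {h : (V → Bool) → Bool} (hψ : ∀ z, h z = ψ (g z)) (x : Finset V) :
    (𝔼 y : Y, ind (tset h) (x ∪ cw y)) ≤ (nz M ^ k) (ind (tset h)) x
      + s * (2 * (1 / 2 : ℝ) ^ w) := by
  obtain ⟨N, P, hN, hP, hA⟩ := rapprox_method cw M k w q hq0 hk hw hq hsp x hC
  obtain ⟨A, ⟨_, _, hA3⟩, hA4, hA5⟩ := hA g hg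
  -- the level set of the approximator
  obtain ⟨S, hS, hSdom⟩ : ∃ S : Set (Finset V), (∀ y, ψ (A y) = true ↔ y ∈ S) ∧
      (𝔼 y : Y, ind S (cw y)) ≤ (nz M ^ k) (ind S) ∅ := by
    rcases thr_levels A ψ with h0 | ⟨z, hz⟩
    · refine ⟨∅, fun y => by simp [h0 y], ?_⟩
      have hind0 : ind (∅ : Set (Finset V)) = fun _ => (0 : ℝ) := by
        funext y; rw [ind_of_notMem]; simp
      rw [hind0, nz_pow_const]
      simp
    · exact ⟨_, hz, hA3 z⟩
  have hup : ∀ y, y ∉ P → x ∪ y ∈ tset h → y ∈ S := by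
    intro y hy hyh
    rw [← hS]
    have h1 : h (chi (x ∪ y)) = true := hyh
    rw [hψ] at h1
    have h2 := ψ.monotone (hA5 y hy)
    rw [h1] at h2
    exact Bool.eq_true_of_true_le h2
  have hdn : ∀ W, W ∉ N → W ∈ S → x ∪ W ∈ tset h := by
    intro W hW hWS
    rw [← hS] at hWS
    have h2 := ψ.monotone (hA4 W hW)
    rw [hWS] at h2
    show h (chi (x ∪ W)) = true
    rw [hψ]
    exact Bool.eq_true_of_true_le h2
  have h1 : (𝔼 y : Y, ind (tset h) (x ∪ cw y))
      ≤ (𝔼 y : Y, ind S (cw y)) + (𝔼 y : Y, ind P (cw y)) := by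
    rw [← Finset.expect_add_distrib]
    refine Finset.expect_le_expect fun y _ => ?_
    by_cases h3 : x ∪ cw y ∈ tset h
    · rw [ind_of_mem h3]
      by_cases h2 : cw y ∈ P
      · rw [ind_of_mem h2]; linarith [ind_nonneg S (cw y)]
      · rw [ind_of_mem (hup _ h2 h3)]; linarith [ind_nonneg P (cw y)]
    · rw [ind_of_notMem h3]; linarith [ind_nonneg S (cw y), ind_nonneg P (cw y)]
  have h2 : (nz M ^ k) (ind S) ∅ ≤ (nz M ^ k) (ind (tset h)) x + (nz M ^ k) (ind N) ∅ := by
    have h3 : ind S ≤ (fun W => ind (tset h) (x ∪ W)) + ind N := by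
      intro W
      simp only [Pi.add_apply]
      by_cases h5 : W ∈ S
      · rw [ind_of_mem h5]
        by_cases h2 : W ∈ N
        · rw [ind_of_mem h2]; linarith [ind_nonneg (tset h) (x ∪ W)]
        · rw [ind_of_mem (hdn _ h2 h5)]; linarith [ind_nonneg N W]
      · rw [ind_of_notMem h5]; linarith [ind_nonneg (tset h) (x ∪ W), ind_nonneg N W]
    have h4 := nz_pow_mono M k h3 ∅
    rw [map_add] at h4
    simp only [Pi.add_apply] at h4
    rwa [nz_pow_shift, union_empty] at h4
  have h5 : (s : ℝ) * (((Fintype.card V : ℝ) + 1) ^ (2 * w) * (1 / 2 : ℝ) ^ k)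
      ≤ s * (1 / 2 : ℝ) ^ w := mul_le_mul_of_nonneg_left hkw (by positivity)
  linarith

/-- The sum of the increments along the chain. -/
theorem rsum_incr (M k w : ℕ) (q : ℝ) (hq0 : 0 < q) (hk : 1 ≤ k) (hw : 1 ≤ w)
    (hq : 8 * (w : ℝ) * ((M : ℝ) + 1) ≤ q) (hsp : Spread cw w q)
    (hkw : ((Fintype.card V : ℝ) + 1) ^ (2 * w) * (1 / 2 : ℝ) ^ k ≤ (1 / 2 : ℝ) ^ w)
    {s : ℕ} {h : (V → Bool) → Bool} (hh : RFun s h) (r : ℕ) :
    ∑ i ∈ range r, (nz M ^ (k * i)) (incr cw (tset h)) ∅
      ≤ 1 + r * (s * (2 * (1 / 2 : ℝ) ^ w)) := by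
  obtain ⟨s', hs', C, hC, g, hgC, ψ, hψ⟩ := hh
  have h1 : incr cw (tset h)
      ≤ (nz M ^ k) (ind (tset h)) + (fun _ => (s : ℝ) * (2 * (1 / 2 : ℝ) ^ w))
        - ind (tset h) := by
    intro x
    simp only [Pi.add_apply, Pi.sub_apply]
    have := rdomination cw M k w q hq0 hk hw hq hsp hkw hC hgC ψ hψ x
    have h2 : (s' : ℝ) * (2 * (1 / 2 : ℝ) ^ w) ≤ (s : ℝ) * (2 * (1 / 2 : ℝ) ^ w) := by
      apply mul_le_mul_of_nonneg_right _ (by positivity)
      exact_mod_cast hs'
    unfold incr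
    linarith
  have h2 : ∀ i ∈ range r, (nz M ^ (k * i)) (incr cw (tset h)) ∅
      ≤ ((nz M ^ (k * (i + 1))) (ind (tset h)) ∅ - (nz M ^ (k * i)) (ind (tset h)) ∅)
        + s * (2 * (1 / 2 : ℝ) ^ w) := by
    intro i _
    have h3 := nz_pow_mono M (k * i) h1 ∅
    rw [map_sub, map_add, nz_pow_const] at h3
    simp only [Pi.add_apply, Pi.sub_apply] at h3
    have h4 : (nz M ^ (k * i)) ((nz M ^ k) (ind (tset h)))
        = (nz M ^ (k * (i + 1))) (ind (tset h)) := by
      rw [mul_add, mul_one, pow_add]; rfl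
    rw [h4] at h3
    linarith
  refine (Finset.sum_le_sum h2).trans ?_
  rw [Finset.sum_add_distrib, Finset.sum_range_sub (fun i => (nz M ^ (k * i)) (ind (tset h)) ∅),
    Finset.sum_const, card_range, nsmul_eq_mul]
  have h5 := nz_pow_ind_le_one M (k * r) (tset h) (∅ : Finset V)
  have h6 := nz_pow_ind_nonneg M (k * 0) (tset h) (∅ : Finset V)
  linarith

end dist

end Pool.Agent.RC
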