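import Pool.Agent.RC.Converse

/-!
# Wide slices for real circuits: `|U| / d` changes of the NOT gates on `U` suffice

For a function `f` which is increasing in the variables of `U` (any function if `d = 1`), binary
search finds `|x ∩ U| / d` rounded down, and the negations of the variables of `U` are replaced
by `d` levels of approximate values of `f`.
-/

set_option autoImplicit false
set_option linter.unusedSectionVars false

namespace Pool.Agent.RC

open Pool.Agent.NegLim Pool.Agent.NTR Pool.Agent.NTN Pool.Agent.NTN.Wsl Finset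

namespace WideR

section iter

variable {V : Type} {ν : (V → Bool) → List ℝ} {n t : ℕ} {Φ : Set ((V → Bool) → ℝ)}

/-- One function after another. -/
theorem iterE {K : Type} {c : ℕ} (h : RHas ν n t Φ) (s : Finset K)
    (G : K → ((V → Bool) → ℝ) → Prop)
    (hA : ∀ k ∈ s, ∀ (m : ℕ) (Ψ : Set ((V → Bool) → ℝ)), Φ ⊆ Ψ → RHas ν m t Ψ →
      ∃ P, G k P ∧ RHas ν (m + c) t (insert P Ψ)) :
    ∃ Φ' : Set ((V → Bool) → ℝ), Φ ⊆ Φ' ∧ RHas ν (n + c * s.card) t Φ' ∧
      ∀ k ∈ s, ∃ P ∈ Φ', G k P := by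
  classical
  induction s using Finset.induction_on with
  | empty =>
    exact ⟨Φ, subset_rfl, h.mono (by simp) subset_rfl,
      fun k hk => absurd hk (Finset.notMem_empty k)⟩
  | insert k s hk ih =>
    obtain ⟨Φ', h1, h2, h3⟩ := ih fun i hi => hA i (Finset.mem_insert_of_mem hi)
    obtain ⟨P, h4, h5⟩ := hA k (Finset.mem_insert_self k s) _ _ h1 h2
    refine ⟨insert P Φ', h1.trans (Set.subset_insert _ _),
      h5.mono (by rw [Finset.card_insert_of_notMem hk]; ring_nf; omega) subset_rfl,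
      fun i hi => ?_⟩
    rcases Finset.mem_insert.mp hi with rfl | hi
    · exact ⟨P, Set.mem_insert _ _, h4⟩
    · obtain ⟨P', h6, h7⟩ := h3 i hi
      exact ⟨P', Set.mem_insert_of_mem _ h6, h7⟩

end iter

/-! ### Binary search for `|x ∩ U| / d` -/

theorem nb_thr_div {L m c d : ℕ} (hd : 1 ≤ d) :
    (if thr ((d : ℝ) * (2 ^ L - 2 ^ m)) ((c : ℝ) + (d : ℝ) * fnd L (m + 1) (c / d)) then (0 : ℝ)
      else 1) = nb m (c / d) := by
  rw [← nb_thr (L := L)]
  have e1 : (2 : ℝ) ^ L - 2 ^ m - fnd L (m + 1) (c / d)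
      = ((2 ^ m * (2 * (c / d / 2 ^ (m + 1)) + 1) : ℕ) : ℝ) := by
    unfold fnd
    rw [pow_succ]
    push_cast
    ring
  have key : (thr ((d : ℝ) * (2 ^ L - 2 ^ m)) ((c : ℝ) + (d : ℝ) * fnd L (m + 1) (c / d)) = true)
      ↔ thr (2 ^ L - 2 ^ m) (((c / d : ℕ) : ℝ) + fnd L (m + 1) (c / d)) = true := by
    rw [thr_iff, thr_iff]
    have e2 : ((d : ℝ) * (2 ^ L - 2 ^ m) ≤ (c : ℝ) + (d : ℝ) * fnd L (m + 1) (c / d)) ↔
        ((2 ^ m * (2 * (c / d / 2 ^ (m + 1)) + 1) * d : ℕ) : ℝ) ≤ (c : ℝ) := by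
      rw [Nat.cast_mul, ← e1]
      constructor <;> intro h <;> nlinarith
    have e3 : ((2 : ℝ) ^ L - 2 ^ m ≤ ((c / d : ℕ) : ℝ) + fnd L (m + 1) (c / d)) ↔
        ((2 ^ m * (2 * (c / d / 2 ^ (m + 1)) + 1) : ℕ) : ℝ) ≤ ((c / d : ℕ) : ℝ) := by
      rw [← e1]
      constructor <;> intro h <;> linarith
    rw [e2, e3, Nat.cast_le, Nat.cast_le, Nat.le_div_iff_mul_le (by omega)]
  by_cases h : thr (2 ^ L - 2 ^ m) (((c / d : ℕ) : ℝ) + fnd L (m + 1) (c / d)) = true
  · rw [if_pos h, if_pos (key.2 h)]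
  · rw [if_neg h, if_neg (fun h2 => h (key.1 h2))]

section search

variable {V : Type} [DecidableEq V] {ν : (V → Bool) → List ℝ} {n t : ℕ}
  {Φ : Set ((V → Bool) → ℝ)}

/-- The binary search. -/
theorem search (h : RHas ν n t Φ) (U : Finset V) (L : ℕ) {d : ℕ} (hd : 1 ≤ d)
    (hc : (fun x => (cnt U x : ℝ)) ∈ Φ) (h0 : (fun x => fnd L L (cnt U x / d)) ∈ Φ) :
    ∀ s, s ≤ L → ∃ (ν' : (V → Bool) → List ℝ) (Ψ : Set ((V → Bool) → ℝ)), Φ ⊆ Ψ ∧
      (fun x => fnd L (L - s) (cnt U x / d)) ∈ Ψ ∧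
      (∀ x, ν' x = ν x ++ (List.range s).map fun i => nb (L - 1 - i) (cnt U x / d)) ∧
      RHas ν' (n + 3 * s) (t + s) Ψ := by
  intro s
  induction s with
  | zero =>
    intro _
    exact ⟨ν, Φ, Set.Subset.refl _, by simpa using h0, fun x => by simp, by simpa using h⟩
  | succ s ih =>
    intro hs
    obtain ⟨ν', Ψ, h1, h2, h3, h4⟩ := ih (by omega)
    obtain ⟨m, hm⟩ : ∃ m, m = L - (s + 1) := ⟨_, rfl⟩
    have hm1 : L - s = m + 1 := by omega
    have hm2 : L - 1 - s = m := by omega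
    rw [hm1] at h2
    have g1 := h4.gate (h1 hc) h2 (addMul (d : ℝ) (by positivity))
    have g2 := g1.not (Or.inl rfl) (thr ((d : ℝ) * (2 ^ L - 2 ^ m)))
    have g3 := g2.gate (F := fun x => fnd L (m + 1) (cnt U x / d)) (Or.inr (Or.inr h2))
      (Or.inl rfl) (addMul (2 ^ m) (by positivity))
    have e1 : ∀ x : V → Bool, (if thr ((d : ℝ) * (2 ^ L - 2 ^ m)) (addMul (d : ℝ) (by positivity)
        ((cnt U x : ℝ), fnd L (m + 1) (cnt U x / d))) then (0 : ℝ) else 1)
          = nb m (cnt U x / d) := by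
      intro x
      rw [addMul_apply]
      exact nb_thr_div hd
    refine ⟨_, _, ?_, ?_, ?_, g3.mono (by omega) (Set.Subset.refl _)⟩
    · exact fun F hF => Or.inr (Or.inr (Or.inr (h1 hF)))
    · left
      funext x
      rw [← hm, addMul_apply, e1, fnd_step]
    · intro x
      rw [e1, h3, List.range_succ, List.map_append, List.append_assoc]
      simp [hm2]

end search

section levels

variable {V : Type} [Fintype V] [DecidableEq V]

/-- `P` separates the inputs with value `1` from those with value `0`; `r` levels are left. -/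
structure GoodR (U : Finset V) (d : ℕ) (f : (V → Bool) → Bool) (r : ℕ) (I : Finset V)
    (P : (V → Bool) → ℝ) : Prop where
  val : ∀ x, 0 ≤ P x ∧ P x ≤ 1
  one : ∀ x, (r ≠ 0 → f (up I x) = true) → d * (cnt U x / d) ≤ cnt (U \ I) x → P x = 1
  zero : ∀ x, (∀ a ∈ I, x a = true) → f x = false → P x = 0

/-- The functions available. -/
structure AvailR (U : Finset V) (d L : ℕ) (Φ : Set ((V → Bool) → ℝ)) : Prop where
  bas : vars V ⊆ Φ
  nvar : ∀ v, v ∉ U → (fun x : V → Bool => if x v then (0 : ℝ) else 1) ∈ Φ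
  num : (fun x => fnd L 0 (cnt U x / d)) ∈ Φ

theorem AvailR.mono {U : Finset V} {d L : ℕ} {Φ Ψ : Set ((V → Bool) → ℝ)} (h : AvailR U d L Φ)
    (hs : Φ ⊆ Ψ) : AvailR U d L Ψ :=
  ⟨h.bas.trans hs, fun v hv => hs (h.nvar v hv), hs h.num⟩

variable {ν : (V → Bool) → List ℝ} {n t d L : ℕ} {Φ : Set ((V → Bool) → ℝ)} {U : Finset V}

open Classical in
/-- The threshold gate of the first level. -/
noncomputable def thr2 (θ c : ℝ) (hc : 0 ≤ c) : ℝ × ℝ →o ℝ where
  toFun p := if θ ≤ p.1 + c * p.2 then 1 else 0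
  monotone' := by
    rintro ⟨a, b⟩ ⟨a', b'⟩ ⟨h1, h2⟩
    show (if θ ≤ a + c * b then (1 : ℝ) else 0) ≤ if θ ≤ a' + c * b' then 1 else 0
    have h3 : a + c * b ≤ a' + c * b' := add_le_add h1 (mul_le_mul_of_nonneg_left h2 hc)
    by_cases h : θ ≤ a + c * b
    · rw [if_pos h, if_pos (h.trans h3)]
    · rw [if_neg h]
      split_ifs <;> norm_num

/-- The first level. -/
theorem lvl_zero (hd : 1 ≤ d) (f : (V → Bool) → Bool) (hA : AvailR U d L Φ) {I : Finset V}
    (hI : I ⊆ U) (hc : I.card = d) (h : RHas ν n t Φ) :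
    ∃ P, GoodR U d f 0 I P ∧ RHas ν (n + (2 * Fintype.card V + 1)) t (insert P Φ) := by
  have h1 := h.sum (F₀ := fun _ => 0) (hA.bas (Or.inr (Or.inl rfl))) (fun _ : V => (1 : ℝ))
    (fun _ => zero_le_one) (fun v x => if x v then 1 else 0) (U \ I)
    (fun v _ => hA.bas (Or.inl ⟨v, rfl⟩))
  have h2 := h1.gate (Or.inl rfl) (Or.inr hA.num)
    (thr2 ((d : ℝ) * (2 ^ L - 1)) (d : ℝ) (by positivity))
  have key : ∀ x : V → Bool, thr2 ((d : ℝ) * (2 ^ L - 1)) (d : ℝ) (by positivity)
      (0 + ∑ k ∈ U \ I, 1 * (if x k then (1 : ℝ) else 0), fnd L 0 (cnt U x / d))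
      = if d * (cnt U x / d) ≤ cnt (U \ I) x then 1 else 0 := by
    intro x
    have e1 : (0 + ∑ k ∈ U \ I, 1 * (if x k then (1 : ℝ) else 0)) = (cnt (U \ I) x : ℝ) := by
      rw [cnt_cast, zero_add]
      exact Finset.sum_congr rfl fun v _ => one_mul _
    have e2 : ((d : ℝ) * (2 ^ L - 1) ≤ (cnt (U \ I) x : ℝ) + (d : ℝ) * fnd L 0 (cnt U x / d)) ↔
        d * (cnt U x / d) ≤ cnt (U \ I) x := by
      rw [fnd_zero, ← Nat.cast_le (α := ℝ), Nat.cast_mul]
      constructor <;> intro h <;> nlinarith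
    show (if (d : ℝ) * (2 ^ L - 1) ≤ (0 + ∑ k ∈ U \ I, 1 * (if x k then (1 : ℝ) else 0))
      + (d : ℝ) * fnd L 0 (cnt U x / d) then (1 : ℝ) else 0) = _
    rw [e1]
    by_cases h3 : d * (cnt U x / d) ≤ cnt (U \ I) x
    · rw [if_pos h3, if_pos (e2.2 h3)]
    · rw [if_neg h3, if_neg (fun h4 => h3 (e2.1 h4))]
  refine ⟨fun x => if d * (cnt U x / d) ≤ cnt (U \ I) x then 1 else 0, ⟨fun x => ?_,
    fun x _ hx => if_pos hx, fun x hx _ => if_neg ?_⟩, h2.mono ?_ ?_⟩
  · split_ifs <;> norm_num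
  · have h3 := cnt_sdiff I hI x hx
    have h4 := Nat.lt_mul_div_succ (cnt U x) (show 0 < d by omega)
    rw [Nat.mul_succ] at h4
    omega
  · have h3 : (U \ I).card ≤ Fintype.card V := Finset.card_le_univ _
    omega
  · rintro E (rfl | hE)
    · left
      funext x
      exact (key x).symm
    · exact Or.inr (Or.inr hE)

/-- The second sum at the input `x`. -/
noncomputable def cod' (x : V → Bool) : ℝ := ∑ v : V, 2 ^ plc v * (if x v then 0 else 1)

theorem cod'_eq (x : V → Bool) : cod' x = (∑ v : V, (2 : ℝ) ^ plc v) - code x := by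
  unfold cod' code
  rw [← Finset.sum_sub_distrib]
  refine Finset.sum_congr rfl fun v _ => ?_
  cases x v <;> simp

/-- One set of the next level. -/
theorem lvl_succ {r : ℕ} (f : (V → Bool) → Bool)
    (hmono : 1 < d → ∀ x y : V → Bool, (∀ v, v ∉ U → x v = y v) → x ≤ y → f x = true →
      f y = true)
    (hA : AvailR U d L Φ) {I : Finset V} (hc : I.card + (r + 1) = d)
    (hL : ∀ a ∈ U, a ∉ I → ∃ P ∈ Φ, GoodR U d f r (insert a I) P) (h : RHas ν n t Φ) :
    ∃ P, GoodR U d f (r + 1) I P ∧ RHas ν (n + (2 * Fintype.card V + 1)) t (insert P Φ) := by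
  classical
  have hex : ∀ v : V, ∃ P ∈ Φ, (v ∈ U → v ∉ I → GoodR U d f r (insert v I) P) := by
    intro v
    by_cases h1 : v ∈ U ∧ v ∉ I
    · obtain ⟨P, h2, h3⟩ := hL v h1.1 h1.2
      exact ⟨P, h2, fun _ _ => h3⟩
    · exact ⟨fun _ => 0, hA.bas (Or.inr (Or.inl rfl)), fun h2 h3 => absurd ⟨h2, h3⟩ h1⟩
  choose G hG hG' using hex
  obtain ⟨p, hp⟩ : ∃ p : V → (V → Bool) → ℝ, p = fun v x =>
    if v ∈ I then 1 else if x v then 1 else 0 := ⟨_, rfl⟩
  obtain ⟨q, hq⟩ : ∃ q : V → (V → Bool) → ℝ, q = fun v x =>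
    if v ∈ I then 0 else if v ∈ U then G v x else if x v then 0 else 1 := ⟨_, rfl⟩
  have hpΦ : ∀ v, p v ∈ Φ := by
    intro v
    rw [hp]
    by_cases hv : v ∈ I
    · simp only [if_pos hv]
      exact hA.bas (Or.inr (Or.inr rfl))
    · simp only [if_neg hv]
      exact hA.bas (Or.inl ⟨v, rfl⟩)
  have hqΦ : ∀ v, q v ∈ Φ := by
    intro v
    rw [hq]
    by_cases hv : v ∈ I
    · simp only [if_pos hv]
      exact hA.bas (Or.inr (Or.inl rfl))
    · by_cases hv' : v ∈ U
      · simp only [if_neg hv, if_pos hv']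
        exact hG v
      · simp only [if_neg hv, if_neg hv']
        exact hA.nvar v hv'
  have h1 := h.sum (F₀ := fun _ => 0) (hA.bas (Or.inr (Or.inl rfl)))
    (fun v : V => (2 : ℝ) ^ plc v) (fun _ => by positivity) p univ (fun v _ => hpΦ v)
  have h2 := h1.sum (F₀ := fun _ => 0) (Or.inr (hA.bas (Or.inr (Or.inl rfl))))
    (fun v : V => (2 : ℝ) ^ plc v) (fun _ => by positivity) q univ (fun v _ => Or.inr (hqΦ v))
  have h3 := h2.gate (Or.inr (Or.inl rfl)) (Or.inl rfl) (anti f code cod')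
  refine ⟨fun x => anti f code cod' (0 + ∑ k : V, 2 ^ plc k * p k x,
    0 + ∑ k : V, 2 ^ plc k * q k x), ⟨fun x => ?_, fun x hx hw => ?_, fun x hx hf => ?_⟩,
    h3.mono ?_ ?_⟩
  · show 0 ≤ (if ∃ z, f z = true ∧ code z ≤ 0 + ∑ k : V, 2 ^ plc k * p k x ∧
      cod' z ≤ 0 + ∑ k : V, 2 ^ plc k * q k x then (1 : ℝ) else 0) ∧ (if ∃ z, f z = true ∧
      code z ≤ 0 + ∑ k : V, 2 ^ plc k * p k x ∧
      cod' z ≤ 0 + ∑ k : V, 2 ^ plc k * q k x then (1 : ℝ) else 0) ≤ 1
    split_ifs <;> norm_num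
  · have hfx := hx (Nat.succ_ne_zero r)
    show (if ∃ z, f z = true ∧ code z ≤ 0 + ∑ k : V, 2 ^ plc k * p k x ∧
      cod' z ≤ 0 + ∑ k : V, 2 ^ plc k * q k x then (1 : ℝ) else 0) = 1
    refine if_pos ⟨up I x, hfx, ?_, ?_⟩
    · rw [zero_add]
      unfold code
      refine Finset.sum_le_sum fun v _ => mul_le_mul_of_nonneg_left (le_of_eq ?_)
        (by positivity)
      rw [hp]
      by_cases hv : v ∈ I
      · simp [up, hv]
      · simp [up, hv]
    · rw [zero_add]
      unfold cod'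
      refine Finset.sum_le_sum fun v _ => mul_le_mul_of_nonneg_left ?_ (by positivity)
      rw [hq]
      by_cases hv : v ∈ I
      · simp [up, hv]
      · by_cases hv' : v ∈ U
        · simp only [up, if_neg hv, if_pos hv']
          by_cases hz : x v = true
          · rw [if_pos hz]
            exact ((hG' v hv' hv).val x).1
          · rw [if_neg hz]
            have hz' : x v = false := by simpa using hz
            refine le_of_eq ((hG' v hv' hv).one x (fun hr => ?_) ?_).symm
            · refine hmono (by omega) (up I x) _ (fun u hu => ?_) (fun u => ?_) hfx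
              · have h4 : u ≠ v := fun h5 => hu (h5 ▸ hv')
                simp only [up, Finset.mem_insert, h4, false_or]
              · simp only [up, Finset.mem_insert]
                by_cases h4 : u ∈ I
                · simp [h4]
                · by_cases h5 : u = v
                  · simp [h5]
                  · simp [h4, h5]
            · rw [cnt_off x hz']
              exact hw
        · simp only [up, if_neg hv, if_neg hv']
          exact le_refl _
  · show (if ∃ z, f z = true ∧ code z ≤ 0 + ∑ k : V, 2 ^ plc k * p k x ∧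
      cod' z ≤ 0 + ∑ k : V, 2 ^ plc k * q k x then (1 : ℝ) else 0) = 0
    refine if_neg ?_
    rintro ⟨z, h4, h5, h6⟩
    have h7 : code z ≤ code x := by
      refine h5.trans (le_of_eq ?_)
      rw [zero_add]
      unfold code
      refine Finset.sum_congr rfl fun v _ => ?_
      rw [hp]
      by_cases hv : v ∈ I
      · simp [hv, hx v hv]
      · simp [hv]
    have h8 : cod' z ≤ cod' x := by
      refine h6.trans ?_
      rw [zero_add]
      unfold cod'
      refine Finset.sum_le_sum fun v _ => mul_le_mul_of_nonneg_left ?_ (by positivity)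
      rw [hq]
      by_cases hv : v ∈ I
      · simp [hv, hx v hv]
      · by_cases hv' : v ∈ U
        · simp only [if_neg hv, if_pos hv']
          by_cases hz : x v = true
          · rw [if_pos hz]
            refine le_of_eq ((hG' v hv' hv).zero x (fun a ha => ?_) hf)
            rcases Finset.mem_insert.1 ha with rfl | ha
            · exact hz
            · exact hx a ha
          · rw [if_neg hz]
            exact ((hG' v hv' hv).val x).2
        · simp only [if_neg hv, if_neg hv']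
          exact le_refl _
    rw [cod'_eq, cod'_eq] at h8
    have h9 : z = x := code_inj (le_antisymm h7 (by linarith))
    rw [h9, hf] at h4
    exact Bool.false_ne_true h4
  · rw [Finset.card_univ]
    omega
  · rintro E (rfl | hE)
    · exact Or.inl rfl
    · exact Or.inr (Or.inr (Or.inr hE))

/-- The levels. -/
theorem lvls (hd : 1 ≤ d) (f : (V → Bool) → Bool)
    (hmono : 1 < d → ∀ x y : V → Bool, (∀ v, v ∉ U → x v = y v) → x ≤ y → f x = true →
      f y = true)
    (hA : AvailR U d L Φ) (h : RHas ν n t Φ) : ∀ m, m ≤ d →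
    ∃ Φ' : Set ((V → Bool) → ℝ), Φ ⊆ Φ' ∧
      RHas ν (n + (2 * Fintype.card V + 1) * ∑ i ∈ Finset.range (m + 1), U.card ^ (d - i)) t Φ' ∧
      ∀ I ⊆ U, I.card + m = d → ∃ P ∈ Φ', GoodR U d f m I P := by
  intro m
  induction m with
  | zero =>
    intro _
    obtain ⟨Φ', h1, h2, h3⟩ := iterE (c := 2 * Fintype.card V + 1) h (U.powersetCard d)
      (fun I P => GoodR U d f 0 I P) (by
        intro I hI m' Ψ hΨ hm'
        rw [Finset.mem_powersetCard] at hI
        exact lvl_zero hd f (hA.mono hΨ) hI.1 hI.2 hm')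
    refine ⟨Φ', h1, h2.mono ?_ subset_rfl, fun I hI hc =>
      h3 I (Finset.mem_powersetCard.2 ⟨hI, by omega⟩)⟩
    rw [Finset.card_powersetCard, zero_add, Finset.sum_range_one, Nat.sub_zero]
    exact Nat.add_le_add_left (Nat.mul_le_mul_left _ (Nat.choose_le_pow _ _)) _
  | succ m ih =>
    intro hm
    obtain ⟨Φ', h1, h2, h3⟩ := ih (by omega)
    obtain ⟨Φ'', h4, h5, h6⟩ := iterE (c := 2 * Fintype.card V + 1) h2
      (U.powersetCard (d - (m + 1))) (fun I P => GoodR U d f (m + 1) I P) (by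
        intro I hI m' Ψ hΨ hm'
        rw [Finset.mem_powersetCard] at hI
        refine lvl_succ f hmono (hA.mono (h1.trans hΨ)) (by omega) (fun a ha haI => ?_) hm'
        obtain ⟨P, h7, h8⟩ := h3 (insert a I) (Finset.insert_subset ha hI.1) (by
          rw [Finset.card_insert_of_notMem haI, hI.2]
          omega)
        exact ⟨P, hΨ h7, h8⟩)
    refine ⟨Φ'', h1.trans h4, h5.mono ?_ subset_rfl, fun I hI hc =>
      h6 I (Finset.mem_powersetCard.2 ⟨hI, by omega⟩)⟩
    rw [Finset.sum_range_succ _ (m + 1), mul_add, ← add_assoc, Finset.card_powersetCard]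
    exact Nat.add_le_add_left (Nat.mul_le_mul_left _ (Nat.choose_le_pow _ _)) _

end levels

end WideR

open WideR

variable {V : Type} [Fintype V] [DecidableEq V]

/-- **Wide slices for real circuits.** Every function of `n` variables which is increasing in the
variables of `U` (any function if `d = 1`) is computed by a real circuit with at most
`(3 n + 4) (|U| + 1) ^ d` gates in which at most `log (|U| / d) + 1` NOT gates see the variables in
`U`, and the NOT gates change their values at most `|U| / d` times on `U`. -/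
theorem exists_real_wide (f : (V → Bool) → Bool) (U : Finset V) {d : ℕ} (hd : 1 ≤ d)
    (hmono : 1 < d → ∀ x y : V → Bool, (∀ v, v ∉ U → x v = y v) → x ≤ y → f x = true →
      f y = true) :
    ∃ (D : RCircuit V) (o : Wire V),
      D.size ≤ (3 * Fintype.card V + 4) * (U.card + 1) ^ d ∧
      (∀ x, D.val x o = if f x then 1 else 0) ∧
      ChangesOn U (fun x => D.notVals x) (U.card / d + 1) ∧
      D.negs ≤ (Fintype.card V - U.card) + (Nat.log 2 (U.card / d) + 1) ∧
      ∃ J : Finset ℕ, J.card ≤ Nat.log 2 (U.card / d) + 1 ∧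
        ∀ i, i ∉ J → ∀ x y, (∀ v, v ∉ U → x v = y v) →
          (D.notVals x)[i]? = (D.notVals y)[i]? := by
  obtain ⟨l, hl⟩ : ∃ l, l = (Uᶜ : Finset V).toList := ⟨_, rfl⟩
  have hlU : ∀ v, v ∈ l ↔ v ∉ U := by
    intro v
    rw [hl, Finset.mem_toList, Finset.mem_compl]
  have hll : l.length = Fintype.card V - U.card := by
    rw [hl, Finset.length_toList, Finset.card_compl]
  have hUc : U.card ≤ Fintype.card V := Finset.card_le_univ U
  obtain ⟨L, hL⟩ : ∃ L, L = Nat.log 2 (U.card / d) + 1 := ⟨_, rfl⟩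
  have hUL : U.card / d < 2 ^ L := hL ▸ Nat.lt_pow_succ_log_self (by norm_num) _
  -- the negated variables outside `U`
  have h0 := (rhas_vars (V := V)).nots (Set.Subset.refl _) l
  -- the number of ones in `U`
  have h1 := h0.sum (F₀ := fun _ => 0) (Or.inl (Or.inr (Or.inl rfl))) (fun _ : V => (1 : ℝ))
    (fun _ => zero_le_one) (fun v x => if x v then 1 else 0) U
    (fun v _ => Or.inl (Or.inl ⟨v, rfl⟩))
  obtain ⟨ν, Ψ, hΨ, hN, hν, h2⟩ := WideR.search h1 U L hd
    (Or.inl (by
      funext x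
      rw [cnt_cast]
      simp))
    (Or.inr (Or.inl (Or.inr (Or.inl (by
      funext x
      exact fnd_top ((Nat.div_le_div_right (cnt_le U x)).trans_lt hUL)))))) L le_rfl
  rw [Nat.sub_self] at hN
  have hA : AvailR U d L Ψ := by
    refine ⟨?_, fun v hv => hΨ (Or.inr (Or.inr ⟨v, (hlU v).2 hv, rfl⟩)), hN⟩
    intro F hF
    exact hΨ (Or.inr (Or.inl hF))
  obtain ⟨Φ', -, h3, h4⟩ := lvls hd f hmono hA h2 d le_rfl
  obtain ⟨P, hP, hg⟩ := h4 ∅ (Finset.empty_subset _) (by simp)
  obtain ⟨D, g1, g2, g3, g4⟩ := h3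
  obtain ⟨o, -, ho⟩ := g4 P hP
  have hnot : ∀ x, D.notVals x = (l.map fun v => if x v then (0 : ℝ) else 1)
      ++ (List.range L).map fun i => nb (L - 1 - i) (cnt U x / d) := by
    intro x
    rw [g3, hν]
    rfl
  refine ⟨D, o, ?_, fun x => ?_, ?_, ?_, Finset.Ico l.length (l.length + L), ?_, ?_⟩
  · refine g1.trans ?_
    have h5 : ∑ i ∈ Finset.range (d + 1), U.card ^ (d - i) ≤ (U.card + 1) ^ d :=
      sum_pow_le U.card d
    have h6 : (2 * Fintype.card V + 1) * ∑ i ∈ Finset.range (d + 1), U.card ^ (d - i)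
        ≤ (2 * Fintype.card V + 1) * (U.card + 1) ^ d := Nat.mul_le_mul_left _ h5
    have h7 : U.card + 1 ≤ (U.card + 1) ^ d := Nat.le_self_pow (by omega) _
    have h8 : L ≤ U.card + 1 := by
      rw [hL]
      exact Nat.succ_le_succ ((Nat.log_le_self _ _).trans (Nat.div_le_self _ _))
    have h9 : Fintype.card V ≤ Fintype.card V * (U.card + 1) ^ d :=
      Nat.le_mul_of_pos_right _ (by positivity)
    have h10 : (3 * Fintype.card V + 4) * (U.card + 1) ^ d = Fintype.card V * (U.card + 1) ^ d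
        + 3 * (U.card + 1) ^ d + (2 * Fintype.card V + 1) * (U.card + 1) ^ d := by ring
    rw [h10, hll]
    omega
  · rw [ho x]
    by_cases hx : f x = true
    · rw [if_pos hx]
      refine hg.one x (fun _ => ?_) ?_
      · have h5 : up ∅ x = x := by
          funext v
          simp [up]
        rw [h5]
        exact hx
      · rw [Finset.sdiff_empty]
        exact Nat.mul_div_le _ _
    · rw [if_neg hx]
      exact hg.zero x (fun a ha => absurd ha (Finset.notMem_empty a)) (by simpa using hx)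
  · refine changesOn_wide (U := U) (d := d) (fun x => D.notVals x) ?_
    rintro x y ⟨h9, h10⟩
    rw [hnot, hnot, h10]
    refine congrArg (· ++ _) (List.map_congr_left fun v hv => ?_)
    rw [h9 v ((hlU v).1 hv)]
  · rw [g2, hll]
    omega
  · rw [Nat.card_Ico]
    omega
  · intro i hi x y hxy
    rw [hnot, hnot]
    rcases Nat.lt_or_ge i l.length with h8 | h8
    · rw [List.getElem?_append_left (by simpa using h8),
        List.getElem?_append_left (by simpa using h8)]
      refine congrArg (·[i]?) (List.map_congr_left fun v hv => ?_)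
      rw [hxy v ((hlU v).1 hv)]
    · have h9 : l.length + L ≤ i := by
        by_contra h10
        exact hi (Finset.mem_Ico.2 ⟨h8, by omega⟩)
      rw [List.getElem?_eq_none (by simp; omega), List.getElem?_eq_none (by simp; omega)]

end Pool.Agent.RC
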